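import Pool.Agent.Lib.Pa7c826g.PathPoly
import Pool.Agent.Lib.Pa7c826.Fptas

/-!
The algorithm on input strings: the side with the larger degrees comes first.

PROOFS.
`adjR_*`: from `adjOf_symm`, `adjOf_self`, `adjOf_bip` (`Pa7c826/Decode.lean`).
`adjO_polyAdj`: `poly_flagG`, `PolyB.ite` (or `(flag ∧ x) ∨ (¬ flag ∧ y)`), `poly_adj`, `PolyN.sub`.
`poly_flagG`: nested `PolyB.exists_lt` (as `poly_indB` in `Pa7c826/AlgoPoly.lean`), `poly_dg`, `PolyB.lt`.
`poly_minDegG`: `PolyN.count`, `PolyB.exists_lt`, `poly_dgA`, `PolyB.le`.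
`algoG_poly`: `poly_outVal0 k adjO_polyAdj`.
`dg_rev`: the map `i ↦ n - 1 - i` is a bijection of the neighbourhoods in `range n`
(`Finset.card_bij` or `Finset.card_nbij'`). `ind_rev`: the same map on subsets
(`Finset.card_bij'` with `Finset.image`).
`minDeg_le`: `minDegG w ≤ dg (adjO w) (range n) u` for `u < sideN w`: the counted `i` are all `< dg u`
(`Finset.card_le_card` into `range (dg u)`). `le_minDeg`: if all `dg u ≥ M'` for `u < sideN w` and
`M' ≤ n` then `range M' ⊆` the counted set.
-/

namespace Pool.Agent.Lib.Pa7c826g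

open Finset Pool.Agent.Lib.PolyTime Pool.Agent.Lib.Pa7c826

/-- all left degrees are at least all right degrees -/
def flagG (w : List Bool) : Bool :=
  !decide (∃ u < aOf w, decide (∃ j < bOf w, decide (dg (adjOf w) (range (nOf w)) u <
    dg (adjOf w) (range (nOf w)) (aOf w + j)) = true) = true)

/-- adjacency in reversed order -/
def adjR (w : List Bool) (u v : ℕ) : Bool :=
  (decide (u < nOf w) && decide (v < nOf w)) && adjOf w (nOf w - 1 - u) (nOf w - 1 - v)

/-- adjacency, the side with the larger degrees first -/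
def adjO (w : List Bool) (u v : ℕ) : Bool :=
  (flagG w && adjOf w u v) || (!flagG w && adjR w u v)

/-- number of vertices of the first side -/
def sideN (w : List Bool) : ℕ := if flagG w then aOf w else bOf w

/-- minimum degree of the first side -/
def minDegG (w : List Bool) : ℕ :=
  ((range (nOf w)).filter (fun i =>
    (!decide (∃ u < sideN w, decide (dg (adjO w) (range (nOf w)) u ≤ i) = true)) = true)).card

/-- the algorithm -/
def algoG (k : ℕ) (w : List Bool) : ℕ := outVal0 k (nOf w) (tOf w) (minDegG w) (adjO w)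

theorem adjR_symm (w : List Bool) (u v : ℕ) : adjR w u v = adjR w v u := by
  unfold adjR
  rw [Bool.and_comm (decide (u < nOf w)) (decide (v < nOf w)), adjOf_symm]

theorem adjR_self (w : List Bool) (u : ℕ) : adjR w u u = false := by
  unfold adjR
  rw [adjOf_self, Bool.and_false]

theorem adjR_bip {w : List Bool} {u v : ℕ} (h : adjR w u v = true) :
    v < nOf w ∧ (u < bOf w ↔ ¬ v < bOf w) := by
  unfold adjR at h
  simp only [Bool.and_eq_true, decide_eq_true_eq] at h
  obtain ⟨⟨h1, h2⟩, h3⟩ := h
  have h4 := adjOf_bip h3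
  have hn : nOf w = aOf w + bOf w := rfl
  omega

theorem dg_rev {w : List Bool} {u : ℕ} (hu : u < nOf w) :
    dg (adjR w) (range (nOf w)) u = dg (adjOf w) (range (nOf w)) (nOf w - 1 - u) := by
  unfold dg
  refine card_nbij' (fun x => nOf w - 1 - x) (fun x => nOf w - 1 - x) ?_ ?_ ?_ ?_
  · intro x hx
    simp only [coe_filter, mem_range, Set.mem_ofPred_eq] at hx ⊢
    obtain ⟨h1, h2⟩ := hx
    unfold adjR at h2
    simp only [Bool.and_eq_true, decide_eq_true_eq] at h2
    exact ⟨by omega, h2.2⟩
  · intro x hx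
    simp only [coe_filter, mem_range, Set.mem_ofPred_eq] at hx ⊢
    obtain ⟨h1, h2⟩ := hx
    refine ⟨by omega, ?_⟩
    unfold adjR
    have h3 : nOf w - 1 - (nOf w - 1 - x) = x := by omega
    rw [h3, h2, decide_eq_true hu, decide_eq_true (show nOf w - 1 - x < nOf w by omega)]
    rfl
  · intro x hx
    simp only [coe_filter, mem_range, Set.mem_ofPred_eq] at hx
    show nOf w - 1 - (nOf w - 1 - x) = x
    omega
  · intro x hx
    simp only [coe_filter, mem_range, Set.mem_ofPred_eq] at hx
    show nOf w - 1 - (nOf w - 1 - x) = x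
    omega

private lemma image_image_rev {n : ℕ} {I : Finset ℕ} (hI : I ⊆ range n) :
    (I.image (fun x => n - 1 - x)).image (fun x => n - 1 - x) = I := by
  rw [image_image]
  ext y
  simp only [mem_image, Function.comp]
  constructor
  · rintro ⟨x, hx, rfl⟩
    have := mem_range.1 (hI hx)
    have h3 : n - 1 - (n - 1 - x) = x := by omega
    rw [h3]
    exact hx
  · intro hy
    have := mem_range.1 (hI hy)
    exact ⟨y, hy, by omega⟩

theorem ind_rev (w : List Bool) :
    ind (adjR w) (range (nOf w)) = ind (adjOf w) (range (nOf w)) := by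
  unfold ind
  refine card_bij' (fun I _ => I.image (fun x => nOf w - 1 - x))
    (fun I _ => I.image (fun x => nOf w - 1 - x)) ?_ ?_ ?_ ?_
  · intro I hI
    simp only [mem_filter, mem_powerset] at hI ⊢
    obtain ⟨h1, h2⟩ := hI
    constructor
    · intro y hy
      obtain ⟨x, hx, rfl⟩ := mem_image.1 hy
      have := mem_range.1 (h1 hx)
      exact mem_range.2 (by omega)
    · intro y hy z hz
      obtain ⟨x, hx, rfl⟩ := mem_image.1 hy
      obtain ⟨x', hx', rfl⟩ := mem_image.1 hz
      have h3 := mem_range.1 (h1 hx)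
      have h4 := mem_range.1 (h1 hx')
      have h5 := h2 x hx x' hx'
      unfold adjR at h5
      rw [decide_eq_true h3, decide_eq_true h4, Bool.and_self, Bool.true_and] at h5
      exact h5
  · intro I hI
    simp only [mem_filter, mem_powerset] at hI ⊢
    obtain ⟨h1, h2⟩ := hI
    constructor
    · intro y hy
      obtain ⟨x, hx, rfl⟩ := mem_image.1 hy
      have := mem_range.1 (h1 hx)
      exact mem_range.2 (by omega)
    · intro y hy z hz
      obtain ⟨x, hx, rfl⟩ := mem_image.1 hy
      obtain ⟨x', hx', rfl⟩ := mem_image.1 hz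
      have h3 := mem_range.1 (h1 hx)
      have h4 := mem_range.1 (h1 hx')
      have h5 := h2 x hx x' hx'
      unfold adjR
      have h6 : nOf w - 1 - (nOf w - 1 - x) = x := by omega
      have h7 : nOf w - 1 - (nOf w - 1 - x') = x' := by omega
      rw [h6, h7, h5, Bool.and_false]
  · intro I hI
    simp only [mem_filter, mem_powerset] at hI
    exact image_image_rev hI.1
  · intro I hI
    simp only [mem_filter, mem_powerset] at hI
    exact image_image_rev hI.1

private lemma mem_minDegG {w : List Bool} {i : ℕ} :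
    (!decide (∃ u < sideN w, decide (dg (adjO w) (range (nOf w)) u ≤ i) = true)) = true ↔
      ∀ u < sideN w, i < dg (adjO w) (range (nOf w)) u := by
  rw [Bool.not_eq_true', decide_eq_false_iff_not]
  constructor
  · intro h u hu
    by_contra hcon
    exact h ⟨u, hu, decide_eq_true (by omega)⟩
  · rintro h ⟨u, hu, h2⟩
    rw [decide_eq_true_eq] at h2
    have := h u hu
    omega

theorem minDeg_le {w : List Bool} {u : ℕ} (hu : u < sideN w) :
    minDegG w ≤ dg (adjO w) (range (nOf w)) u := by
  unfold minDegG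
  calc ((range (nOf w)).filter (fun i =>
      (!decide (∃ u < sideN w, decide (dg (adjO w) (range (nOf w)) u ≤ i) = true)) = true)).card
      ≤ (range (dg (adjO w) (range (nOf w)) u)).card := by
        apply card_le_card
        intro i hi
        rw [mem_filter, mem_minDegG] at hi
        exact mem_range.2 (hi.2 u hu)
    _ = dg (adjO w) (range (nOf w)) u := card_range _

theorem le_minDeg {w : List Bool} {M' : ℕ} (h1 : M' ≤ nOf w)
    (h : ∀ u < sideN w, M' ≤ dg (adjO w) (range (nOf w)) u) : M' ≤ minDegG w := by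
  unfold minDegG
  calc M' = (range M').card := (card_range _).symm
    _ ≤ _ := by
        apply card_le_card
        intro i hi
        have hi' := mem_range.1 hi
        rw [mem_filter, mem_minDegG]
        refine ⟨mem_range.2 (by omega), ?_⟩
        intro u hu
        have := h u hu
        omega

private theorem polyN_iteG {α : Type} {D : α → Prop} {ctx : List (α → List Bool)} {φ : α → Bool}
    {f g : α → ℕ} (hφ : PolyB D ctx φ) (hf : PolyN D ctx f) (hg : PolyN D ctx g) :
    PolyN D ctx (fun a => if φ a = true then f a else g a) := by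
  have := PolyC.ite hφ (PolyC.mono hf (fun a (h : D a ∧ φ a = true) => h.1))
    (PolyC.mono hg (fun a (h : D a ∧ φ a = false) => h.1))
  refine PolyC.congr this (fun a _ => ?_)
  show (if φ a = true then un (f a) else un (g a)) = un (if φ a = true then f a else g a)
  split_ifs <;> rfl

theorem poly_flagG {α : Type} {D : α → Prop} {ctx : List (α → List Bool)} {w : α → List Bool}
    (hw : PolyC D ctx w) : PolyB D ctx (fun a => flagG (w a)) := by
  have W := up (n := fun a => aOf (w a)) hw
  have L := last (D := D) (ctx := ctx) (n := fun a => aOf (w a))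
  have W2 := up (n := fun p : α × ℕ => bOf (w p.1)) W
  have L1 := upN (n := fun p : α × ℕ => bOf (w p.1)) L
  have L2 := last (D := fun p : α × ℕ => D p.1 ∧ p.2 < aOf (w p.1))
    (ctx := PolyTime.lift ctx ++ [fun p : α × ℕ => un p.2])
    (n := fun p : α × ℕ => bOf (w p.1))
  have R2 := PolyS.range (poly_nOf W2)
  have D1 := poly_dg W2 R2 L1
  have D2 := poly_dg W2 R2 ((poly_aOf W2).add L2)
  exact (PolyB.exists_lt (φ := fun p : α × ℕ => decide (∃ j < bOf (w p.1),
    decide (dg (adjOf (w p.1)) (range (nOf (w p.1))) p.2 <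
      dg (adjOf (w p.1)) (range (nOf (w p.1))) (aOf (w p.1) + j)) = true)) (poly_aOf hw)
    (PolyB.exists_lt (φ := fun q : (α × ℕ) × ℕ =>
      decide (dg (adjOf (w q.1.1)) (range (nOf (w q.1.1))) q.1.2 <
        dg (adjOf (w q.1.1)) (range (nOf (w q.1.1))) (aOf (w q.1.1) + q.2))) (poly_bOf W)
      (PolyB.lt D1 D2))).not

theorem adjO_polyAdj : PolyAdj adjO := by
  intro β D' ctx' w' u' v' hw hu hv
  have hn := poly_nOf hw
  have h1 := PolyN.sub hn (PolyN.const 1)
  exact ((poly_flagG hw).and (poly_adj hw hu hv)).or ((poly_flagG hw).not.and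
    (((PolyB.lt hu hn).and (PolyB.lt hv hn)).and
      (poly_adj hw (PolyN.sub h1 hu) (PolyN.sub h1 hv))))

theorem poly_minDegG {α : Type} {D : α → Prop} {ctx : List (α → List Bool)} {w : α → List Bool}
    (hw : PolyC D ctx w) : PolyN D ctx (fun a => minDegG (w a)) := by
  have W := up (n := fun a => nOf (w a)) hw
  have L := last (D := D) (ctx := ctx) (n := fun a => nOf (w a))
  have S1 : PolyN (fun p : α × ℕ => D p.1 ∧ p.2 < nOf (w p.1))
      (PolyTime.lift ctx ++ [fun p => un p.2]) (fun p => sideN (w p.1)) :=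
    polyN_iteG (poly_flagG W) (poly_aOf W) (poly_bOf W)
  have W2 := up (n := fun p : α × ℕ => sideN (w p.1)) W
  have L1 := upN (n := fun p : α × ℕ => sideN (w p.1)) L
  have L2 := last (D := fun p : α × ℕ => D p.1 ∧ p.2 < nOf (w p.1))
    (ctx := PolyTime.lift ctx ++ [fun p : α × ℕ => un p.2])
    (n := fun p : α × ℕ => sideN (w p.1))
  have R2 := PolyS.range (poly_nOf W2)
  have D1 := poly_dgA adjO_polyAdj W2 R2 L2
  exact PolyN.count (φ := fun p : α × ℕ => !decide (∃ u < sideN (w p.1),
    decide (dg (adjO (w p.1)) (range (nOf (w p.1))) u ≤ p.2) = true)) (poly_nOf hw)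
    (PolyB.exists_lt (φ := fun q : (α × ℕ) × ℕ =>
      decide (dg (adjO (w q.1.1)) (range (nOf (w q.1.1))) q.2 ≤ q.1.2)) S1
      (PolyB.le D1 L1)).not

theorem algoG_poly (k : ℕ) {α : Type} {D : α → Prop} {ctx : List (α → List Bool)}
    {w : α → List Bool} (hw : PolyC D ctx w) : PolyBin D ctx (fun a => algoG k (w a)) :=
  poly_outVal0 k adjO_polyAdj hw (poly_minDegG hw)

end Pool.Agent.Lib.Pa7c826g
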