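import Pool.Agent.Lib.Pa7c826.Leaf

/-!
Branching with a degree threshold `M / 20`: definitions and basic facts (adapted from
`Pa7c826/Branch.lean`, where the threshold is `n / g`).
-/

namespace Pool.Agent.Lib.Pa7c826g

open Finset Pool.Agent.Lib.Pa7c826

section

variable (n M : ℕ) (adj : ℕ → ℕ → Bool)

/-- `v` is heavy in `S`: more than `M / 20` neighbours -/
def heavyG (S : Finset ℕ) (v : ℕ) : Bool := decide (v ∈ S) && decide (M < 20 * dg adj S v)

/-- `v` is the first heavy vertex -/
def chosenG (S : Finset ℕ) (v : ℕ) : Bool :=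
  heavyG M adj S v && !decide (∃ u < v, heavyG M adj S u = true)

/-- there is a heavy vertex -/
def anyG (S : Finset ℕ) : Bool := decide (∃ u < n, heavyG M adj S u = true)

/-- remove the first heavy vertex -/
def outG (S : Finset ℕ) : Finset ℕ := S.filter (fun v => chosenG M adj S v = false)

/-- remove the first heavy vertex and its neighbours -/
def inG (S : Finset ℕ) : Finset ℕ :=
  S.filter (fun u => (!chosenG M adj S u &&
    !decide (∃ v < n, (chosenG M adj S v && adj v u) = true)) = true)

/-- branching of depth `j` with leaf function `f`: at every level either all further heavy vertices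
are excluded, or the first included heavy vertex is the `i`-th chosen one -/
def cntG (f : Finset ℕ → ℕ) : ℕ → Finset ℕ → ℕ
  | 0, S => f S
  | j + 1, S => cntG f j ((outG M adj)^[n] S) +
      ∑ i ∈ range n, if anyG n M adj ((outG M adj)^[i] S) then
        cntG f j (inG n M adj ((outG M adj)^[i] S)) else 0

/-- total number of independent sets at the nodes with exactly `j` inclusions -/
def cutG : ℕ → Finset ℕ → ℕ
  | 0, S => ind adj S
  | j + 1, S => ∑ i ∈ range n, if anyG n M adj ((outG M adj)^[i] S) then
      cutG j (inG n M adj ((outG M adj)^[i] S)) else 0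

end

variable {n M : ℕ} {adj : ℕ → ℕ → Bool}

theorem heavyG_mem {S : Finset ℕ} {v : ℕ} (h : heavyG M adj S v = true) : v ∈ S := by
  unfold heavyG at h
  simp only [Bool.and_eq_true, decide_eq_true_eq] at h
  exact h.1

theorem chosenG_heavy {S : Finset ℕ} {v : ℕ} (h : chosenG M adj S v = true) :
    heavyG M adj S v = true := by
  unfold chosenG at h
  simp only [Bool.and_eq_true] at h
  exact h.1

theorem chosenG_unique {S : Finset ℕ} {v w : ℕ} (h : chosenG M adj S v = true)
    (h' : chosenG M adj S w = true) : v = w := by
  unfold chosenG at h h'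
  simp only [Bool.and_eq_true, Bool.not_eq_true', decide_eq_false_iff_not] at h h'
  rcases lt_trichotomy v w with hlt | heq | hgt
  · exact absurd ⟨v, hlt, h.1⟩ h'.2
  · exact heq
  · exact absurd ⟨w, hgt, h'.1⟩ h.2

theorem exists_chosenG {S : Finset ℕ} (h : ∃ u, heavyG M adj S u = true) :
    ∃ v, chosenG M adj S v = true := by
  classical
  refine ⟨Nat.find h, ?_⟩
  unfold chosenG
  simp only [Bool.and_eq_true, Bool.not_eq_true', decide_eq_false_iff_not]
  refine ⟨Nat.find_spec h, ?_⟩
  rintro ⟨u, hu, hh⟩
  exact Nat.find_min h hu hh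

theorem outG_eq {S : Finset ℕ} {v : ℕ} (h : chosenG M adj S v = true) :
    outG M adj S = S.erase v := by
  ext u
  simp only [outG, mem_filter, mem_erase]
  constructor
  · rintro ⟨h1, h2⟩
    exact ⟨fun e => by subst e; rw [h] at h2; exact absurd h2 (by simp), h1⟩
  · rintro ⟨h1, h2⟩
    refine ⟨h2, ?_⟩
    by_contra h3
    rw [Bool.not_eq_false] at h3
    exact h1 (chosenG_unique h3 h)

theorem outG_eq_self {S : Finset ℕ} (h : ∀ u, heavyG M adj S u = false) :
    outG M adj S = S := by
  ext u
  simp only [outG, mem_filter, and_iff_left_iff_imp]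
  intro _
  unfold chosenG
  rw [h u]
  rfl

theorem inG_eq {S : Finset ℕ} {v : ℕ} (hv : v < n) (h : chosenG M adj S v = true) :
    inG n M adj S = (S.erase v).filter (fun u => adj v u = false) := by
  ext u
  simp only [inG, mem_filter, mem_erase, Bool.and_eq_true, Bool.not_eq_true',
    decide_eq_false_iff_not]
  constructor
  · rintro ⟨h1, h2, h3⟩
    refine ⟨⟨fun e => by subst e; rw [h] at h2; exact absurd h2 (by simp), h1⟩, ?_⟩
    by_contra h4
    rw [Bool.not_eq_false] at h4
    exact h3 ⟨v, hv, h, h4⟩
  · rintro ⟨⟨h1, h2⟩, h3⟩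
    refine ⟨h2, ?_, ?_⟩
    · by_contra h4
      rw [Bool.not_eq_false] at h4
      exact h1 (chosenG_unique h4 h)
    · rintro ⟨w, hw, h4, h5⟩
      rw [chosenG_unique h4 h, h3] at h5
      exact absurd h5 (by simp)

theorem outG_subset (S : Finset ℕ) : outG M adj S ⊆ S := filter_subset _ _

theorem inG_subset (S : Finset ℕ) : inG n M adj S ⊆ S := filter_subset _ _

theorem iterate_outG_subset (S : Finset ℕ) (i : ℕ) : (outG M adj)^[i] S ⊆ S := by
  induction i with
  | zero => exact subset_rfl
  | succ i ih =>
    rw [Function.iterate_succ_apply']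
    exact (outG_subset _).trans ih

theorem anyG_iff {S : Finset ℕ} (hS : S ⊆ range n) :
    anyG n M adj S = true ↔ ∃ u, heavyG M adj S u = true := by
  unfold anyG
  rw [decide_eq_true_eq]
  constructor
  · rintro ⟨u, _, h⟩
    exact ⟨u, h⟩
  · rintro ⟨u, h⟩
    exact ⟨u, mem_range.1 (hS (heavyG_mem h)), h⟩

/-- Telescoping along the path of exclusions. -/
theorem ind_pathG (hs : ∀ u v, adj u v = adj v u) (hl : ∀ u, adj u u = false)
    {S : Finset ℕ} (hS : S ⊆ range n) (m : ℕ) :
    ind adj S = (∑ i ∈ range m, if anyG n M adj ((outG M adj)^[i] S) then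
      ind adj (inG n M adj ((outG M adj)^[i] S)) else 0) + ind adj ((outG M adj)^[m] S) := by
  induction m with
  | zero => simp
  | succ m ih =>
    rw [ih, sum_range_succ, Function.iterate_succ_apply']
    set T := (outG M adj)^[m] S with hT
    have hTS : T ⊆ range n := (iterate_outG_subset S m).trans hS
    by_cases h : anyG n M adj T = true
    · rw [if_pos h]
      obtain ⟨v, hv⟩ := exists_chosenG ((anyG_iff hTS).1 h)
      have hvT := heavyG_mem (chosenG_heavy hv)
      rw [ind_erase hs hl hvT, outG_eq hv, inG_eq (mem_range.1 (hTS hvT)) hv]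
      ring
    · rw [if_neg h]
      have h' : ∀ u, heavyG M adj T u = false := by
        intro u
        by_contra hu
        rw [Bool.not_eq_false] at hu
        exact h ((anyG_iff hTS).2 ⟨u, hu⟩)
      rw [outG_eq_self h']
      ring

/-- After `n` exclusions there is no heavy vertex. -/
theorem iterate_lightG {S : Finset ℕ} (hS : S ⊆ range n) (u : ℕ) :
    heavyG M adj ((outG M adj)^[n] S) u = false := by
  have key : ∀ m, (∀ u, heavyG M adj ((outG M adj)^[m] S) u = false) ∨
      ((outG M adj)^[m] S).card + m ≤ n := by
    intro m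
    induction m with
    | zero =>
      right
      simpa using card_le_card hS
    | succ m ih =>
      rw [Function.iterate_succ_apply']
      set T := (outG M adj)^[m] S with hT
      by_cases h : ∀ u, heavyG M adj T u = false
      · left
        rw [outG_eq_self h]
        exact h
      · right
        have h2 := ih.resolve_left h
        push Not at h
        obtain ⟨v, hv⟩ := exists_chosenG (M := M) (adj := adj) (S := T)
          (by
            obtain ⟨x, hx⟩ := h
            exact ⟨x, by simpa using hx⟩)
        have hvT := heavyG_mem (chosenG_heavy hv)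
        rw [outG_eq hv, card_erase_of_mem hvT]
        have := card_pos.2 ⟨v, hvT⟩
        omega
  rcases key n with h | h
  · exact h u
  · by_contra hu
    rw [Bool.not_eq_false] at hu
    have := card_pos.2 ⟨u, heavyG_mem hu⟩
    omega

theorem heavyG_lt {S : Finset ℕ} {v : ℕ} (h : heavyG M adj S v = true) :
    M < 20 * dg adj S v := by
  unfold heavyG at h
  simp only [Bool.and_eq_true, decide_eq_true_eq] at h
  exact h.2

theorem light_le {S : Finset ℕ} (h : ∀ u, heavyG M adj S u = false) {u : ℕ} (hu : u ∈ S) :
    20 * dg adj S u ≤ M := by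
  have h1 := h u
  unfold heavyG at h1
  rw [Bool.and_eq_false_iff, decide_eq_false_iff_not, decide_eq_false_iff_not] at h1
  rcases h1 with h1 | h1
  · exact absurd hu h1
  · omega

end Pool.Agent.Lib.Pa7c826g
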