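import Pool.Agent.Lib.Pa7c826g.LeafPoly
import Pool.Agent.Lib.Pa7c826.Transfer

/-!
The branching steps run in polynomial time, for any polynomial time adjacency function `A`.

PROOFS. All as in `Pa7c826/AlgoPoly.lean` (`poly_heavy`, `poly_chosen`, `poly_anyHeavy`, `poly_outS`,
`poly_inS`, `poly_iterOut`), with the test `n ≤ g * dg` replaced by `M < 20 * dg`
(`PolyB.lt hM ((PolyN.const 20).mul (poly_dgA hA hw hS hv))`), `poly_adj` by `hA` and with the extra
unary parameter `M` (lift it with `upN`). See `Pa7c826g/LeafPoly.lean` for the same translation.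
-/

namespace Pool.Agent.Lib.Pa7c826g

open Pool.Agent.Lib.PolyTime Pool.Agent.Lib.Pa7c826

variable {α : Type} {D : α → Prop} {ctx : List (α → List Bool)} {w : α → List Bool}
  {S : α → Finset ℕ} {u v M : α → ℕ} {A : List Bool → ℕ → ℕ → Bool}

theorem poly_heavyG (hA : PolyAdj A) (hw : PolyC D ctx w) (hM : PolyN D ctx M)
    (hS : PolyS D ctx (fun a => nOf (w a)) S) (hv : PolyN D ctx v) :
    PolyB D ctx (fun a => heavyG (M a) (A (w a)) (S a) (v a)) :=
  (hS.mem hv).and (PolyB.lt hM ((PolyN.const 20).mul (poly_dgA hA hw hS hv)))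

theorem poly_chosenG (hA : PolyAdj A) (hw : PolyC D ctx w) (hM : PolyN D ctx M)
    (hS : PolyS D ctx (fun a => nOf (w a)) S) (hv : PolyN D ctx v) :
    PolyB D ctx (fun a => chosenG (M a) (A (w a)) (S a) (v a)) := by
  have W := up (n := v) hw
  have MM := upN (n := v) hM
  have SS := hS.up (m := v)
  have L := last (D := D) (ctx := ctx) (n := v)
  exact (poly_heavyG hA hw hM hS hv).and (PolyB.exists_lt
    (φ := fun p : α × ℕ => heavyG (M p.1) (A (w p.1)) (S p.1) p.2) hv
    (poly_heavyG hA W MM SS L)).not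

theorem poly_anyG (hA : PolyAdj A) (hw : PolyC D ctx w) (hM : PolyN D ctx M)
    (hS : PolyS D ctx (fun a => nOf (w a)) S) :
    PolyB D ctx (fun a => anyG (nOf (w a)) (M a) (A (w a)) (S a)) := by
  have W := up (n := fun a => nOf (w a)) hw
  have MM := upN (n := fun a => nOf (w a)) hM
  have SS := hS.up (m := fun a => nOf (w a))
  have L := last (D := D) (ctx := ctx) (n := fun a => nOf (w a))
  exact PolyB.exists_lt (φ := fun p : α × ℕ => heavyG (M p.1) (A (w p.1)) (S p.1) p.2)
    (poly_nOf hw) (poly_heavyG hA W MM SS L)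

theorem poly_outG (hA : PolyAdj A) (hw : PolyC D ctx w) (hM : PolyN D ctx M)
    (hS : PolyS D ctx (fun a => nOf (w a)) S) :
    PolyS D ctx (fun a => nOf (w a)) (fun a => outG (M a) (A (w a)) (S a)) := by
  have W := up (n := fun a => nOf (w a)) hw
  have MM := upN (n := fun a => nOf (w a)) hM
  have SS := hS.up (m := fun a => nOf (w a))
  have L := last (D := D) (ctx := ctx) (n := fun a => nOf (w a))
  have C := poly_chosenG hA W MM SS L
  refine (PolyS.filter (φ := fun p : α × ℕ =>
    !chosenG (M p.1) (A (w p.1)) (S p.1) p.2)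
    (poly_nOf hw) hS C.not).congr (fun a _ => ?_)
  unfold outG
  refine Finset.filter_congr fun i _ => ?_
  simp

theorem poly_inG (hA : PolyAdj A) (hw : PolyC D ctx w) (hM : PolyN D ctx M)
    (hS : PolyS D ctx (fun a => nOf (w a)) S) :
    PolyS D ctx (fun a => nOf (w a)) (fun a => inG (nOf (w a)) (M a) (A (w a)) (S a)) := by
  have W := up (n := fun a => nOf (w a)) hw
  have MM := upN (n := fun a => nOf (w a)) hM
  have SS := hS.up (m := fun a => nOf (w a))
  have L := last (D := D) (ctx := ctx) (n := fun a => nOf (w a))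
  have W2 := up (n := fun p : α × ℕ => nOf (w p.1)) W
  have MM2 := upN (n := fun p : α × ℕ => nOf (w p.1)) MM
  have SS2 := SS.up (m := fun p : α × ℕ => nOf (w p.1))
  have L1 := upN (n := fun p : α × ℕ => nOf (w p.1)) L
  have L2 := last (D := fun p : α × ℕ => D p.1 ∧ p.2 < nOf (w p.1))
    (ctx := PolyTime.lift ctx ++ [fun p : α × ℕ => un p.2])
    (n := fun p : α × ℕ => nOf (w p.1))
  have C := poly_chosenG hA W MM SS L
  have C2 := poly_chosenG hA W2 MM2 SS2 L2
  have A2 := hA W2 L2 L1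
  refine PolyS.filter (φ := fun p : α × ℕ =>
    (!chosenG (M p.1) (A (w p.1)) (S p.1) p.2 &&
    !decide (∃ v < nOf (w p.1), (chosenG (M p.1) (A (w p.1)) (S p.1) v &&
      A (w p.1) v p.2) = true))) (poly_nOf hw) hS ?_
  refine C.not.and (PolyB.not ?_)
  exact PolyB.exists_lt (φ := fun q : (α × ℕ) × ℕ =>
    (chosenG (M q.1.1) (A (w q.1.1)) (S q.1.1) q.2 && A (w q.1.1) q.2 q.1.2))
    (poly_nOf W) (C2.and A2)

theorem poly_iterOutG (hA : PolyAdj A) {k : α → ℕ} (hw : PolyC D ctx w) (hM : PolyN D ctx M)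
    (hk : PolyN D ctx k) (hS : PolyS D ctx (fun a => nOf (w a)) S) :
    PolyS D ctx (fun a => nOf (w a)) (fun a => (outG (M a) (A (w a)))^[k a] (S a)) := by
  refine PolyS.iterate (step := fun a => outG (M a) (A (w a))) (poly_nOf hw) hk hS
    (fun a _ T hT => (outG_subset T).trans hT) ?_
  have W := up2 (n := k) (u := fun p : α × ℕ =>
    msk (nOf (w p.1)) ((outG (M p.1) (A (w p.1)))^[p.2] (S p.1))) hw
  have MM : PolyN _ _ _ := up2 (n := k) (u := fun p : α × ℕ =>
    msk (nOf (w p.1)) ((outG (M p.1) (A (w p.1)))^[p.2] (S p.1))) hM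
  have V := state_var (D := D) (ctx := ctx) (w := w) (k := k)
    (T := fun a j => (outG (M a) (A (w a)))^[j] (S a))
    (fun a ha j _ => (iterate_outG_subset _ _).trans (hS.2 a ha))
  exact poly_outG hA W MM V

end Pool.Agent.Lib.Pa7c826g
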