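import Pool.Agent.Lib.Pa7c826g.Branch

/-!
The branching count with leaf function `f` approximates.
-/

namespace Pool.Agent.Lib.Pa7c826g

open Finset Pool.Agent.Lib.Pa7c826

variable {n M : ℕ} {adj : ℕ → ℕ → Bool}

theorem iterate_outG_light {S : Finset ℕ} (h : ∀ u, heavyG M adj S u = false) (i : ℕ) :
    (outG M adj)^[i] S = S := by
  induction i with
  | zero => rfl
  | succ i ih => rw [Function.iterate_succ_apply', ih, outG_eq_self h]

theorem cntG_light (f : Finset ℕ → ℕ) {S : Finset ℕ} (hS : S ⊆ range n)
    (h : ∀ u, heavyG M adj S u = false) (j : ℕ) : cntG n M adj f j S = f S := by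
  induction j with
  | zero => rfl
  | succ j ih =>
    have hany : anyG n M adj S = false := by
      by_contra hcon
      rw [Bool.not_eq_false] at hcon
      obtain ⟨u, hu⟩ := (anyG_iff hS).1 hcon
      rw [h u] at hu
      exact absurd hu (by simp)
    show cntG n M adj f j ((outG M adj)^[n] S) +
      ∑ i ∈ range n, (if anyG n M adj ((outG M adj)^[i] S) then
        cntG n M adj f j (inG n M adj ((outG M adj)^[i] S)) else 0) = f S
    rw [iterate_outG_light h, ih]
    have h0 : ∑ i ∈ range n, (if anyG n M adj ((outG M adj)^[i] S) then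
        cntG n M adj f j (inG n M adj ((outG M adj)^[i] S)) else 0) = 0 := by
      refine sum_eq_zero fun i _ => ?_
      rw [iterate_outG_light h, if_neg (by rw [hany]; simp)]
    rw [h0, add_zero]

theorem cntG_le (hs : ∀ u v, adj u v = adj v u) (hl : ∀ u, adj u u = false)
    {f : Finset ℕ → ℕ} (h1 : ∀ S, S ⊆ range n → f S ≤ ind adj S) (j : ℕ) :
    ∀ S, S ⊆ range n → cntG n M adj f j S ≤ ind adj S := by
  induction j with
  | zero => exact h1
  | succ j ih =>
    intro S hS
    rw [ind_pathG (M := M) hs hl hS n]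
    show cntG n M adj f j ((outG M adj)^[n] S) +
      ∑ i ∈ range n, (if anyG n M adj ((outG M adj)^[i] S) then
        cntG n M adj f j (inG n M adj ((outG M adj)^[i] S)) else 0) ≤ _
    rw [add_comm]
    refine Nat.add_le_add (sum_le_sum fun i _ => ?_) (ih _ ((iterate_outG_subset S n).trans hS))
    split_ifs
    · exact ih _ ((inG_subset _).trans ((iterate_outG_subset S i).trans hS))
    · exact le_rfl

theorem cntG_ge (hs : ∀ u v, adj u v = adj v u) (hl : ∀ u, adj u u = false)
    {f : Finset ℕ → ℕ} {δ : ℕ}
    (h2 : ∀ S, S ⊆ range n → (∀ u, heavyG M adj S u = false) → ind adj S ≤ f S + δ) (j : ℕ) :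
    ∀ S, S ⊆ range n →
      ind adj S ≤ cntG n M adj f j S + (n + 1) ^ j * δ + cutG n M adj j S := by
  induction j with
  | zero =>
    intro S _
    show ind adj S ≤ f S + (n + 1) ^ 0 * δ + ind adj S
    exact Nat.le_add_left _ _
  | succ j ih =>
    intro S hS
    rw [ind_pathG (M := M) hs hl hS n]
    show _ ≤ (cntG n M adj f j ((outG M adj)^[n] S) +
      ∑ i ∈ range n, (if anyG n M adj ((outG M adj)^[i] S) then
        cntG n M adj f j (inG n M adj ((outG M adj)^[i] S)) else 0)) + (n + 1) ^ (j + 1) * δ +
      ∑ i ∈ range n, (if anyG n M adj ((outG M adj)^[i] S) then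
        cutG n M adj j (inG n M adj ((outG M adj)^[i] S)) else 0)
    have hT : (outG M adj)^[n] S ⊆ range n := (iterate_outG_subset S n).trans hS
    have hlight : ∀ u, heavyG M adj ((outG M adj)^[n] S) u = false := iterate_lightG hS
    have e1 : ind adj ((outG M adj)^[n] S) ≤
        cntG n M adj f j ((outG M adj)^[n] S) + (n + 1) ^ j * δ := by
      rw [cntG_light f hT hlight]
      refine (h2 _ hT hlight).trans (Nat.add_le_add_left ?_ _)
      exact Nat.le_mul_of_pos_left _ (pow_pos (Nat.succ_pos n) j)
    have e2 : (∑ i ∈ range n, if anyG n M adj ((outG M adj)^[i] S) then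
        ind adj (inG n M adj ((outG M adj)^[i] S)) else 0) ≤
        (∑ i ∈ range n, (if anyG n M adj ((outG M adj)^[i] S) then
          cntG n M adj f j (inG n M adj ((outG M adj)^[i] S)) else 0)) +
        n * ((n + 1) ^ j * δ) +
        ∑ i ∈ range n, (if anyG n M adj ((outG M adj)^[i] S) then
          cutG n M adj j (inG n M adj ((outG M adj)^[i] S)) else 0) := by
      have e3 : n * ((n + 1) ^ j * δ) = ∑ _i ∈ range n, (n + 1) ^ j * δ := by
        rw [sum_const, card_range, smul_eq_mul]
      rw [e3, ← sum_add_distrib, ← sum_add_distrib]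
      refine sum_le_sum fun i _ => ?_
      split_ifs
      · exact ih _ ((inG_subset _).trans ((iterate_outG_subset S i).trans hS))
      · exact Nat.zero_le _
    have e4 : (n + 1) ^ (j + 1) * δ = n * ((n + 1) ^ j * δ) + (n + 1) ^ j * δ := by
      rw [pow_succ]
      ring
    rw [e4]
    omega

end Pool.Agent.Lib.Pa7c826g
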