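import Pool.Agent.Lib.Pa7c826g.Branch

/-!
The branching count as a sum over codes: the base `n + 2` digits of `τ` code a path in the
branching tree; digit `0`: exclude all further heavy vertices, digit `i + 1`: exclude the first `i`
chosen vertices and include the next one (impossible for `i = n`).

PROOFS.
`pathG_subset`: induction on `j` (`inG_subset`, `iterate_outG_subset`).
`valG_sum`: induction on `j` generalising `S`, after `pathG_shift`: with `B = n + 2`,
`τ = d + B * τ'`, `d < B`: the first digit is `d`, the digits `1, 2, ..` of `τ` are the digits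
`0, 1, ..` of `τ'`, so the path of `τ` from `S` is `S` followed by the path of `τ'` from `stepG S d`
and `valG (j+1) S τ = if okG S d then valG j (stepG S d) τ' else 0`. The sum over
`τ < B^(j+1)` is the double sum over `d < B`, `τ' < B^j` (e.g. `Finset.sum_nbij'` with
`Finset.sum_product'`, or `Finset.sum_range` and `finProdFinEquiv`), `Finset.sum_range_succ'` splits
`d < n + 2` into `d = 0` and `d = i + 1`, `i < n + 1`, and `Finset.sum_range_succ` removes `i = n`,
where `anyG (outG^[n] S)` is false (`iterate_lightG`); this is the recursion of `cntG`.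
`valG_tail`: for `τ < (n+2)^Q` all digits at positions `≥ Q` are `0`, so all later tests are true and
`pathG S τ (Q + i) = (outG^[n])^[i] (pathG S τ Q)`.
`sum_codes_le`: sum over a subset of the codes `τ < (n+2)^J` (`T ≤ (n+2)^J`), `valG_sum`.
`sum_codes_ge`: `valG_tail` and `valG_sum` for the leaf function
`fun S => f ((outG^[n])^[J - Q] S)`; the remaining summands are nonnegative.
-/

namespace Pool.Agent.Lib.Pa7c826g

open Finset Pool.Agent.Lib.Pa7c826

section

variable (n M : ℕ) (adj : ℕ → ℕ → Bool)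

/-- one step of a coded path -/
def stepG (S : Finset ℕ) (d : ℕ) : Finset ℕ :=
  if d = 0 then (outG M adj)^[n] S else inG n M adj ((outG M adj)^[d - 1] S)

/-- the step is possible -/
def okG (S : Finset ℕ) (d : ℕ) : Bool :=
  decide (d = 0) || anyG n M adj ((outG M adj)^[d - 1] S)

/-- the path from `S` coded by `τ` -/
def pathG (S : Finset ℕ) (τ : ℕ) : ℕ → Finset ℕ
  | 0 => S
  | j + 1 => stepG n M adj (pathG S τ j) (τ / (n + 2) ^ j % (n + 2))

/-- the value of the code `τ` after `j` steps -/
def valG (f : Finset ℕ → ℕ) (j : ℕ) (S : Finset ℕ) (τ : ℕ) : ℕ :=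
  if (!decide (∃ i < j, (!okG n M adj (pathG n M adj S τ i) (τ / (n + 2) ^ i % (n + 2))) = true))
  then f (pathG n M adj S τ j) else 0

end

variable {n M : ℕ} {adj : ℕ → ℕ → Bool}

theorem pathG_subset {S : Finset ℕ} (hS : S ⊆ range n) (τ j : ℕ) :
    pathG n M adj S τ j ⊆ range n := by
  induction j with
  | zero => exact hS
  | succ j ih =>
    rw [pathG, stepG]
    split_ifs
    · exact (iterate_outG_subset _ _).trans ih
    · exact (inG_subset _).trans ((iterate_outG_subset _ _).trans ih)

theorem digit_shift (τ j : ℕ) {d : ℕ} (hd : d < n + 2) :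
    (d + (n + 2) * τ) / (n + 2) ^ (j + 1) % (n + 2) = τ / (n + 2) ^ j % (n + 2) := by
  rw [pow_succ', ← Nat.div_div_eq_div_mul, Nat.add_mul_div_left _ _ (by omega),
    Nat.div_eq_of_lt hd, zero_add]

theorem digit_zero (τ : ℕ) {d : ℕ} (hd : d < n + 2) :
    (d + (n + 2) * τ) / (n + 2) ^ 0 % (n + 2) = d := by
  rw [pow_zero, Nat.div_one, Nat.add_mul_mod_self_left, Nat.mod_eq_of_lt hd]

theorem pathG_shift (S : Finset ℕ) {d : ℕ} (hd : d < n + 2) (τ j : ℕ) :
    pathG n M adj S (d + (n + 2) * τ) (j + 1) = pathG n M adj (stepG n M adj S d) τ j := by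
  induction j with
  | zero =>
    rw [pathG, pathG, pathG, digit_zero τ hd]
  | succ j ih =>
    rw [pathG, ih, pathG, digit_shift τ j hd]

theorem valG_shift (f : Finset ℕ → ℕ) (j : ℕ) (S : Finset ℕ) {d : ℕ} (hd : d < n + 2) (τ : ℕ) :
    valG n M adj f (j + 1) S (d + (n + 2) * τ) =
      if okG n M adj S d then valG n M adj f j (stepG n M adj S d) τ else 0 := by
  unfold valG
  rw [pathG_shift S hd]
  have key : (∃ i < j + 1, (!okG n M adj (pathG n M adj S (d + (n + 2) * τ) i)
      ((d + (n + 2) * τ) / (n + 2) ^ i % (n + 2))) = true) ↔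
      (okG n M adj S d = false ∨ ∃ i < j, (!okG n M adj (pathG n M adj (stepG n M adj S d) τ i)
      (τ / (n + 2) ^ i % (n + 2))) = true) := by
    constructor
    · rintro ⟨i, hi, h⟩
      rcases i with _ | i
      · left
        rw [digit_zero τ hd, pathG] at h
        simpa using h
      · right
        rw [pathG_shift S hd, digit_shift τ i hd] at h
        exact ⟨i, by omega, h⟩
    · rintro (h | ⟨i, hi, h⟩)
      · refine ⟨0, by omega, ?_⟩
        rw [digit_zero τ hd, pathG]
        simpa using h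
      · refine ⟨i + 1, by omega, ?_⟩
        rw [pathG_shift S hd, digit_shift τ i hd]
        exact h
  by_cases h1 : okG n M adj S d = true
  · rw [if_pos h1]
    simp only [key, h1]
    simp
  · rw [if_neg h1]
    simp only [key, Bool.eq_false_iff.2 h1]
    simp

theorem sum_range_mul_digits (B K : ℕ) (hB : 0 < B) (g : ℕ → ℕ) :
    ∑ τ ∈ range (B * K), g τ = ∑ d ∈ range B, ∑ τ ∈ range K, g (d + B * τ) := by
  rw [← Finset.sum_product']
  refine Finset.sum_nbij' (fun τ => (τ % B, τ / B)) (fun x => x.1 + B * x.2) ?_ ?_ ?_ ?_ ?_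
  · intro τ hτ
    simp only [mem_product, mem_range] at hτ ⊢
    exact ⟨Nat.mod_lt _ hB, Nat.div_lt_of_lt_mul hτ⟩
  · rintro ⟨d, τ⟩ h
    simp only [mem_product, mem_range] at h ⊢
    calc d + B * τ < B + B * τ := by omega
      _ = B * (τ + 1) := by ring
      _ ≤ B * K := Nat.mul_le_mul_left _ h.2
  · intro τ _
    exact Nat.mod_add_div τ B
  · rintro ⟨d, τ⟩ h
    simp only [mem_product, mem_range] at h ⊢
    rw [Nat.add_mul_mod_self_left, Nat.mod_eq_of_lt h.1, Nat.add_mul_div_left _ _ hB,
      Nat.div_eq_of_lt h.1, zero_add]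
  · intro τ _
    show g τ = g (τ % B + B * (τ / B))
    rw [Nat.mod_add_div τ B]

theorem valG_sum (f : Finset ℕ → ℕ) (j : ℕ) {S : Finset ℕ} (hS : S ⊆ range n) :
    ∑ τ ∈ range ((n + 2) ^ j), valG n M adj f j S τ = cntG n M adj f j S := by
  induction j generalizing S with
  | zero =>
    simp [valG, cntG, pathG]
  | succ j ih =>
    have hsub : ∀ d, stepG n M adj S d ⊆ range n := by
      intro d
      unfold stepG
      split_ifs
      · exact (iterate_outG_subset _ _).trans hS
      · exact (inG_subset _).trans ((iterate_outG_subset _ _).trans hS)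
    rw [pow_succ', sum_range_mul_digits _ _ (by omega)]
    have h1 : ∀ d ∈ range (n + 2), ∑ τ ∈ range ((n + 2) ^ j),
        valG n M adj f (j + 1) S (d + (n + 2) * τ) =
        if okG n M adj S d then cntG n M adj f j (stepG n M adj S d) else 0 := by
      intro d hd
      rw [mem_range] at hd
      rw [Finset.sum_congr rfl fun τ _ => valG_shift f j S hd τ]
      split_ifs with h
      · exact ih (hsub d)
      · simp
    rw [Finset.sum_congr rfl h1, Finset.sum_range_succ', Finset.sum_range_succ, cntG]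
    have h2 : anyG n M adj ((outG M adj)^[n] S) = false := by
      rw [Bool.eq_false_iff]
      intro h
      obtain ⟨u, hu⟩ := (anyG_iff ((iterate_outG_subset _ _).trans hS)).1 h
      rw [iterate_lightG hS u] at hu
      exact absurd hu (by simp)
    simp [okG, stepG, h2, add_comm]

theorem digit_tail {Q : ℕ} (i : ℕ) {τ : ℕ} (hτ : τ < (n + 2) ^ Q) :
    τ / (n + 2) ^ (Q + i) % (n + 2) = 0 := by
  rw [Nat.div_eq_of_lt (hτ.trans_le (Nat.pow_le_pow_right (by omega) (by omega))), Nat.zero_mod]

theorem pathG_tail (Q i : ℕ) (S : Finset ℕ) {τ : ℕ} (hτ : τ < (n + 2) ^ Q) :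
    pathG n M adj S τ (Q + i) = ((outG M adj)^[n])^[i] (pathG n M adj S τ Q) := by
  induction i with
  | zero => rfl
  | succ i ih =>
    rw [← Nat.add_assoc, pathG, digit_tail i hτ, stepG, if_pos rfl, ih,
      Function.iterate_succ_apply']

theorem valG_tail (f : Finset ℕ → ℕ) (Q i : ℕ) (S : Finset ℕ) {τ : ℕ} (hτ : τ < (n + 2) ^ Q) :
    valG n M adj f (Q + i) S τ =
      valG n M adj (fun T => f (((outG M adj)^[n])^[i] T)) Q S τ := by
  unfold valG
  rw [pathG_tail Q i S hτ]
  have key : (∃ k < Q + i, (!okG n M adj (pathG n M adj S τ k)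
      (τ / (n + 2) ^ k % (n + 2))) = true) ↔
      (∃ k < Q, (!okG n M adj (pathG n M adj S τ k) (τ / (n + 2) ^ k % (n + 2))) = true) := by
    constructor
    · rintro ⟨k, hk, h⟩
      by_cases hkQ : k < Q
      · exact ⟨k, hkQ, h⟩
      · exfalso
        obtain ⟨l, rfl⟩ := Nat.exists_eq_add_of_le (not_lt.1 hkQ)
        rw [digit_tail l hτ] at h
        simp [okG] at h
    · rintro ⟨k, hk, h⟩
      exact ⟨k, by omega, h⟩
  simp only [key]

theorem sum_codes_le (f : Finset ℕ → ℕ) {J T : ℕ} (hT : T ≤ (n + 2) ^ J) {S : Finset ℕ}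
    (hS : S ⊆ range n) : ∑ τ ∈ range T, valG n M adj f J S τ ≤ cntG n M adj f J S := by
  rw [← valG_sum f J hS]
  exact Finset.sum_le_sum_of_subset (range_subset_range.2 hT)

theorem sum_codes_ge (f : Finset ℕ → ℕ) {J Q T : ℕ} (hQ : Q ≤ J) (hT : (n + 2) ^ Q ≤ T)
    {S : Finset ℕ} (hS : S ⊆ range n) :
    cntG n M adj (fun T => f (((outG M adj)^[n])^[J - Q] T)) Q S ≤
      ∑ τ ∈ range T, valG n M adj f J S τ := by
  rw [← valG_sum _ Q hS]
  refine le_trans (le_of_eq ?_) (Finset.sum_le_sum_of_subset (range_subset_range.2 hT))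
  refine Finset.sum_congr rfl fun τ hτ => ?_
  rw [mem_range] at hτ
  rw [← valG_tail f Q (J - Q) S hτ, Nat.add_sub_cancel' hQ]

end Pool.Agent.Lib.Pa7c826g
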