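import Pool.Agent.Lib.Pa7c826.Scheme

/-!
Bipartite graphs with a gap between the degrees of the two sides.
-/

namespace Pool.Agent.Lib.Pa7c826g

open Pool.Agent.Lib.Pa7c826

/-- Bipartite graphs on `n = a + b` vertices such that for some `D ≥ n ^ δ` all degrees on one side
are at most `D` and all degrees on the other side are at least `D + γ log₂ n`. -/
def DegreeGap (δ γ : ℝ) (G : BGraph) : Prop :=
  ∃ D : ℕ, ((G.a + G.b : ℕ) : ℝ) ^ δ ≤ D ∧
    (((∀ j, G.colDeg j ≤ D) ∧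
        ∀ i, (D : ℝ) + γ * Real.logb 2 (G.a + G.b : ℕ) ≤ G.rowDeg i) ∨
      ((∀ i, G.rowDeg i ≤ D) ∧
        ∀ j, (D : ℝ) + γ * Real.logb 2 (G.a + G.b : ℕ) ≤ G.colDeg j))

end Pool.Agent.Lib.Pa7c826g
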