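import Pool.Agent.Lib.Pa7c826g.Alg
import Pool.Agent.Lib.Pa7c826g.Defs

/-!
The FPTAS above the threshold.

PROOFS.
`gap_numeric`: choose `k ≥ 1` with `1 ≤ k (γ + δ - 1)` and `1 ≤ k γ`. `2 ^ (k (M - D)) ≥ n ^ (k γ)`,
`D ^ k ≥ n ^ (k δ)` (real powers; `Real.rpow_logb`, `Real.rpow_le_rpow_of_exponent_le`), so
`D ^ k 2 ^ (k M) ≥ n ^ (k (γ + δ)) 2 ^ (k D) ≥ n ^ (k + 1) 2 ^ (k D)`. `D ≤ M` since `γ ≥ 0`,
`logb 2 n ≥ 0`.
`algoG_spec`: let `w = inCode G t`, `n = G.a + G.b` (`nOf_inCode` etc.). If the graph has no edges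
(`adjO w u v = false` for all `u v`) use `approx_trivial`. This is so if `n ≤ 1`, `G.a = 0` or
`G.b = 0`. Otherwise `G.a, G.b ≥ 1`, `n ≥ 2`. First alternative of the class: all left degrees are
`≥ D + γ log₂ n ≥ D ≥` all right degrees, so `flagG w = true` (`dg_row`, `dg_col` of
`Pa7c826/Fptas.lean`); `adjO w = adjOf w`, `sideN w = G.a`. Second alternative: `flagG w = false` since
the left vertex `0` has degree `≤ D < D + γ log₂ n ≤` the degree of the right vertex `0`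
(`γ > 0`, `n ≥ 2`); `adjO w = adjR w`, `sideN w = G.b`, degrees by `dg_rev`, `ind` by `ind_rev`. In
both cases apply `approx_gap` with `p u := u < sideN w`, the `D` of the class and `M = minDegG w`:
`hM` is `minDeg_le`; `hD` the upper bound for the other side; and `D + γ log₂ n ≤ M` as a real number:
`le_minDeg` with `M' = ⌈D + γ log₂ n⌉₊`, which is at most every degree of the first side and so at most
`n`. `1 ≤ D` since `1 ≤ n ^ δ ≤ D` (`δ ≥ 0`). `ind_eq_numIndep` (`Pa7c826/Decode.lean`).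
`easy_gap`: as `hasFPTAS_of_superSat` in `Pa7c826/Fptas.lean`, with `algoG_poly`, `algoG_spec`.
-/

namespace Pool.Agent.Lib.Pa7c826g

open Finset Pool.Agent.Lib.PolyTime Pool.Agent.Lib.Pa7c826

theorem gap_numeric {δ γ : ℝ} (h0 : 0 ≤ δ) (h1 : δ < 1) (h : 1 - δ < γ) :
    ∃ k : ℕ, 1 ≤ k ∧ ∀ n D M : ℕ, 2 ≤ n → (n : ℝ) ^ δ ≤ D →
      (D : ℝ) + γ * Real.logb 2 n ≤ M →
      n ^ (k + 1) * 2 ^ (k * D) ≤ D ^ k * 2 ^ (k * M) ∧ n ≤ 2 ^ (k * M) ∧ D ≤ M := by
  have hγ : 0 < γ := by linarith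
  have he : 0 < γ + δ - 1 := by linarith
  obtain ⟨k1, hk1⟩ := exists_nat_ge (1 / (γ + δ - 1))
  obtain ⟨k2, hk2⟩ := exists_nat_ge (1 / γ)
  rw [div_le_iff₀ he] at hk1
  rw [div_le_iff₀ hγ] at hk2
  refine ⟨max (max k1 k2) 1, le_max_right _ _, ?_⟩
  set k := max (max k1 k2) 1 with hk
  have hkk1 : (k1 : ℝ) ≤ k := by exact_mod_cast (le_max_left _ _).trans (le_max_left _ _)
  have hkk2 : (k2 : ℝ) ≤ k := by exact_mod_cast (le_max_right _ _).trans (le_max_left _ _)
  have e1 : 1 ≤ (k : ℝ) * (γ + δ - 1) :=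
    hk1.trans (mul_le_mul_of_nonneg_right hkk1 he.le)
  have e2 : 1 ≤ (k : ℝ) * γ := hk2.trans (mul_le_mul_of_nonneg_right hkk2 hγ.le)
  intro n D M hn hD hM
  have hnR : (2 : ℝ) ≤ n := by exact_mod_cast hn
  have hn0 : (0 : ℝ) < n := by linarith
  have hn1 : (1 : ℝ) ≤ n := by linarith
  set L : ℝ := Real.logb 2 n with hL
  have hL0 : 0 ≤ L := Real.logb_nonneg (by norm_num) hn1
  have h2L : (2 : ℝ) ^ L = n := Real.rpow_logb (by norm_num) (by norm_num) hn0
  have hk0 : (0 : ℝ) ≤ k := Nat.cast_nonneg k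
  have hA : (2 : ℝ) ^ (k * D) * (n : ℝ) ^ ((k : ℝ) * γ) ≤ (2 : ℝ) ^ (k * M) := by
    rw [← h2L, ← Real.rpow_mul (by norm_num), ← Real.rpow_natCast, ← Real.rpow_natCast,
      ← Real.rpow_add (by norm_num)]
    apply Real.rpow_le_rpow_of_exponent_le (by norm_num)
    push_cast
    have h5 := mul_le_mul_of_nonneg_left hM hk0
    calc (k : ℝ) * D + L * (k * γ) = k * (D + γ * L) := by ring
      _ ≤ k * M := h5
  have hB : (n : ℝ) ^ ((k : ℝ) * δ) ≤ (D : ℝ) ^ k := by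
    rw [mul_comm, Real.rpow_mul hn0.le, Real.rpow_natCast]
    exact pow_le_pow_left₀ (Real.rpow_nonneg hn0.le _) hD k
  refine ⟨?_, ?_, ?_⟩
  · have h6 : (n : ℝ) ^ (k + 1) ≤ (n : ℝ) ^ ((k : ℝ) * δ) * (n : ℝ) ^ ((k : ℝ) * γ) := by
      rw [← Real.rpow_add hn0, ← Real.rpow_natCast]
      apply Real.rpow_le_rpow_of_exponent_le hn1
      push_cast
      nlinarith
    have h7 : (n : ℝ) ^ (k + 1) * 2 ^ (k * D) ≤ (D : ℝ) ^ k * 2 ^ (k * M) := by
      calc (n : ℝ) ^ (k + 1) * 2 ^ (k * D)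
          ≤ (n : ℝ) ^ ((k : ℝ) * δ) * (n : ℝ) ^ ((k : ℝ) * γ) * 2 ^ (k * D) :=
            mul_le_mul_of_nonneg_right h6 (by positivity)
        _ = (n : ℝ) ^ ((k : ℝ) * δ) * (2 ^ (k * D) * (n : ℝ) ^ ((k : ℝ) * γ)) := by ring
        _ ≤ (D : ℝ) ^ k * 2 ^ (k * M) :=
            mul_le_mul hB hA (by positivity) (by positivity)
    exact_mod_cast h7
  · have h8 : (n : ℝ) ≤ (n : ℝ) ^ ((k : ℝ) * γ) := by
      calc (n : ℝ) = (n : ℝ) ^ (1 : ℝ) := (Real.rpow_one _).symm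
        _ ≤ _ := Real.rpow_le_rpow_of_exponent_le hn1 e2
    have h9 : (1 : ℝ) ≤ (2 : ℝ) ^ (k * D) := one_le_pow₀ (by norm_num)
    have h10 : (n : ℝ) ≤ (2 : ℝ) ^ (k * M) := by
      calc (n : ℝ) = 1 * n := (one_mul _).symm
        _ ≤ (2 : ℝ) ^ (k * D) * (n : ℝ) ^ ((k : ℝ) * γ) :=
            mul_le_mul h9 h8 hn0.le (by positivity)
        _ ≤ _ := hA
    exact_mod_cast h10
  · have h11 : (D : ℝ) ≤ M := by
      have : 0 ≤ γ * L := mul_nonneg hγ.le hL0
      linarith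
    exact_mod_cast h11

theorem spec_side {δ γ : ℝ} {k : ℕ} (hk : 1 ≤ k)
    (hnum : ∀ n D M : ℕ, 2 ≤ n → (n : ℝ) ^ δ ≤ D → (D : ℝ) + γ * Real.logb 2 n ≤ M →
      n ^ (k + 1) * 2 ^ (k * D) ≤ D ^ k * 2 ^ (k * M) ∧ n ≤ 2 ^ (k * M) ∧ D ≤ M)
    (w : List Bool) {t : ℕ} (ht : 1 ≤ t) {D : ℕ} (hn : 2 ≤ nOf w)
    (hDn : ((nOf w : ℕ) : ℝ) ^ δ ≤ D) (hD1 : 1 ≤ D) (hside : 0 < sideN w)
    (hs : ∀ u v, adjO w u v = adjO w v u) (hl : ∀ u, adjO w u u = false)
    (hbip : ∀ u v, adjO w u v = true → v < nOf w ∧ (u < sideN w ↔ ¬ v < sideN w))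
    (hhi : ∀ u < sideN w, (D : ℝ) + γ * Real.logb 2 (nOf w : ℕ) ≤
      (dg (adjO w) (range (nOf w)) u : ℕ))
    (hlo : ∀ v < nOf w, ¬ v < sideN w → dg (adjO w) (range (nOf w)) v ≤ D) :
    outVal0 k (nOf w) t (minDegG w) (adjO w) ≤ ind (adjO w) (range (nOf w)) ∧
      t * ind (adjO w) (range (nOf w)) ≤
        t * outVal0 k (nOf w) t (minDegG w) (adjO w) + ind (adjO w) (range (nOf w)) := by
  have hM1 : ∀ u < sideN w, ⌈(D : ℝ) + γ * Real.logb 2 (nOf w : ℕ)⌉₊ ≤
      dg (adjO w) (range (nOf w)) u := fun u hu => Nat.ceil_le.2 (hhi u hu)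
  have hM2 : ⌈(D : ℝ) + γ * Real.logb 2 (nOf w : ℕ)⌉₊ ≤ nOf w := by
    refine (hM1 0 hside).trans ?_
    unfold dg
    refine (card_filter_le _ _).trans ?_
    rw [card_range]
  have hM3 := le_minDeg hM2 hM1
  have hM4 : (D : ℝ) + γ * Real.logb 2 (nOf w : ℕ) ≤ (minDegG w : ℕ) :=
    (Nat.le_ceil _).trans (by exact_mod_cast hM3)
  obtain ⟨e1, e2, e3⟩ := hnum (nOf w) D (minDegG w) hn hDn hM4
  exact approx_gap (p := fun u => u < sideN w) hs hl (fun u v hu hv => by omega) hbip hD1 e3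
    (fun u _ hu => minDeg_le hu) (fun v hv hv' => hlo v hv hv') hn hk ht e1 e2

theorem adjO_of_flag {w : List Bool} (h : flagG w = true) : adjO w = adjOf w := by
  funext u v
  unfold adjO
  rw [h]
  simp

theorem adjO_of_not_flag {w : List Bool} (h : flagG w = false) : adjO w = adjR w := by
  funext u v
  unfold adjO
  rw [h]
  simp

theorem ind_adjO (w : List Bool) :
    ind (adjO w) (range (nOf w)) = ind (adjOf w) (range (nOf w)) := by
  rcases Bool.eq_false_or_eq_true (flagG w) with h | h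
  · rw [adjO_of_flag h]
  · rw [adjO_of_not_flag h, ind_rev]

theorem algoG_spec {δ γ : ℝ} (h0 : 0 ≤ δ) (h1 : δ < 1) (h : 1 - δ < γ) {k : ℕ} (hk : 1 ≤ k)
    (hnum : ∀ n D M : ℕ, 2 ≤ n → (n : ℝ) ^ δ ≤ D → (D : ℝ) + γ * Real.logb 2 n ≤ M →
      n ^ (k + 1) * 2 ^ (k * D) ≤ D ^ k * 2 ^ (k * M) ∧ n ≤ 2 ^ (k * M) ∧ D ≤ M)
    (G : BGraph) (hG : DegreeGap δ γ G) {t : ℕ} (ht : 1 ≤ t) :
    algoG k (inCode G t) ≤ numIndep G.graph ∧
      t * numIndep G.graph ≤ t * algoG k (inCode G t) + numIndep G.graph := by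
  have hγ : 0 < γ := by linarith
  have hnw : nOf (inCode G t) = G.a + G.b := nOf_inCode G t
  have hind : ind (adjO (inCode G t)) (range (nOf (inCode G t))) = numIndep G.graph := by
    rw [ind_adjO, hnw, ind_eq_numIndep]
  have hr : ∀ u (hu : u < G.a), dg (adjOf (inCode G t)) (range (nOf (inCode G t))) u =
      G.rowDeg ⟨u, hu⟩ := by
    intro u hu
    rw [hnw]
    exact dg_row G t ⟨u, hu⟩
  have hc : ∀ j (hj : j < G.b), dg (adjOf (inCode G t)) (range (nOf (inCode G t))) (G.a + j) =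
      G.colDeg ⟨j, hj⟩ := by
    intro j hj
    rw [hnw]
    exact dg_col G t ⟨j, hj⟩
  unfold algoG
  rw [tOf_inCode, ← hind]
  by_cases hab : G.a = 0 ∨ G.b = 0
  · apply approx_trivial _ ht
    have h2 : ∀ u v, adjOf (inCode G t) u v = false := by
      intro u v
      by_contra hcon
      rw [Bool.not_eq_false] at hcon
      have h3 := adjOf_bip hcon
      rw [aOf_inCode, bOf_inCode] at h3
      omega
    intro u v
    rcases Bool.eq_false_or_eq_true (flagG (inCode G t)) with hf | hf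
    · rw [adjO_of_flag hf, h2]
    · rw [adjO_of_not_flag hf]
      unfold adjR
      rw [h2, Bool.and_false]
  have ha : 0 < G.a := by omega
  have hb : 0 < G.b := by omega
  have hn : 2 ≤ nOf (inCode G t) := by omega
  obtain ⟨D, hDn, hcase⟩ := hG
  have hn1 : (1 : ℝ) ≤ ((G.a + G.b : ℕ) : ℝ) := by
    have : 1 ≤ G.a + G.b := by omega
    exact_mod_cast this
  have hn2 : (1 : ℝ) < ((G.a + G.b : ℕ) : ℝ) := by
    have : 1 < G.a + G.b := by omega
    exact_mod_cast this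
  have hD1 : 1 ≤ D := by
    have h2 : (1 : ℝ) ≤ D := (Real.one_le_rpow hn1 h0).trans hDn
    exact_mod_cast h2
  have hlog : 0 < γ * Real.logb 2 (G.a + G.b : ℕ) :=
    mul_pos hγ (Real.logb_pos (by norm_num) hn2)
  rcases hcase with ⟨hcol, hrow⟩ | ⟨hrow, hcol⟩
  · have hrowD : ∀ i, D ≤ G.rowDeg i := by
      intro i
      have h2 : (D : ℝ) ≤ G.rowDeg i := by
        have := hrow i
        linarith
      exact_mod_cast h2
    have hf : flagG (inCode G t) = true := by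
      unfold flagG
      rw [Bool.not_eq_true', decide_eq_false_iff_not]
      rintro ⟨u, hu, hu2⟩
      rw [decide_eq_true_eq] at hu2
      obtain ⟨j, hj, hj2⟩ := hu2
      rw [decide_eq_true_eq, aOf_inCode] at hj2
      rw [aOf_inCode] at hu
      rw [bOf_inCode] at hj
      rw [hr u hu, hc j hj] at hj2
      have := hrowD ⟨u, hu⟩
      have := hcol ⟨j, hj⟩
      omega
    have hadj := adjO_of_flag hf
    have hside : sideN (inCode G t) = G.a := by
      unfold sideN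
      rw [if_pos hf, aOf_inCode]
    apply spec_side hk hnum (inCode G t) ht hn (by rw [hnw]; exact hDn) hD1
      (by rw [hside]; exact ha)
    · rw [hadj]; exact adjOf_symm _
    · rw [hadj]; exact adjOf_self _
    · intro u v huv
      rw [hadj] at huv
      have h3 := adjOf_bip huv
      rw [aOf_inCode, bOf_inCode] at h3
      rw [hside, hnw]
      omega
    · intro u hu
      rw [hside] at hu
      rw [hadj, hr u hu, hnw]
      exact hrow ⟨u, hu⟩
    · intro v hv hv2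
      rw [hside] at hv2
      rw [hnw] at hv
      have h3 : v = G.a + (v - G.a) := by omega
      rw [hadj, h3, hc (v - G.a) (by omega)]
      exact hcol _
  · have hf : flagG (inCode G t) = false := by
      unfold flagG
      rw [Bool.not_eq_false', decide_eq_true_eq]
      refine ⟨0, by rw [aOf_inCode]; exact ha, ?_⟩
      rw [decide_eq_true_eq]
      refine ⟨0, by rw [bOf_inCode]; exact hb, ?_⟩
      rw [decide_eq_true_eq, aOf_inCode, hr 0 ha, hc 0 hb]
      have h2 : ((G.rowDeg ⟨0, ha⟩ : ℕ) : ℝ) < (G.colDeg ⟨0, hb⟩ : ℕ) := by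
        have h3 := hcol ⟨0, hb⟩
        have h4 : ((G.rowDeg ⟨0, ha⟩ : ℕ) : ℝ) ≤ D := by exact_mod_cast hrow ⟨0, ha⟩
        linarith
      exact_mod_cast h2
    have hadj := adjO_of_not_flag hf
    have hside : sideN (inCode G t) = G.b := by
      unfold sideN
      rw [hf, bOf_inCode]
      simp
    apply spec_side hk hnum (inCode G t) ht hn (by rw [hnw]; exact hDn) hD1
      (by rw [hside]; exact hb)
    · rw [hadj]; exact adjR_symm _
    · rw [hadj]; exact adjR_self _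
    · intro u v huv
      rw [hadj] at huv
      have h3 := adjR_bip huv
      rw [bOf_inCode] at h3
      rw [hside]
      exact h3
    · intro u hu
      rw [hside] at hu
      have hun : u < nOf (inCode G t) := by omega
      have h3 : nOf (inCode G t) - 1 - u = G.a + (G.b - 1 - u) := by omega
      rw [hadj, dg_rev hun, h3, hc (G.b - 1 - u) (by omega), hnw]
      exact hcol _
    · intro v hv hv2
      rw [hside] at hv2
      have h3 : nOf (inCode G t) - 1 - v < G.a := by omega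
      rw [hadj, dg_rev hv, hr _ h3]
      exact hrow _

/-- The deterministic approximation scheme. -/
theorem easy_gap {δ γ : ℝ} (h0 : 0 ≤ δ) (h1 : δ < 1) (h : 1 - δ < γ) :
    HasFPTAS (DegreeGap δ γ) := by
  obtain ⟨k, hk, hnum⟩ := gap_numeric h0 h1 h
  let D : BGraph × ℕ → Prop := fun x => DegreeGap δ γ x.1 ∧ 1 ≤ x.2
  let enc : BGraph × ℕ → List Bool := fun x => inCode x.1 x.2
  have hw : PolyC D [enc] enc := PolyC.var (by simp)
  obtain ⟨u, hu, hval⟩ := algoG_poly k hw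
  have hout : PolyC D [enc] (fun x => false :: u x) := PolyC.cons false hu
  refine ⟨fun x => false :: u x.1, PolyC.toTM2 enc (fun x => false :: u x) id hout, ?_⟩
  rintro ⟨⟨G, t⟩, hG, ht⟩
  have hG' : DegreeGap δ γ G := hG
  have ht' : 1 ≤ t := ht
  have h1 := algoG_spec h0 h1 h hk hnum G hG' ht'
  have h2 : binVal (u (G, t)) = algoG k (inCode G t) := by
    rw [binVal_eq_bval]
    exact hval (G, t) ⟨hG, ht⟩
  unfold Good
  simp only [outVal, h2]
  have htq : (0 : ℚ) < t := by exact_mod_cast ht'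
  have h3 : (algoG k (inCode G t) : ℚ) ≤ numIndep G.graph := by exact_mod_cast h1.1
  have h4 : (t : ℚ) * numIndep G.graph ≤ t * algoG k (inCode G t) + numIndep G.graph := by
    exact_mod_cast h1.2
  rw [abs_sub_comm, abs_of_nonneg (by linarith), le_div_iff₀ htq]
  linarith

end Pool.Agent.Lib.Pa7c826g
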