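import Mathlib

/-!
A Finner (Hölder) inequality for random subsets.

PROOF.
`two_point`: put `z i = 1 - q + q y i > 0`. Pad with ones: the weights are `1 / D` for `i ∈ J` and
`(D - |J|) / D` for the constant `1`. Weighted AM-GM gives
`∏ (1 / z i) ^ (1/D) ≤ (∑ 1 / z i) / D + (D - |J|) / D` and
`∏ (y i / z i) ^ (1/D) ≤ (∑ y i / z i) / D + (D - |J|) / D`; multiply by `1 - q` and `q`, add:
the right sides add up to `1`. (Induction on `J` via two-function Hölder is also possible. One way
to do the AM-GM step: `Real.inner_le_nnorm_mul_nnorm` is not needed; use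
`Real.geom_mean_le_arith_mean_weighted` on `insert none (J.map some)` in `Option ι`, or use
`x ^ (1/D) ≤ ...` and the concavity of `log` : `∑ (1/D) log x_i ≤ log (∑ x_i / D + (D-|J|)/D)`.)

`finner_gap`: induction on `R` (`Finset.induction_on`), for all `c`. Here `y` is the probability that
a point of `R` is NOT in `B`. Step `insert v R`: `Finset.sum_powerset_insert`. Sets `insert v B`:
for `u` with `e u v` the factor is `1`; sets `B`: all factors as before. Put
`J = L.filter (e · v)`. For fixed `B ⊆ R` the two terms are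
`P(B) * ∏_{u ∈ L \ J} f u B * ((1 - y) + y * ∏_{u ∈ J} f u B)` which by `two_point` (`q = y`,
`y i = 1 + (if ... then c i else 0) ≥ 1`) is at most
`P(B) * ∏_{u ∈ L} (1 + if (∀ v ∈ B, ¬ e u v) then c' u else 0) ^ (1/D)`, where `c' u = c u * y` for
`u ∈ J` and `c' u = c u` otherwise. Apply the induction hypothesis to `c'`.
-/

namespace Pool.Agent.Lib.Pa7c826g

open Finset

/-- weighted arithmetic-geometric mean with a constant -/
theorem amgm_pad {ι : Type*} (J : Finset ι) {D : ℕ} (hD : 1 ≤ D) (hJ : J.card ≤ D)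
    (a : ι → ℝ) (ha : ∀ i ∈ J, 0 ≤ a i) :
    ∏ i ∈ J, a i ^ ((1 : ℝ) / D) ≤ (∑ i ∈ J, a i) / D + ((D : ℝ) - J.card) / D := by
  have hD0 : (0 : ℝ) < D := by exact_mod_cast hD
  have hJ' : (J.card : ℝ) ≤ D := by exact_mod_cast hJ
  have h := Real.geom_mean_le_arith_mean_weighted (insertNone J)
    (fun o : Option ι => o.elim (((D : ℝ) - J.card) / D) (fun _ => (1 : ℝ) / D))
    (fun o : Option ι => o.elim 1 a) (by
      intro o _
      cases o with
      | none => exact div_nonneg (by linarith) hD0.le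
      | some i => exact div_nonneg zero_le_one hD0.le) (by
      rw [Finset.sum_insertNone]
      simp only [Option.elim_none, Option.elim_some, Finset.sum_const, nsmul_eq_mul]
      field_simp
      ring) (by
      intro o ho
      cases o with
      | none => exact zero_le_one
      | some i => exact ha i (by simpa using ho))
  rw [Finset.prod_insertNone, Finset.sum_insertNone] at h
  simp only [Option.elim_none, Option.elim_some, Real.one_rpow, one_mul, mul_one] at h
  rw [← Finset.mul_sum] at h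
  calc ∏ i ∈ J, a i ^ ((1 : ℝ) / D) ≤ ((D : ℝ) - J.card) / D + 1 / D * ∑ i ∈ J, a i := h
    _ = _ := by ring

/-- Hölder's inequality on a two point probability space. -/
theorem two_point {ι : Type*} (J : Finset ι) {D : ℕ} (hD : 1 ≤ D) (hJ : J.card ≤ D) {q : ℝ}
    (hq0 : 0 ≤ q) (hq1 : q ≤ 1) (y : ι → ℝ) (hy : ∀ i ∈ J, 1 ≤ y i) :
    (1 - q) + q * ∏ i ∈ J, y i ^ ((1 : ℝ) / D) ≤ ∏ i ∈ J, ((1 - q) + q * y i) ^ ((1 : ℝ) / D) := by
  have hD0 : (0 : ℝ) < D := by exact_mod_cast hD
  have hz : ∀ i ∈ J, 1 ≤ (1 - q) + q * y i := by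
    intro i hi
    have := hy i hi
    nlinarith
  have hz0 : ∀ i ∈ J, 0 < (1 - q) + q * y i := fun i hi => lt_of_lt_of_le one_pos (hz i hi)
  have h1 := amgm_pad J hD hJ (fun i => 1 / ((1 - q) + q * y i))
    (fun i hi => (one_div_pos.2 (hz0 i hi)).le)
  have h2 := amgm_pad J hD hJ (fun i => y i / ((1 - q) + q * y i))
    (fun i hi => div_nonneg (by linarith [hy i hi]) (hz0 i hi).le)
  set Z : ℝ := ∏ i ∈ J, ((1 - q) + q * y i) ^ ((1 : ℝ) / D) with hZ
  have hZ0 : 0 < Z := Finset.prod_pos fun i hi => Real.rpow_pos_of_pos (hz0 i hi) _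
  have e1 : ∏ i ∈ J, (1 / ((1 - q) + q * y i)) ^ ((1 : ℝ) / D) = 1 / Z := by
    rw [hZ, one_div Z, ← Finset.prod_inv_distrib]
    refine Finset.prod_congr rfl fun i hi => ?_
    rw [one_div, Real.inv_rpow (hz0 i hi).le]
  have e2 : ∏ i ∈ J, (y i / ((1 - q) + q * y i)) ^ ((1 : ℝ) / D) =
      (∏ i ∈ J, y i ^ ((1 : ℝ) / D)) / Z := by
    rw [hZ, ← Finset.prod_div_distrib]
    refine Finset.prod_congr rfl fun i hi => ?_
    rw [Real.div_rpow (by linarith [hy i hi]) (hz0 i hi).le]
  rw [e1] at h1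
  rw [e2] at h2
  have h3 : (1 - q) * (∑ i ∈ J, 1 / ((1 - q) + q * y i)) + q * ∑ i ∈ J, y i / ((1 - q) + q * y i) =
      J.card := by
    rw [Finset.mul_sum, Finset.mul_sum, ← Finset.sum_add_distrib]
    rw [Finset.sum_congr rfl (g := fun _ => (1 : ℝ))]
    · simp
    · intro i hi
      have := (hz0 i hi).ne'
      field_simp
  have h4 : (1 - q) * (1 / Z) + q * ((∏ i ∈ J, y i ^ ((1 : ℝ) / D)) / Z) ≤ 1 := by
    calc (1 - q) * (1 / Z) + q * ((∏ i ∈ J, y i ^ ((1 : ℝ) / D)) / Z)
        ≤ (1 - q) * ((∑ i ∈ J, 1 / ((1 - q) + q * y i)) / D + ((D : ℝ) - J.card) / D) +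
          q * ((∑ i ∈ J, y i / ((1 - q) + q * y i)) / D + ((D : ℝ) - J.card) / D) :=
          add_le_add (mul_le_mul_of_nonneg_left h1 (by linarith))
            (mul_le_mul_of_nonneg_left h2 hq0)
      _ = ((1 - q) * (∑ i ∈ J, 1 / ((1 - q) + q * y i)) +
            q * ∑ i ∈ J, y i / ((1 - q) + q * y i)) / D + ((D : ℝ) - J.card) / D := by ring
      _ = 1 := by
          rw [h3]
          field_simp
          ring
  have h5 : ((1 - q) + q * ∏ i ∈ J, y i ^ ((1 : ℝ) / D)) / Z ≤ 1 := by
    refine le_trans (le_of_eq ?_) h4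
    ring
  rwa [div_le_one hZ0] at h5

/-- `e` a relation in which every `v ∈ R` is related to at most `D` elements of `L`; `B` a random
subset of `R`, every element being left out with probability `y`. -/
theorem finner_gap {ι κ : Type*} [DecidableEq ι] [DecidableEq κ] (L : Finset ι) (R : Finset κ)
    (e : ι → κ → Prop) [∀ u v, Decidable (e u v)] {D : ℕ} (hD : 1 ≤ D)
    (hdeg : ∀ v ∈ R, (L.filter (fun u => e u v)).card ≤ D) {y : ℝ} (hy0 : 0 ≤ y) (hy1 : y ≤ 1)
    (c : ι → ℝ) (hc : ∀ u ∈ L, 0 ≤ c u) :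
    ∑ B ∈ R.powerset, (1 - y) ^ B.card * y ^ (R.card - B.card) *
        ∏ u ∈ L, (1 + if (∀ v ∈ B, ¬ e u v) then c u else 0) ^ ((1 : ℝ) / D) ≤
      ∏ u ∈ L, (1 + c u * y ^ (R.filter (fun v => e u v)).card) ^ ((1 : ℝ) / D) := by
  induction R using Finset.induction_on generalizing c with
  | empty => simp
  | insert v R hv ih =>
    have hdegR : ∀ v ∈ R, (L.filter (fun u => e u v)).card ≤ D :=
      fun w hw => hdeg w (Finset.mem_insert_of_mem hw)
    set c' : ι → ℝ := fun u => if e u v then c u * y else c u with hc'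
    have hc'0 : ∀ u ∈ L, 0 ≤ c' u := by
      intro u hu
      rw [hc']
      simp only
      split_ifs
      · exact mul_nonneg (hc u hu) hy0
      · exact hc u hu
    have hih := ih hdegR c' hc'0
    rw [Finset.sum_powerset_insert hv]
    have hR : ∏ u ∈ L, (1 + c' u * y ^ (R.filter (fun v => e u v)).card) ^ ((1 : ℝ) / D) =
        ∏ u ∈ L, (1 + c u * y ^ ((insert v R).filter (fun v => e u v)).card) ^ ((1 : ℝ) / D) := by
      refine Finset.prod_congr rfl fun u _ => ?_
      congr 2
      rw [hc', Finset.filter_insert]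
      simp only
      split_ifs with h
      · rw [Finset.card_insert_of_notMem (by simp [hv]), pow_succ]
        ring
      · rfl
    rw [← hR]
    refine le_trans ?_ hih
    rw [← Finset.sum_add_distrib]
    refine Finset.sum_le_sum fun B hB => ?_
    have hBR : B ⊆ R := Finset.mem_powerset.1 hB
    have hvB : v ∉ B := fun h => hv (hBR h)
    have hcard : B.card ≤ R.card := Finset.card_le_card hBR
    rw [Finset.card_insert_of_notMem hv, Finset.card_insert_of_notMem hvB]
    have e1 : R.card + 1 - B.card = (R.card - B.card) + 1 := by omega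
    have e2 : R.card + 1 - (B.card + 1) = R.card - B.card := by omega
    rw [e1, e2, pow_succ, pow_succ]
    set F : ι → ℝ := fun u => 1 + if (∀ w ∈ B, ¬ e u w) then c u else 0 with hF
    have hF1 : ∀ u ∈ L, 1 ≤ F u := by
      intro u hu
      rw [hF]
      simp only
      split_ifs
      · linarith [hc u hu]
      · linarith
    set J : Finset ι := L.filter (fun u => e u v) with hJ
    have p1 : ∏ u ∈ L, (1 + if (∀ w ∈ B, ¬ e u w) then c u else 0) ^ ((1 : ℝ) / D) =
        (∏ u ∈ J, F u ^ ((1 : ℝ) / D)) * ∏ u ∈ L.filter (fun u => ¬ e u v), F u ^ ((1 : ℝ) / D) := by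
      rw [hJ, Finset.prod_filter_mul_prod_filter_not]
    have p2 : ∏ u ∈ L, (1 + if (∀ w ∈ insert v B, ¬ e u w) then c u else 0) ^ ((1 : ℝ) / D) =
        ∏ u ∈ L.filter (fun u => ¬ e u v), F u ^ ((1 : ℝ) / D) := by
      rw [← Finset.prod_filter_mul_prod_filter_not L (fun u => e u v)]
      have q1 : ∏ u ∈ L.filter (fun u => e u v),
          (1 + if (∀ w ∈ insert v B, ¬ e u w) then c u else 0) ^ ((1 : ℝ) / D) = 1 := by
        refine Finset.prod_eq_one fun u hu => ?_
        rw [Finset.mem_filter] at hu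
        rw [if_neg (fun h => h v (Finset.mem_insert_self _ _) hu.2), add_zero, Real.one_rpow]
      rw [q1, one_mul]
      refine Finset.prod_congr rfl fun u hu => ?_
      rw [Finset.mem_filter] at hu
      have : (∀ w ∈ insert v B, ¬ e u w) ↔ (∀ w ∈ B, ¬ e u w) := by
        simp [hu.2]
      simp only [this, hF]
    have p3 : ∏ u ∈ L, (1 + if (∀ w ∈ B, ¬ e u w) then c' u else 0) ^ ((1 : ℝ) / D) =
        (∏ u ∈ J, ((1 - y) + y * F u) ^ ((1 : ℝ) / D)) *
          ∏ u ∈ L.filter (fun u => ¬ e u v), F u ^ ((1 : ℝ) / D) := by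
      rw [← Finset.prod_filter_mul_prod_filter_not L (fun u => e u v)]
      congr 1
      · refine Finset.prod_congr rfl fun u hu => ?_
        rw [Finset.mem_filter] at hu
        congr 1
        simp only [hF, hc', if_pos hu.2]
        split_ifs <;> ring
      · refine Finset.prod_congr rfl fun u hu => ?_
        rw [Finset.mem_filter] at hu
        congr 1
        simp only [hF, hc', if_neg hu.2]
    rw [p1, p2, p3]
    have htp := two_point J hD (hdeg v (Finset.mem_insert_self _ _)) hy0 hy1 F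
      (fun u hu => hF1 u (Finset.mem_filter.1 hu).1)
    have hP : 0 ≤ ∏ u ∈ L.filter (fun u => ¬ e u v), F u ^ ((1 : ℝ) / D) :=
      Finset.prod_nonneg fun u hu => Real.rpow_nonneg
        (by linarith [hF1 u (Finset.mem_filter.1 hu).1]) _
    have hW : 0 ≤ (1 - y) ^ B.card * y ^ (R.card - B.card) :=
      mul_nonneg (pow_nonneg (by linarith) _) (pow_nonneg hy0 _)
    set P := ∏ u ∈ L.filter (fun u => ¬ e u v), F u ^ ((1 : ℝ) / D)
    set Q := ∏ u ∈ J, F u ^ ((1 : ℝ) / D)
    set W := (1 - y) ^ B.card * y ^ (R.card - B.card) with hWdef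
    calc (1 - y) ^ B.card * (y ^ (R.card - B.card) * y) * (Q * P) +
          (1 - y) ^ B.card * (1 - y) * y ^ (R.card - B.card) * P
        = W * (((1 - y) + y * Q) * P) := by rw [hWdef]; ring
      _ ≤ W * ((∏ u ∈ J, ((1 - y) + y * F u) ^ ((1 : ℝ) / D)) * P) :=
          mul_le_mul_of_nonneg_left (mul_le_mul_of_nonneg_right htp hP) hW

end Pool.Agent.Lib.Pa7c826g
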