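import Pool.Agent.Lib.Pa7c826g.Finner

/-!
The sum over all subsets `A` of one side of `y ^ |N(A)|`.

PROOF.
`sum_avoid`: `∑_{B ⊆ R} (1-y)^|B| y^(|R|-|B|) [B ∩ N = ∅] = y ^ |N|` for `N ⊆ R`: the sum over
`B ⊆ R \ N` of `(1-y)^|B| y^(|R \ N| - |B|)` is `1` (`Finset.sum_pow_mul_eq_add_pow`), the rest is
`y ^ |N|`. (Or by induction on `R`.)
`finner_sum`: exchange: `∑_{A ⊆ L} y ^ |N(A)| = ∑_B (1-y)^|B| y^(|R|-|B|) #{A ⊆ L : B ∩ N(A) = ∅}`
by `sum_avoid`, and the set `{A ⊆ L : B ∩ N(A) = ∅}` is the powerset of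
`{u ∈ L : ∀ v ∈ B, ¬ e u v}`, so its cardinality is
`∏_{u ∈ L} (if (∀ v ∈ B, ¬ e u v) then 2 else 1) = ∏_{u ∈ L} (1 + if .. then (2^D - 1) else 0)^(1/D)`
(as `(2 ^ D) ^ (1/D) = 2`: `Real.pow_rpow_inv_natCast` or so). Now `finner_gap` with
`c u = 2 ^ D - 1`, raise to the power `D` (`Finset.prod_pow`, `Real.rpow_natCast`,
`Real.rpow_inv_natCast_pow`; both sides are nonnegative).
`finner_exp`: every factor on the right is at most `1 + 2 ^ D * y ^ M ≤ exp (2 ^ D * y ^ M)`, so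
`(∑ ..) ^ D ≤ exp (|L| * 2 ^ D * y ^ M) ≤ exp D = (exp 1) ^ D`, and `exp 1 ≤ 3`
(`Real.exp_one_lt_d9`).
-/

namespace Pool.Agent.Lib.Pa7c826g

open Finset

theorem sum_avoid {κ : Type*} [DecidableEq κ] (R N : Finset κ) (hN : N ⊆ R) {y : ℝ} :
    ∑ B ∈ R.powerset, (1 - y) ^ B.card * y ^ (R.card - B.card) *
      (if Disjoint B N then 1 else 0) = y ^ N.card := by
  have h1 : ∑ B ∈ R.powerset, (1 - y) ^ B.card * y ^ (R.card - B.card) *
      (if Disjoint B N then 1 else 0) =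
      ∑ B ∈ (R \ N).powerset, (1 - y) ^ B.card * y ^ (R.card - B.card) := by
    simp only [mul_ite, mul_one, mul_zero]
    rw [← Finset.sum_filter]
    refine Finset.sum_congr ?_ fun _ _ => rfl
    ext B
    rw [Finset.mem_filter, Finset.mem_powerset, Finset.mem_powerset]
    constructor
    · rintro ⟨h2, h3⟩
      exact Finset.subset_sdiff.2 ⟨h2, h3⟩
    · intro h2
      exact Finset.subset_sdiff.1 h2
  have h2 : ∀ B ∈ (R \ N).powerset, (1 - y) ^ B.card * y ^ (R.card - B.card) =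
      y ^ N.card * ((1 - y) ^ B.card * y ^ ((R \ N).card - B.card)) := by
    intro B hB
    have h3 : B.card ≤ (R \ N).card := Finset.card_le_card (Finset.mem_powerset.1 hB)
    have h4 : (R \ N).card + N.card = R.card := Finset.card_sdiff_add_card_eq_card hN
    have h5 : R.card - B.card = N.card + ((R \ N).card - B.card) := by omega
    rw [h5, pow_add]
    ring
  rw [h1, Finset.sum_congr rfl h2, ← Finset.mul_sum, Finset.sum_pow_mul_eq_add_pow]
  simp

theorem finner_sum {ι κ : Type*} [DecidableEq ι] [DecidableEq κ] (L : Finset ι) (R : Finset κ)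
    (e : ι → κ → Prop) [∀ u v, Decidable (e u v)] {D : ℕ} (hD : 1 ≤ D)
    (hdeg : ∀ v ∈ R, (L.filter (fun u => e u v)).card ≤ D) {y : ℝ} (hy0 : 0 ≤ y) (hy1 : y ≤ 1) :
    (∑ A ∈ L.powerset, y ^ (R.filter (fun v => ∃ u ∈ A, e u v)).card) ^ D ≤
      ∏ u ∈ L, (1 + (2 ^ D - 1) * y ^ (R.filter (fun v => e u v)).card) := by
  have hD0 : D ≠ 0 := by omega
  have hpow : (1 : ℝ) ≤ 2 ^ D := one_le_pow₀ (by norm_num)
  have h1 : ∑ A ∈ L.powerset, y ^ (R.filter (fun v => ∃ u ∈ A, e u v)).card =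
      ∑ B ∈ R.powerset, (1 - y) ^ B.card * y ^ (R.card - B.card) *
        ∏ u ∈ L, (1 + if (∀ v ∈ B, ¬ e u v) then ((2 : ℝ) ^ D - 1) else 0) ^ ((1 : ℝ) / D) := by
    have h2 : ∀ A ∈ L.powerset, y ^ (R.filter (fun v => ∃ u ∈ A, e u v)).card =
        ∑ B ∈ R.powerset, (1 - y) ^ B.card * y ^ (R.card - B.card) *
          (if Disjoint B (R.filter (fun v => ∃ u ∈ A, e u v)) then 1 else 0) :=
      fun A _ => (sum_avoid R _ (Finset.filter_subset _ _)).symm
    rw [Finset.sum_congr rfl h2, Finset.sum_comm]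
    refine Finset.sum_congr rfl fun B hB => ?_
    have hBR : B ⊆ R := Finset.mem_powerset.1 hB
    rw [← Finset.mul_sum]
    congr 1
    have h3 : ∑ A ∈ L.powerset,
        (if Disjoint B (R.filter (fun v => ∃ u ∈ A, e u v)) then (1 : ℝ) else 0) =
        ∑ A ∈ (L.filter (fun u => ∀ v ∈ B, ¬ e u v)).powerset, 1 := by
      rw [← Finset.sum_filter]
      refine Finset.sum_congr ?_ fun _ _ => rfl
      ext A
      rw [Finset.mem_filter, Finset.mem_powerset, Finset.mem_powerset]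
      constructor
      · rintro ⟨hA, hd⟩ u hu
        rw [Finset.mem_filter]
        refine ⟨hA hu, fun v hv he => ?_⟩
        exact Finset.disjoint_left.1 hd hv (Finset.mem_filter.2 ⟨hBR hv, u, hu, he⟩)
      · intro hA
        refine ⟨fun u hu => (Finset.mem_filter.1 (hA hu)).1, ?_⟩
        rw [Finset.disjoint_left]
        intro v hv hv2
        obtain ⟨-, u, hu, he⟩ := Finset.mem_filter.1 hv2
        exact (Finset.mem_filter.1 (hA hu)).2 v hv he
    rw [h3, Finset.sum_const, Finset.card_powerset, nsmul_eq_mul, mul_one]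
    push_cast
    rw [← Finset.prod_const, Finset.prod_filter]
    refine Finset.prod_congr rfl fun u _ => ?_
    split_ifs
    · rw [one_div, show (1 : ℝ) + (2 ^ D - 1) = 2 ^ D by ring,
        Real.pow_rpow_inv_natCast (by norm_num) hD0]
    · rw [add_zero, Real.one_rpow]
  have h4 := finner_gap L R e hD hdeg hy0 hy1 (fun _ => (2 : ℝ) ^ D - 1)
    (fun _ _ => by linarith)
  rw [← h1] at h4
  have hnn : 0 ≤ ∑ A ∈ L.powerset, y ^ (R.filter (fun v => ∃ u ∈ A, e u v)).card :=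
    Finset.sum_nonneg fun _ _ => pow_nonneg hy0 _
  refine (pow_le_pow_left₀ hnn h4 D).trans (le_of_eq ?_)
  rw [← Finset.prod_pow]
  refine Finset.prod_congr rfl fun u _ => ?_
  rw [one_div, Real.rpow_inv_natCast_pow _ hD0]
  have : 0 ≤ ((2 : ℝ) ^ D - 1) * y ^ (R.filter (fun v => e u v)).card :=
    mul_nonneg (by linarith) (pow_nonneg hy0 _)
  linarith

theorem finner_exp {ι κ : Type*} [DecidableEq ι] [DecidableEq κ] (L : Finset ι) (R : Finset κ)
    (e : ι → κ → Prop) [∀ u v, Decidable (e u v)] {D M : ℕ} (hD : 1 ≤ D)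
    (hdeg : ∀ v ∈ R, (L.filter (fun u => e u v)).card ≤ D)
    (hM : ∀ u ∈ L, M ≤ (R.filter (fun v => e u v)).card) {y : ℝ} (hy0 : 0 ≤ y) (hy1 : y ≤ 1)
    (h : (L.card : ℝ) * (2 ^ D * y ^ M) ≤ D) :
    ∑ A ∈ L.powerset, y ^ (R.filter (fun v => ∃ u ∈ A, e u v)).card ≤ 3 := by
  have hD0 : D ≠ 0 := by omega
  have hpow : (1 : ℝ) ≤ 2 ^ D := one_le_pow₀ (by norm_num)
  have h1 := finner_sum L R e hD hdeg hy0 hy1
  have h2 : ∏ u ∈ L, (1 + ((2 : ℝ) ^ D - 1) * y ^ (R.filter (fun v => e u v)).card) ≤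
      ∏ u ∈ L, Real.exp (2 ^ D * y ^ M) := by
    refine Finset.prod_le_prod (fun u _ => ?_) fun u hu => ?_
    · have : 0 ≤ ((2 : ℝ) ^ D - 1) * y ^ (R.filter (fun v => e u v)).card :=
        mul_nonneg (by linarith) (pow_nonneg hy0 _)
      linarith
    · have h3 : y ^ (R.filter (fun v => e u v)).card ≤ y ^ M :=
        pow_le_pow_of_le_one hy0 hy1 (hM u hu)
      have h4 : ((2 : ℝ) ^ D - 1) * y ^ (R.filter (fun v => e u v)).card ≤ 2 ^ D * y ^ M :=
        mul_le_mul (by linarith) h3 (pow_nonneg hy0 _) (by positivity)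
      have h5 := Real.add_one_le_exp ((2 : ℝ) ^ D * y ^ M)
      linarith
  have h3 : ∏ u ∈ L, Real.exp (2 ^ D * y ^ M) ≤ (Real.exp 1) ^ D := by
    rw [Finset.prod_const, ← Real.exp_nat_mul, ← Real.exp_nat_mul]
    apply Real.exp_le_exp.2
    linarith
  have h4 := (h1.trans h2).trans h3
  have h5 : ∑ A ∈ L.powerset, y ^ (R.filter (fun v => ∃ u ∈ A, e u v)).card ≤ Real.exp 1 :=
    le_of_pow_le_pow_left₀ hD0 (Real.exp_pos 1).le h4
  have h6 := Real.exp_one_lt_d9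
  linarith

end Pool.Agent.Lib.Pa7c826g
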