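import Pool.Agent.Lib.Pa7c826g.GadRed

/-!
The new graphs have the degree gap; choice of the parameters.

PROOFS.
`size_redG`: `n = a s d + (a s c + b) ≤ P ^ (p + q + 1)`: `s ≤ 2 P^q` (`cloneN_le_B`), `d = P^p`,
`c = d + q j ≤ 2 d` because `j < 2^j = P`, `q ≤ P^(q-1)`, so `q j ≤ P^q ≤ P^p`; so
`n ≤ 3 a (2 P^q) P^p + b ≤ 7 m P^(p+q) ≤ P^(p+q+1)`, as `7 m ≤ m^4 < P` (`m ≥ 12`).
`class_redG`: `D = d = P^p`. `n^δ ≤ P^((p+q+1) δ) ≤ P^p` (`0 ≤ δ`, `(p+q+1) δ ≤ p`; for `n = 0`: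
`0 ^ δ ≤ 1 ≤ D`). `γ log₂ n ≤ q j`: `log₂ n ≤ (p+q+1) j` as `P = 2^j` (for `n = 0`: `logb 2 0 = 0`);
if `γ ≤ 0` then `γ log₂ n ≤ 0`; otherwise `γ (p+q+1) ≤ q`. `rowDeg_redG`: row degrees are
`≥ c = d + q j`; `colDeg_redG`.
`exists_pq`: choose a rational `ξ` with `max γ 0 < ξ < min (1 - δ) (1 / 2)`, `ξ = x / y`
(`exists_rat_btwn`; positive numerator); take `q = N x`, `p = N (y - x)`, `N` large:
`q / (p + q + 1) = N x / (N y + 1) ≥ γ`, `p / (p + q + 1) = N (y - x) / (N y + 1) ≥ δ`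
(`1 - ξ > δ`), `q < p` as `2 x < y`.
-/

namespace Pool.Agent.Lib.Pa7c826g

open Pool.Agent.Lib.Pa7c826

theorem size_redG {p q : ℕ} (hq : 1 ≤ q) (hp : q < p) (G : BGraph) (t : ℕ) :
    (redG p q G t).a + (redG p q G t).b ≤ PG G t ^ (p + q + 1) := by
  have h0 : (redG p q G t).a + (redG p q G t).b =
      G.a * sG p q G t * dG p G t + (G.a * sG p q G t * cG p q G t + G.b) := rfl
  rw [h0]
  have hs : sG p q G t ≤ 2 * PG G t ^ q := cloneN_le_B _ _ _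
  have hm := scG_pow_lt G t
  have hmdef : scG G t = G.a + G.b + 2 * t + 12 := rfl
  have hddef : dG p G t = PG G t ^ p := rfl
  have hcdef : cG p q G t = dG p G t + q * jG G t := rfl
  have hP2 : PG G t = 2 ^ jG G t := rfl
  have hj : jG G t < PG G t := by
    rw [hP2]
    exact Nat.lt_two_pow_self
  have hj1 : 1 ≤ jG G t := by
    unfold jG
    omega
  have hPge : 2 ≤ PG G t := by
    rw [hP2]
    calc 2 = 2 ^ 1 := rfl
      _ ≤ 2 ^ jG G t := Nat.pow_le_pow_right (by norm_num) hj1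
  generalize sG p q G t = s at *
  generalize cG p q G t = c at *
  generalize dG p G t = d at *
  generalize PG G t = P at *
  generalize jG G t = j at *
  generalize scG G t = m at *
  have hqP : q ≤ P ^ (q - 1) := by
    calc q ≤ 2 ^ (q - 1) := by
          obtain ⟨r, rfl⟩ := Nat.exists_eq_add_of_le' hq
          simpa using Nat.lt_two_pow_self (n := r)
      _ ≤ P ^ (q - 1) := Nat.pow_le_pow_left hPge _
  have hqj : q * j ≤ P ^ p := by
    calc q * j ≤ P ^ (q - 1) * P := Nat.mul_le_mul hqP hj.le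
      _ = P ^ q := by rw [← pow_succ, Nat.sub_add_cancel hq]
      _ ≤ P ^ p := Nat.pow_le_pow_right (by omega) hp.le
  have hc : c ≤ 2 * P ^ p := by omega
  have hPpos : 0 < P := by omega
  have hpq : 1 ≤ P ^ (p + q) := Nat.one_le_pow _ _ hPpos
  have h1 : G.a * s * d ≤ 2 * (G.a * P ^ (p + q)) := by
    calc G.a * s * d ≤ G.a * (2 * P ^ q) * P ^ p := by
          rw [hddef]
          gcongr
      _ = 2 * (G.a * P ^ (p + q)) := by
          rw [pow_add]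
          ring
  have h2 : G.a * s * c ≤ 4 * (G.a * P ^ (p + q)) := by
    calc G.a * s * c ≤ G.a * (2 * P ^ q) * (2 * P ^ p) := by
          gcongr
      _ = 4 * (G.a * P ^ (p + q)) := by
          rw [pow_add]
          ring
  have h3 : G.b ≤ G.b * P ^ (p + q) := Nat.le_mul_of_pos_right _ hpq
  have h4 : 7 * m ≤ P := by
    refine le_trans ?_ hm.le
    have : 7 ≤ m ^ 3 := by
      calc 7 ≤ 12 ^ 3 := by norm_num
        _ ≤ m ^ 3 := Nat.pow_le_pow_left (by omega) 3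
    calc 7 * m ≤ m ^ 3 * m := Nat.mul_le_mul_right _ this
      _ = m ^ 4 := by ring
  have h5 : 6 * G.a + G.b ≤ P := by omega
  have h6 : (6 * G.a + G.b) * P ^ (p + q) = 6 * (G.a * P ^ (p + q)) + G.b * P ^ (p + q) := by ring
  calc G.a * s * d + (G.a * s * c + G.b)
      ≤ (6 * G.a + G.b) * P ^ (p + q) := by
        rw [h6]
        omega
    _ ≤ P * P ^ (p + q) := Nat.mul_le_mul_right _ h5
    _ = P ^ (p + q + 1) := by ring

private theorem log_aux {N j r q : ℕ} {γ : ℝ} (hN : N ≤ (2 ^ j) ^ r) (hγ : (r : ℝ) * γ ≤ q) :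
    γ * Real.logb 2 (N : ℝ) ≤ q * j := by
  have hNR : (N : ℝ) ≤ ((2 : ℝ) ^ j) ^ r := by exact_mod_cast hN
  have h4 : 0 ≤ Real.logb 2 (N : ℝ) := by
    rcases Nat.eq_zero_or_pos N with h0 | h0
    · rw [h0]
      simp
    · exact Real.logb_nonneg (by norm_num) (by exact_mod_cast h0)
  have h3 : Real.logb 2 (N : ℝ) ≤ (r : ℝ) * j := by
    rcases Nat.eq_zero_or_pos N with h0 | h0
    · rw [h0]
      simp only [Nat.cast_zero, Real.logb_zero]
      positivity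
    · have h0' : (0 : ℝ) < N := by exact_mod_cast h0
      have h5 : Real.logb 2 (N : ℝ) ≤ Real.logb 2 (((2 : ℝ) ^ j) ^ r) :=
        Real.logb_le_logb_of_le (by norm_num) h0' hNR
      refine h5.trans (le_of_eq ?_)
      rw [Real.logb_pow, Real.logb_pow, Real.logb_self_eq_one (by norm_num)]
      ring
  have h5 : (0 : ℝ) ≤ j := Nat.cast_nonneg _
  rcases le_or_gt γ 0 with hg | hg
  · calc γ * Real.logb 2 (N : ℝ) ≤ 0 := mul_nonpos_of_nonpos_of_nonneg hg h4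
      _ ≤ q * j := by positivity
  · calc γ * Real.logb 2 (N : ℝ) ≤ γ * ((r : ℝ) * j) :=
          mul_le_mul_of_nonneg_left h3 hg.le
      _ = ((r : ℝ) * γ) * j := by ring
      _ ≤ q * j := mul_le_mul_of_nonneg_right hγ h5

private theorem pow_aux {N P p r : ℕ} {δ : ℝ} (hP : 1 ≤ P) (hN : N ≤ P ^ r) (hδ0 : 0 ≤ δ)
    (hδ : (r : ℝ) * δ ≤ p) : (N : ℝ) ^ δ ≤ ((P ^ p : ℕ) : ℝ) := by
  have hNR : (N : ℝ) ≤ (P : ℝ) ^ r := by exact_mod_cast hN
  have hP1 : (1 : ℝ) ≤ P := by exact_mod_cast hP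
  calc (N : ℝ) ^ δ ≤ ((P : ℝ) ^ r) ^ δ :=
        Real.rpow_le_rpow (Nat.cast_nonneg _) hNR hδ0
    _ = (P : ℝ) ^ ((r : ℝ) * δ) := by
        rw [← Real.rpow_natCast, ← Real.rpow_mul (by linarith)]
    _ ≤ (P : ℝ) ^ (p : ℝ) := Real.rpow_le_rpow_of_exponent_le hP1 hδ
    _ = ((P ^ p : ℕ) : ℝ) := by
        rw [Real.rpow_natCast]
        push_cast
        rfl

theorem class_redG {p q : ℕ} (hq : 1 ≤ q) (hp : q < p) {δ γ : ℝ} (hδ0 : 0 ≤ δ)
    (hδ : ((p + q + 1 : ℕ) : ℝ) * δ ≤ p) (hγ : ((p + q + 1 : ℕ) : ℝ) * γ ≤ q) (G : BGraph)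
    (t : ℕ) : DegreeGap δ γ (redG p q G t) := by
  have hsize := size_redG hq hp G t
  refine ⟨dG p G t, pow_aux (Nat.one_le_two_pow) hsize hδ0 hδ,
    Or.inl ⟨fun j => colDeg_redG hq hp G t j, fun i => ?_⟩⟩
  have h1 : (cG p q G t : ℝ) ≤ (redG p q G t).rowDeg i := by
    exact_mod_cast rowDeg_redG G t i
  refine le_trans ?_ h1
  have h2 : (cG p q G t : ℝ) = (dG p G t : ℝ) + q * jG G t := by
    unfold cG
    push_cast
    rfl
  rw [h2]
  have h3 := log_aux (j := jG G t) (γ := γ) hsize hγ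
  linarith

theorem exists_pq {δ γ : ℝ} (h0 : 0 ≤ δ) (h1 : δ < 1) (h2 : γ < 1 - δ) (h3 : γ < 1 / 2) :
    ∃ p q : ℕ, 1 ≤ q ∧ q < p ∧ ((p + q + 1 : ℕ) : ℝ) * δ ≤ p ∧ ((p + q + 1 : ℕ) : ℝ) * γ ≤ q := by
  obtain ⟨ξ, hξ1, hξ2⟩ := exists_rat_btwn (x := max γ 0) (y := min (1 - δ) (1 / 2)) (by
    rw [max_lt_iff, lt_min_iff, lt_min_iff]
    exact ⟨⟨h2, h3⟩, by linarith, by norm_num⟩)
  rw [max_lt_iff] at hξ1
  rw [lt_min_iff] at hξ2
  obtain ⟨ha, hb⟩ := hξ1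
  obtain ⟨hc, hd⟩ := hξ2
  have hξpos : 0 < ξ := by exact_mod_cast hb
  have hnum : 0 < ξ.num := Rat.num_pos.2 hξpos
  obtain ⟨x, hx⟩ := Int.eq_ofNat_of_zero_le hnum.le
  have hxpos : 0 < x := by
    have : (0 : ℤ) < x := hx ▸ hnum
    exact_mod_cast this
  have hy : (0 : ℝ) < ξ.den := by exact_mod_cast ξ.den_pos
  have hξ : (ξ : ℝ) * ξ.den = x := by
    have h4 : ξ * ξ.den = ξ.num := Rat.mul_den_eq_num ξ
    rw [hx] at h4
    exact_mod_cast congrArg (fun r : ℚ => (r : ℝ)) h4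
  set y := ξ.den with hydef
  have hxR : (0 : ℝ) < x := by exact_mod_cast hxpos
  have e1 : 0 < (y : ℝ) - x - y * δ := by
    have : (y : ℝ) - x - y * δ = y * (1 - δ - ξ) := by rw [← hξ]; ring
    rw [this]
    exact mul_pos hy (by linarith)
  have e2 : 0 < (x : ℝ) - y * γ := by
    have : (x : ℝ) - y * γ = y * (ξ - γ) := by rw [← hξ]; ring
    rw [this]
    exact mul_pos hy (by linarith)
  have e3 : (2 : ℝ) * x < y := by
    rw [← hξ]
    nlinarith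
  have e3' : 2 * x < y := by exact_mod_cast e3
  obtain ⟨N, hN⟩ := exists_nat_gt (max (δ / ((y : ℝ) - x - y * δ)) (max (γ / ((x : ℝ) - y * γ)) 0))
  rw [max_lt_iff, max_lt_iff] at hN
  obtain ⟨n1, n2, n3⟩ := hN
  have hNpos : 0 < N := by exact_mod_cast n3
  have n1' : δ < N * ((y : ℝ) - x - y * δ) := (div_lt_iff₀ e1).1 n1
  have n2' : γ < N * ((x : ℝ) - y * γ) := (div_lt_iff₀ e2).1 n2
  have hyx : x ≤ y := by omega
  refine ⟨N * (y - x), N * x, Nat.mul_pos hNpos hxpos, ?_, ?_, ?_⟩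
  · exact Nat.mul_lt_mul_of_pos_left (by omega) hNpos
  · push_cast [Nat.cast_sub hyx]
    nlinarith
  · push_cast [Nat.cast_sub hyx]
    nlinarith

end Pool.Agent.Lib.Pa7c826g
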