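import Pool.Agent.Lib.Pa7c826y.Hard

/-!
The gadget and the number of its independent sets.

Every left vertex `u` of the old graph gets `s` clones, every clone a block: a complete bipartite
graph with `d` left and `c` right vertices. Every old right vertex `v` is joined to the first `k`
left vertices of all blocks of its old neighbours.

PROOFS.
`cnt_eq_sum`: an independent pair `(A, C)` is a set `A` of left vertices and a subset `C` of
`{y | ∀ x ∈ A, ¬ E x y}` (`cnt` in `Pa7c826/Indep.lean`; fibres over `A`, `card_set'`: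
`Nat.card (Set β) = 2 ^ Nat.card β`, `Nat.card_sigma`).
`sum_block`: sum over all `A : Finset (Fin d)` of `w A`, `w ∅ = 2 ^ c`, `w A = 1` otherwise:
`2 ^ c + (2 ^ d - 1)`. `sum_block_inv`: the same over the `A` without element `< k` (subsets of the
last `d - k` elements): `2 ^ c + (2 ^ (d - k) - 1)`.
`sum_clones`, `sum_clones_inv`: `Finset.prod_univ_sum` (or `Finset.sum_pow'`-like:
`∑ g : Fin s → β, ∏ i, w (g i) = (∑ w) ^ s`), for the second one with the restricted sum.
`cnt_gap`: `cnt_eq_sum` for the gadget; a finset of left vertices is a family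
`f : Fin a → Fin s → Finset (Fin d)` (`f u i = {x | ((u, i), x) ∈ A}`), the number of right vertices
without neighbour in `A` is `c * #{(u, i) | f u i = ∅} + #{v | ∀ u, vis (f u) → ¬ E u v}` where
`vis g = ∃ i, ∃ x ∈ g i, x < k`. So `cnt = ∑_f (∏_u ∏_i w (f u i)) * 2 ^ #{v | ..}`; group by
`T = {u | vis (f u)}`: `∑_{f : T f = T} ∏_u W (f u) = (X - Y)^|T| Y^(a - |T|)`
(`Finset.prod_univ_sum` / `Fintype.piFinset`).
-/

namespace Pool.Agent.Lib.Pa7c826g

open Pool.Agent.Lib.Pa7c826 Pool.Agent.Lib.Pa7c826y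

/-- the gadget -/
def gapRel {a b : ℕ} (s d c k : ℕ) (E : Fin a → Fin b → Prop) :
    (Fin a × Fin s) × Fin d → ((Fin a × Fin s) × Fin c) ⊕ Fin b → Prop
  | x, .inl y => x.1 = y.1
  | x, .inr v => E x.1.1 v ∧ (x.2 : ℕ) < k

theorem cnt_eq_sum {α β : Type*} [Fintype α] [Finite β] (E : α → β → Prop) :
    cnt E = ∑ A : Finset α, 2 ^ {y | ∀ x ∈ A, ¬ E x y}.ncard := by
  classical
  unfold cnt
  rw [Nat.card_congr (Equiv.subtypeProdEquivSigmaSubtype
    (fun (A : Set α) (B : Set β) => ∀ a ∈ A, ∀ b ∈ B, ¬ E a b)), Nat.card_sigma]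
  rw [← Equiv.sum_comp (Fintype.finsetEquivSet (α := α))]
  refine Finset.sum_congr rfl fun A _ => ?_
  have e : {B : Set β // ∀ a ∈ Fintype.finsetEquivSet A, ∀ b ∈ B, ¬ E a b} ≃
      𝒫 {y | ∀ x ∈ A, ¬ E x y} := by
    refine Equiv.subtypeEquiv (Equiv.refl _) fun B => ?_
    simp only [Fintype.finsetEquivSet_apply, Finset.mem_coe, Equiv.refl_apply, Set.mem_powerset_iff,
      Set.subset_def, Set.mem_setOf_eq]
    exact ⟨fun h b hb a ha => h a ha b hb, fun h a ha b hb => h b hb a ha⟩
  rw [Nat.card_congr e, Nat.card_congr (Equiv.Set.powerset _), card_set', Nat.card_coe_set_eq]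

theorem sum_ite_empty {δ : Type*} [DecidableEq δ] (w : ℕ) (S : Finset (Finset δ)) (h : ∅ ∈ S) :
    ∑ A ∈ S, (if A = ∅ then w else 1) = w + S.card - 1 := by
  rw [← Finset.add_sum_erase S _ h, if_pos rfl]
  have h1 : ∑ A ∈ S.erase ∅, (if A = ∅ then w else 1) = (S.erase ∅).card := by
    rw [Finset.card_eq_sum_ones]
    refine Finset.sum_congr rfl fun A hA => ?_
    rw [if_neg (Finset.ne_of_mem_erase hA)]
  rw [h1, Finset.card_erase_of_mem h]
  have h2 : 0 < S.card := Finset.card_pos.2 ⟨_, h⟩
  omega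

theorem sum_block (c d : ℕ) :
    ∑ A : Finset (Fin d), (if A = ∅ then 2 ^ c else 1) = 2 ^ c + 2 ^ d - 1 := by
  rw [sum_ite_empty _ _ (Finset.mem_univ _), Finset.card_univ, Fintype.card_finset,
    Fintype.card_fin]

theorem sum_block_inv (c : ℕ) {d k : ℕ} (hk : k ≤ d) :
    ∑ A ∈ (Finset.univ : Finset (Finset (Fin d))).filter (fun A => ∀ x : Fin d, x ∈ A → k ≤ x.val),
      (if A = ∅ then 2 ^ c else 1) = 2 ^ c + 2 ^ (d - k) - 1 := by
  rw [sum_ite_empty _ _ (by simp)]
  have h1 : (Finset.univ : Finset (Finset (Fin d))).filter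
      (fun A => ∀ x : Fin d, x ∈ A → k ≤ x.val) =
      (Finset.univ.filter (fun x : Fin d => k ≤ x.val)).powerset := by
    ext A
    simp only [Finset.mem_filter, Finset.mem_univ, true_and, Finset.mem_powerset,
      Finset.subset_iff]
  have h2 : (Finset.univ.filter (fun x : Fin d => k ≤ x.val)).card = d - k := by
    rcases Nat.lt_or_ge k d with h | h
    · have h3 : Finset.univ.filter (fun x : Fin d => k ≤ x.val) = Finset.Ici (⟨k, h⟩ : Fin d) := by
        ext x
        simp [Fin.le_def]
      rw [h3, Fin.card_Ici]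
    · have h3 : k = d := le_antisymm hk h
      subst h3
      rw [Nat.sub_self, Finset.card_eq_zero, Finset.filter_eq_empty_iff]
      intro x _
      have := x.2
      omega
  rw [h1, Finset.card_powerset, h2]

theorem sum_clones (s c d : ℕ) :
    ∑ g : Fin s → Finset (Fin d), ∏ i, (if g i = ∅ then 2 ^ c else 1) =
      (2 ^ c + 2 ^ d - 1) ^ s := by
  have h := Finset.prod_univ_sum (fun _ : Fin s => (Finset.univ : Finset (Finset (Fin d))))
    (fun _ A => if A = ∅ then 2 ^ c else 1)
  rw [Fintype.piFinset_univ] at h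
  rw [← h, Finset.prod_const, sum_block, Finset.card_univ, Fintype.card_fin]

theorem sum_clones_inv (s c : ℕ) {d k : ℕ} (hk : k ≤ d) :
    ∑ g ∈ (Finset.univ : Finset (Fin s → Finset (Fin d))).filter
        (fun g => ∀ i, ∀ x : Fin d, x ∈ g i → k ≤ x.val), ∏ i, (if g i = ∅ then 2 ^ c else 1) =
      (2 ^ c + 2 ^ (d - k) - 1) ^ s := by
  have h := Finset.prod_univ_sum (fun _ : Fin s =>
    (Finset.univ : Finset (Finset (Fin d))).filter (fun A => ∀ x : Fin d, x ∈ A → k ≤ x.val))
    (fun _ A => if A = ∅ then 2 ^ c else 1)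
  have h1 : (Finset.univ : Finset (Fin s → Finset (Fin d))).filter
      (fun g => ∀ i, ∀ x : Fin d, x ∈ g i → k ≤ x.val) = Fintype.piFinset (fun _ : Fin s =>
    (Finset.univ : Finset (Finset (Fin d))).filter (fun A => ∀ x : Fin d, x ∈ A → k ≤ x.val)) := by
    ext g
    simp [Fintype.mem_piFinset]
  rw [h1, ← h, Finset.prod_const, sum_block_inv c hk, Finset.card_univ, Fintype.card_fin]

/-- sums over families, grouped by the places where the family is visible -/
theorem sum_group {a : ℕ} {γ : Type*} [Fintype γ] [DecidableEq γ] (W : γ → ℕ) (vis : γ → Prop)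
    [DecidablePred vis] (F : Finset (Fin a) → ℕ) :
    ∑ f : Fin a → γ, (∏ u, W (f u)) * F (Finset.univ.filter (fun u => vis (f u))) =
      ∑ T : Finset (Fin a), (∑ g ∈ Finset.univ.filter vis, W g) ^ T.card *
        (∑ g ∈ Finset.univ.filter (fun g => ¬ vis g), W g) ^ (a - T.card) * F T := by
  classical
  rw [← Finset.sum_fiberwise (s := Finset.univ)
    (g := fun f : Fin a → γ => Finset.univ.filter (fun u => vis (f u)))]
  refine Finset.sum_congr rfl fun T _ => ?_
  have h1 : ∑ f ∈ Finset.univ.filter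
      (fun f : Fin a → γ => Finset.univ.filter (fun u => vis (f u)) = T),
      (∏ u, W (f u)) * F (Finset.univ.filter (fun u => vis (f u))) =
      (∑ f ∈ Finset.univ.filter
      (fun f : Fin a → γ => Finset.univ.filter (fun u => vis (f u)) = T), ∏ u, W (f u)) * F T := by
    rw [Finset.sum_mul]
    refine Finset.sum_congr rfl fun f hf => ?_
    rw [(Finset.mem_filter.1 hf).2]
  rw [h1]
  congr 1
  have h2 : Finset.univ.filter
      (fun f : Fin a → γ => Finset.univ.filter (fun u => vis (f u)) = T) =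
      Fintype.piFinset (fun u : Fin a => if u ∈ T then Finset.univ.filter vis
        else Finset.univ.filter (fun g => ¬ vis g)) := by
    ext f
    simp only [Finset.mem_filter, Finset.mem_univ, true_and, Fintype.mem_piFinset,
      Finset.ext_iff]
    constructor
    · intro h u
      by_cases hu : u ∈ T
      · simp [hu, (h u).2 hu]
      · have := mt (h u).1 hu
        simp [hu, this]
    · intro h u
      have h3 := h u
      by_cases hu : u ∈ T
      · simp only [hu, if_true, Finset.mem_filter, Finset.mem_univ, true_and] at h3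
        simp [hu, h3]
      · simp only [hu, if_false, Finset.mem_filter, Finset.mem_univ, true_and] at h3
        simp [hu, h3]
  rw [h2, ← Finset.prod_univ_sum (fun u : Fin a => if u ∈ T then Finset.univ.filter vis
        else Finset.univ.filter (fun g => ¬ vis g)) (fun _ g => W g)]
  have h4 : ∀ u : Fin a, ∑ g ∈ (if u ∈ T then Finset.univ.filter vis
        else Finset.univ.filter (fun g => ¬ vis g)), W g =
      if u ∈ T then ∑ g ∈ Finset.univ.filter vis, W g
        else ∑ g ∈ Finset.univ.filter (fun g => ¬ vis g), W g := by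
    intro u
    split_ifs <;> rfl
  rw [Finset.prod_congr rfl fun u _ => h4 u, Finset.prod_ite, Finset.prod_const,
    Finset.prod_const]
  congr 2
  · simp
  · rw [Finset.filter_not, Finset.card_sdiff_of_subset (Finset.filter_subset _ _),
      Finset.card_univ, Fintype.card_fin]
    simp

/-- sets of left vertices as families of families -/
def famEquiv (a s d : ℕ) :
    (Fin a → Fin s → Finset (Fin d)) ≃ Finset ((Fin a × Fin s) × Fin d) where
  toFun f := Finset.univ.filter (fun x => x.2 ∈ f x.1.1 x.1.2)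
  invFun A := fun u i => Finset.univ.filter (fun x => ((u, i), x) ∈ A)
  left_inv f := by
    ext u i x
    simp
  right_inv A := by
    ext x
    simp

theorem mem_famEquiv {a s d : ℕ} (f : Fin a → Fin s → Finset (Fin d))
    (x : (Fin a × Fin s) × Fin d) : x ∈ famEquiv a s d f ↔ x.2 ∈ f x.1.1 x.1.2 := by
  simp [famEquiv]

theorem free_ncard {a b s d c k : ℕ} (E : Fin a → Fin b → Prop)
    (f : Fin a → Fin s → Finset (Fin d)) :
    2 ^ {y | ∀ x ∈ famEquiv a s d f, ¬ gapRel s d c k E x y}.ncard =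
      (∏ u, ∏ i, (if f u i = ∅ then 2 ^ c else 1)) *
        2 ^ {v | ∀ u ∈ Finset.univ.filter (fun u => ¬ ∀ i, ∀ x : Fin d, x ∈ f u i → k ≤ x.val),
          ¬ E u v}.ncard := by
  classical
  have h1 : {y | ∀ x ∈ famEquiv a s d f, ¬ gapRel s d c k E x y} =
      Sum.inl '' {z : (Fin a × Fin s) × Fin c | f z.1.1 z.1.2 = ∅} ∪
      Sum.inr '' {v | ∀ u ∈ Finset.univ.filter
        (fun u => ¬ ∀ i, ∀ x : Fin d, x ∈ f u i → k ≤ x.val), ¬ E u v} := by
    ext y
    rcases y with ⟨⟨u, i⟩, y⟩ | v
    · simp only [Set.mem_setOf_eq, mem_famEquiv, gapRel, Set.mem_union, Set.mem_image,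
        Sum.inl.injEq, exists_eq_right, reduceCtorEq, and_false, exists_false, or_false]
      constructor
      · intro h
        rw [Finset.eq_empty_iff_forall_notMem]
        intro x hx
        exact h ((u, i), x) hx rfl
      · rintro h ⟨⟨u', i'⟩, x⟩ hx he
        simp only [Prod.mk.injEq] at he
        obtain ⟨rfl, rfl⟩ := he
        simp only [h] at hx
        exact absurd hx (Finset.notMem_empty _)
    · simp only [Set.mem_setOf_eq, mem_famEquiv, gapRel, Set.mem_union, Set.mem_image,
        Sum.inr.injEq, exists_eq_right, reduceCtorEq, and_false, exists_false, false_or,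
        Finset.mem_filter, Finset.mem_univ, true_and]
      constructor
      · intro h u hu hE
        push Not at hu
        obtain ⟨i, x, hx, hxk⟩ := hu
        exact h ((u, i), x) hx ⟨hE, hxk⟩
      · rintro h ⟨⟨u, i⟩, x⟩ hx ⟨hE, hxk⟩
        refine h u ?_ hE
        intro h'
        exact absurd (h' i x hx) (not_le.2 hxk)
  rw [h1, Set.ncard_union_eq, Set.ncard_image_of_injective _ Sum.inl_injective,
    Set.ncard_image_of_injective _ Sum.inr_injective, pow_add]
  · congr 1
    have h2 : {z : (Fin a × Fin s) × Fin c | f z.1.1 z.1.2 = ∅}.ncard =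
        ∑ u : Fin a, ∑ i : Fin s, ∑ _y : Fin c, (if f u i = ∅ then 1 else 0) := by
      rw [Set.ncard_eq_toFinset_card', Set.toFinset_setOf, Finset.card_filter,
        Fintype.sum_prod_type, Fintype.sum_prod_type]
    rw [h2, ← Finset.prod_pow_eq_pow_sum]
    refine Finset.prod_congr rfl fun u _ => ?_
    rw [← Finset.prod_pow_eq_pow_sum]
    refine Finset.prod_congr rfl fun i _ => ?_
    rw [Finset.sum_const, Finset.card_univ, Fintype.card_fin]
    split_ifs <;> simp
  · rw [Set.disjoint_left]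
    rintro _ ⟨z, _, rfl⟩ ⟨v, _, h⟩
    exact absurd h (by simp)

/-- **The number of independent sets of the gadget.** -/
theorem cnt_gap {a b s d c k : ℕ} (hk : k ≤ d) (E : Fin a → Fin b → Prop) :
    cnt (gapRel s d c k E) = ∑ T : Finset (Fin a),
      ((2 ^ c + 2 ^ d - 1) ^ s - (2 ^ c + 2 ^ (d - k) - 1) ^ s) ^ T.card *
        ((2 ^ c + 2 ^ (d - k) - 1) ^ s) ^ (a - T.card) * 2 ^ {v | ∀ u ∈ T, ¬ E u v}.ncard := by
  classical
  rw [cnt_eq_sum, ← Equiv.sum_comp (famEquiv a s d),
    Finset.sum_congr rfl fun f _ => free_ncard (c := c) (k := k) E f,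
    sum_group (fun g : Fin s → Finset (Fin d) => ∏ i, (if g i = ∅ then 2 ^ c else 1))
      (fun g => ¬ ∀ i, ∀ x : Fin d, x ∈ g i → k ≤ x.val)
      (fun T => 2 ^ {v | ∀ u ∈ T, ¬ E u v}.ncard)]
  have h1 : ∑ g ∈ (Finset.univ : Finset (Fin s → Finset (Fin d))).filter
        (fun g => ¬ ¬ ∀ i, ∀ x : Fin d, x ∈ g i → k ≤ x.val),
        ∏ i, (if g i = ∅ then 2 ^ c else 1) = (2 ^ c + 2 ^ (d - k) - 1) ^ s := by
    rw [← sum_clones_inv s c hk]
    refine Finset.sum_congr ?_ fun _ _ => rfl
    ext g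
    simp only [Finset.mem_filter, Finset.mem_univ, true_and, not_not]
  have h2 : ∑ g ∈ (Finset.univ : Finset (Fin s → Finset (Fin d))).filter
        (fun g => ¬ ∀ i, ∀ x : Fin d, x ∈ g i → k ≤ x.val),
        ∏ i, (if g i = ∅ then 2 ^ c else 1) =
      (2 ^ c + 2 ^ d - 1) ^ s - (2 ^ c + 2 ^ (d - k) - 1) ^ s := by
    have h3 := Finset.sum_filter_add_sum_filter_not
      (Finset.univ : Finset (Fin s → Finset (Fin d)))
      (fun g => ¬ ∀ i, ∀ x : Fin d, x ∈ g i → k ≤ x.val)
      (fun g => ∏ i, (if g i = ∅ then 2 ^ c else 1))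
    rw [h1, sum_clones] at h3
    omega
  rw [h1, h2]

end Pool.Agent.Lib.Pa7c826g
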