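import Pool.Agent.Lib.Pa7c826g.GadCnt

/-!
The right number of clones, and the closeness of the gadget to the old graph.

Put `x = 2 ^ c + 2 ^ d - 1`, `y = 2 ^ c + 2 ^ (d - k) - 1`.

PROOFS.
`cloneN_*`: `β = (2 ^ d - 1) / 2 ^ c`, `(x / 2 ^ c) ^ i = (1 + β) ^ i` is nondecreasing in `i`, so the
`i < B` with `x ^ i < 2 ^ (c i + 1)`, i.e. `(1 + β) ^ i < 2`, form an initial segment of length
`s = cloneN c d B`. `cloneN_ge`: if `s < B` then `s` itself is not counted; if `s = B` use Bernoulli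
(`one_add_mul_le_pow`): `(1 + β) ^ B ≥ 1 + B β ≥ 2` by `hB : 2 ^ c ≤ B * (2 ^ d - 1)`. `cloneN_le`: `s ≥ 1` and `s - 1` is counted:
`x ^ s = x ^ (s - 1) * x ≤ 2 ^ (c (s - 1) + 1) * x`.
`gap_close`: `cnt_gap` and `cnt_eq_sum`, termwise:
`(1 - τ)^|T| ≤ ((X - Y)/2^(cs))^|T| (Y / 2^(cs))^(a - |T|) ≤ (1 + τ)^a`, `(1 - τ)^a ≤ (1 - τ)^|T|`.
`close_num`: with `w = q j`, `c = d + w`, `s ≤ 2 * 2^w`, `x ≤ 2^c (1 + 2^(-w))`,
`y ≤ 2^c (1 + 2^(-w - k))`; `Y = y^s ≤ 2^(cs) (1 + 2^(-w-k))^s ≤ 2^(cs) (1 + 2 s 2^(-w-k))`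
`≤ 2^(cs) (1 + 4 * 2^(-k))` (for `s 2^(-w-k) ≤ 1`: `(1 + ρ)^s ≤ exp (ρ s) ≤ 1 + 2 ρ s`), `Y ≥ 2^(cs)`;
`X ≥ 2 * 2^(cs)`, `X ≤ 2 * 2^(cs) (1 + 2^(-w))`. With `2^(-w) ≤ 1 / m^4` and `2^(-k) ≤ 1 / (8 m^2)`
(`k = m ≥ 12`: `8 m^2 ≤ 2^m`, induction): all four hypotheses of `gap_close` hold for
`τ = 1 / (2 m^2)`; `(1 + τ)^a ≤ 1 + 2 a τ` (`a τ ≤ 1`), `(1 - τ)^a ≥ 1 - a τ` (Bernoulli), and
`2 a τ = a / m^2 ≤ 1 / (2 t + 1)` since `a (2 t + 1) ≤ m^2`.
-/

namespace Pool.Agent.Lib.Pa7c826g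

open Pool.Agent.Lib.Pa7c826 Pool.Agent.Lib.Pa7c826y

/-- the number of clones: the least `s` with `(2 ^ c + 2 ^ d - 1) ^ s ≥ 2 * 2 ^ (c s)` -/
def cloneN (c d B : ℕ) : ℕ :=
  ((Finset.range B).filter (fun i => decide ((2 ^ c + 2 ^ d - 1) ^ i < 2 ^ (c * i + 1)) = true)).card

theorem init_seg_aux (P : ℕ → Prop) [DecidablePred P] (hP : ∀ i, P (i + 1) → P i) (B : ℕ) :
    (Finset.range B).filter P = Finset.range ((Finset.range B).filter P).card := by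
  have hdown : ∀ i j, i ≤ j → P j → P i := by
    intro i j hij hj
    induction j, hij using Nat.le_induction with
    | base => exact hj
    | succ j _ ih => exact ih (hP j hj)
  induction B with
  | zero => simp
  | succ B ih =>
    by_cases h : P B
    · have h1 : (Finset.range (B + 1)).filter P = Finset.range (B + 1) := by
        rw [Finset.filter_eq_self]
        intro i hi
        exact hdown i B (by have := Finset.mem_range.1 hi; omega) h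
      rw [h1, Finset.card_range]
    · have h1 : (Finset.range (B + 1)).filter P = (Finset.range B).filter P := by
        rw [Finset.range_add_one, Finset.filter_insert, if_neg h]
      rw [h1]
      exact ih

theorem clone_step_aux (c d i : ℕ)
    (h : decide ((2 ^ c + 2 ^ d - 1) ^ (i + 1) < 2 ^ (c * (i + 1) + 1)) = true) :
    decide ((2 ^ c + 2 ^ d - 1) ^ i < 2 ^ (c * i + 1)) = true := by
  rw [decide_eq_true_eq] at h ⊢
  have hd : 1 ≤ 2 ^ d := Nat.one_le_two_pow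
  have hx : 2 ^ c ≤ 2 ^ c + 2 ^ d - 1 := by omega
  have h1 : (2 ^ c + 2 ^ d - 1) ^ i * 2 ^ c ≤ (2 ^ c + 2 ^ d - 1) ^ (i + 1) := by
    rw [pow_succ]
    exact Nat.mul_le_mul_left _ hx
  have h2 : 2 ^ (c * (i + 1) + 1) = 2 ^ (c * i + 1) * 2 ^ c := by
    rw [← pow_add]
    congr 1
    ring
  rw [h2] at h
  exact lt_of_mul_lt_mul_right (lt_of_le_of_lt h1 h) (Nat.zero_le _)

theorem clone_filter_aux (c d B : ℕ) :
    (Finset.range B).filter
      (fun i => decide ((2 ^ c + 2 ^ d - 1) ^ i < 2 ^ (c * i + 1)) = true) =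
      Finset.range (cloneN c d B) :=
  init_seg_aux _ (clone_step_aux c d) B

theorem cloneN_le_B (c d B : ℕ) : cloneN c d B ≤ B := by
  unfold cloneN
  refine (Finset.card_filter_le _ _).trans ?_
  rw [Finset.card_range]

theorem cloneN_pos (c d : ℕ) {B : ℕ} (hB : 1 ≤ B) : 1 ≤ cloneN c d B := by
  have h : 0 ∈ (Finset.range B).filter
      (fun i => decide ((2 ^ c + 2 ^ d - 1) ^ i < 2 ^ (c * i + 1)) = true) := by
    rw [Finset.mem_filter, Finset.mem_range, decide_eq_true_eq]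
    refine ⟨by omega, by simp⟩
  rw [clone_filter_aux, Finset.mem_range] at h
  exact h

theorem cloneN_ge {c d B : ℕ} (hd : 1 ≤ d) (hB : 2 ^ c ≤ B * (2 ^ d - 1)) :
    2 ^ (c * cloneN c d B + 1) ≤ (2 ^ c + 2 ^ d - 1) ^ cloneN c d B := by
  have hle := cloneN_le_B c d B
  rcases Nat.lt_or_ge (cloneN c d B) B with h | h
  · have h1 : cloneN c d B ∉ (Finset.range B).filter
        (fun i => decide ((2 ^ c + 2 ^ d - 1) ^ i < 2 ^ (c * i + 1)) = true) := by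
      rw [clone_filter_aux, Finset.mem_range]
      omega
    rw [Finset.mem_filter, Finset.mem_range, decide_eq_true_eq] at h1
    push Not at h1
    exact h1 h
  · have hs : cloneN c d B = B := by omega
    rw [hs]
    have hd1 : 1 ≤ 2 ^ d := Nat.one_le_two_pow
    have hd2 : 2 ≤ 2 ^ d := by
      calc 2 = 2 ^ 1 := rfl
        _ ≤ 2 ^ d := Nat.pow_le_pow_right (by norm_num) hd
    set e : ℕ := 2 ^ d - 1 with he
    have hx : 2 ^ c + 2 ^ d - 1 = 2 ^ c + e := by rw [he, Nat.add_sub_assoc hd1]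
    rw [hx]
    have hc0 : (0 : ℚ) < 2 ^ c := by positivity
    have hb : (1 : ℚ) + B * ((e : ℚ) / 2 ^ c) ≤ (1 + (e : ℚ) / 2 ^ c) ^ B :=
      one_add_mul_le_pow (by
        have : (0 : ℚ) ≤ (e : ℚ) / 2 ^ c := by positivity
        linarith) B
    have hB' : ((2 : ℚ)) ^ c ≤ B * e := by exact_mod_cast hB
    have h2 : (1 : ℚ) ≤ B * ((e : ℚ) / 2 ^ c) := by
      rw [← mul_div_assoc, le_div_iff₀ hc0, one_mul]
      exact hB'
    have h3 : ((2 : ℚ)) ^ (c * B + 1) ≤ ((2 : ℚ) ^ c + e) ^ B := by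
      have h4 : ((2 : ℚ) ^ c + e) ^ B = (2 ^ c) ^ B * (1 + (e : ℚ) / 2 ^ c) ^ B := by
        rw [← mul_pow]
        congr 1
        field_simp
      rw [h4, pow_succ, pow_mul]
      apply mul_le_mul_of_nonneg_left _ (by positivity)
      linarith
    exact_mod_cast h3

theorem cloneN_le {c d B : ℕ} (hB : 1 ≤ B) :
    (2 ^ c + 2 ^ d - 1) ^ cloneN c d B * 2 ^ c ≤
      2 ^ (c * cloneN c d B + 1) * (2 ^ c + 2 ^ d - 1) := by
  have h1 := cloneN_pos c d hB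
  obtain ⟨s, hs⟩ : ∃ s, cloneN c d B = s + 1 := ⟨cloneN c d B - 1, by omega⟩
  have h2 : s ∈ (Finset.range B).filter
      (fun i => decide ((2 ^ c + 2 ^ d - 1) ^ i < 2 ^ (c * i + 1)) = true) := by
    rw [clone_filter_aux, Finset.mem_range]
    omega
  rw [Finset.mem_filter, Finset.mem_range, decide_eq_true_eq] at h2
  rw [hs, pow_succ]
  calc (2 ^ c + 2 ^ d - 1) ^ s * (2 ^ c + 2 ^ d - 1) * 2 ^ c
      = (2 ^ c + 2 ^ d - 1) ^ s * ((2 ^ c + 2 ^ d - 1) * 2 ^ c) := by ring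
    _ ≤ 2 ^ (c * s + 1) * ((2 ^ c + 2 ^ d - 1) * 2 ^ c) := Nat.mul_le_mul_right _ h2.2.le
    _ = 2 ^ (c * (s + 1) + 1) * (2 ^ c + 2 ^ d - 1) := by
        have h3 : 2 ^ (c * (s + 1) + 1) = 2 ^ (c * s + 1) * 2 ^ c := by
          rw [← pow_add]
          congr 1
          ring
        rw [h3]
        ring

theorem gap_close {a b s d c k : ℕ} (hk : k ≤ d) (E : Fin a → Fin b → Prop) {τ : ℚ}
    (hτ0 : 0 ≤ τ) (hτ1 : τ ≤ 1)
    (h1 : (1 - τ) * 2 ^ (c * s) ≤ ((2 ^ c + 2 ^ d - 1 : ℕ) : ℚ) ^ s -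
      ((2 ^ c + 2 ^ (d - k) - 1 : ℕ) : ℚ) ^ s)
    (h2 : ((2 ^ c + 2 ^ d - 1 : ℕ) : ℚ) ^ s -
      ((2 ^ c + 2 ^ (d - k) - 1 : ℕ) : ℚ) ^ s ≤ (1 + τ) * 2 ^ (c * s))
    (h3 : (2 : ℚ) ^ (c * s) ≤ ((2 ^ c + 2 ^ (d - k) - 1 : ℕ) : ℚ) ^ s)
    (h4 : ((2 ^ c + 2 ^ (d - k) - 1 : ℕ) : ℚ) ^ s ≤ (1 + τ) * 2 ^ (c * s)) :
    (1 - τ) ^ a * (2 ^ (c * s * a) * (cnt E : ℚ)) ≤ cnt (gapRel s d c k E) ∧
      (cnt (gapRel s d c k E) : ℚ) ≤ (1 + τ) ^ a * (2 ^ (c * s * a) * (cnt E : ℚ)) := by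
  have hE := cnt_eq_sum E
  have hG := cnt_gap (s := s) (c := c) hk E
  have hyx : (2 ^ c + 2 ^ (d - k) - 1) ^ s ≤ (2 ^ c + 2 ^ d - 1) ^ s := by
    apply Nat.pow_le_pow_left
    have : 2 ^ (d - k) ≤ 2 ^ d := Nat.pow_le_pow_right (by norm_num) (Nat.sub_le _ _)
    omega
  set X : ℚ := ((2 ^ c + 2 ^ d - 1 : ℕ) : ℚ) ^ s with hX
  set Y : ℚ := ((2 ^ c + 2 ^ (d - k) - 1 : ℕ) : ℚ) ^ s with hY
  set M : ℚ := (2 : ℚ) ^ (c * s) with hM
  have hM0 : 0 < M := by positivity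
  have hcast : (cnt (gapRel s d c k E) : ℚ) = ∑ T : Finset (Fin a),
      (X - Y) ^ T.card * Y ^ (a - T.card) * 2 ^ {v | ∀ u ∈ T, ¬ E u v}.ncard := by
    rw [hG]
    push_cast [Nat.cast_sub hyx]
    rfl
  have hcastE : (cnt E : ℚ) = ∑ T : Finset (Fin a), (2 : ℚ) ^ {v | ∀ u ∈ T, ¬ E u v}.ncard := by
    rw [hE]
    push_cast
    rfl
  have hMa : (2 : ℚ) ^ (c * s * a) = M ^ a := by rw [hM, ← pow_mul]
  rw [hcast, hcastE, hMa, Finset.mul_sum, Finset.mul_sum, Finset.mul_sum]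
  have hcard : ∀ T : Finset (Fin a), T.card ≤ a := by
    intro T
    have := Finset.card_le_univ T
    rwa [Fintype.card_fin] at this
  have hXY0 : 0 ≤ X - Y := le_trans (mul_nonneg (by linarith) hM0.le) h1
  have hY0 : 0 ≤ Y := le_trans hM0.le h3
  constructor
  · apply Finset.sum_le_sum
    intro T _
    rw [← mul_assoc]
    apply mul_le_mul_of_nonneg_right _ (by positivity)
    have e1 : M ^ a = M ^ T.card * M ^ (a - T.card) := by
      rw [← pow_add, Nat.add_sub_cancel' (hcard T)]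
    calc (1 - τ) ^ a * M ^ a ≤ (1 - τ) ^ T.card * M ^ a := by
          apply mul_le_mul_of_nonneg_right _ (by positivity)
          exact pow_le_pow_of_le_one (by linarith) (by linarith) (hcard T)
      _ = ((1 - τ) * M) ^ T.card * M ^ (a - T.card) := by rw [e1, mul_pow]; ring
      _ ≤ (X - Y) ^ T.card * Y ^ (a - T.card) := by
          apply mul_le_mul
          · exact pow_le_pow_left₀ (mul_nonneg (by linarith) hM0.le) h1 _
          · exact pow_le_pow_left₀ hM0.le h3 _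
          · positivity
          · exact pow_nonneg hXY0 _
  · apply Finset.sum_le_sum
    intro T _
    rw [← mul_assoc]
    apply mul_le_mul_of_nonneg_right _ (by positivity)
    calc (X - Y) ^ T.card * Y ^ (a - T.card) ≤
          ((1 + τ) * M) ^ T.card * ((1 + τ) * M) ^ (a - T.card) := by
          apply mul_le_mul
          · exact pow_le_pow_left₀ hXY0 h2 _
          · exact pow_le_pow_left₀ hY0 h4 _
          · exact pow_nonneg hY0 _
          · exact pow_nonneg (mul_nonneg (by linarith) hM0.le) _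
      _ = (1 + τ) ^ a * M ^ a := by
          rw [← pow_add, Nat.add_sub_cancel' (hcard T), mul_pow]

theorem pow_le_aux {ρ : ℚ} (hρ : 0 ≤ ρ) (s : ℕ) (h : 2 * s * ρ ≤ 1) :
    (1 + ρ) ^ s ≤ 1 + 2 * s * ρ := by
  induction s with
  | zero => simp
  | succ s ih =>
    push_cast at h ⊢
    have hs0 : (0 : ℚ) ≤ s := Nat.cast_nonneg _
    have h1 : 2 * (s : ℚ) * ρ ≤ 1 := by nlinarith
    have h2 := ih h1
    rw [pow_succ]
    calc (1 + ρ) ^ s * (1 + ρ) ≤ (1 + 2 * s * ρ) * (1 + ρ) := by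
          apply mul_le_mul_of_nonneg_right h2
          linarith
      _ ≤ 1 + 2 * (s + 1) * ρ := by nlinarith [mul_le_mul_of_nonneg_right h1 hρ]

theorem eight_sq_le (m : ℕ) (hm : 12 ≤ m) : 8 * m ^ 2 ≤ 2 ^ m := by
  induction m, hm using Nat.le_induction with
  | base => norm_num
  | succ m hm ih =>
    rw [pow_succ 2 m]
    nlinarith

/-- **Closeness.** Here `m` is the scale, `2 ^ w` the inverse weight of an occupied block. -/
theorem close_num {a b d w m t : ℕ} (E : Fin a → Fin b → Prop) (hm : a + 2 * t + 12 ≤ m)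
    (hd : m ≤ d) (hw : m ^ 4 ≤ 2 ^ w) :
    |(cnt (gapRel (cloneN (d + w) d (2 * 2 ^ w)) d (d + w) m E) : ℚ) /
        2 ^ ((d + w) * cloneN (d + w) d (2 * 2 ^ w) * a) - cnt E| ≤ cnt E / (2 * t + 1) := by
  have hB1 : 1 ≤ 2 * 2 ^ w := by
    have : 1 ≤ 2 ^ w := Nat.one_le_two_pow
    omega
  have hd1 : 1 ≤ d := by omega
  have h2d : 2 ≤ 2 ^ d := by
    calc 2 = 2 ^ 1 := rfl
      _ ≤ 2 ^ d := Nat.pow_le_pow_right (by norm_num) hd1
  have hBc : 2 ^ (d + w) ≤ 2 * 2 ^ w * (2 ^ d - 1) := by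
    rw [pow_add]
    have : 2 ^ d ≤ 2 * (2 ^ d - 1) := by omega
    calc 2 ^ d * 2 ^ w ≤ 2 * (2 ^ d - 1) * 2 ^ w := Nat.mul_le_mul_right _ this
      _ = 2 * 2 ^ w * (2 ^ d - 1) := by ring
  have hge := cloneN_ge hd1 hBc
  have hle := cloneN_le (c := d + w) (d := d) hB1
  have hsB := cloneN_le_B (d + w) d (2 * 2 ^ w)
  set s := cloneN (d + w) d (2 * 2 ^ w) with hs
  set c := d + w with hc
  set M : ℚ := (2 : ℚ) ^ (c * s) with hM
  have hM0 : 0 < M := by positivity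
  -- the numbers
  have hm0 : (0 : ℚ) < m := by
    have : 0 < m := by omega
    exact_mod_cast this
  have hm12 : (12 : ℚ) ≤ m := by
    have : 12 ≤ m := by omega
    exact_mod_cast this
  have hmw : ((m : ℚ)) ^ 4 ≤ 2 ^ w := by exact_mod_cast hw
  have hmm : 8 * ((m : ℚ)) ^ 2 ≤ 2 ^ m := by exact_mod_cast eight_sq_le m (by omega)
  set τ : ℚ := 1 / (2 * (m : ℚ) ^ 2) with hτ
  have hτ0 : 0 ≤ τ := by positivity
  have hτ1 : τ ≤ 1 := by
    rw [hτ, div_le_one (by positivity)]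
    nlinarith
  -- bounds of `x` and `y`
  set x : ℚ := ((2 ^ c + 2 ^ d - 1 : ℕ) : ℚ) with hx
  set y : ℚ := ((2 ^ c + 2 ^ (d - m) - 1 : ℕ) : ℚ) with hy
  have hxle : x ≤ 2 ^ c * (1 + 1 / 2 ^ w) := by
    have e1 : 2 ^ c + 2 ^ d - 1 ≤ 2 ^ c + 2 ^ d := Nat.sub_le _ _
    have e2 : x ≤ ((2 ^ c + 2 ^ d : ℕ) : ℚ) := Nat.cast_le.2 e1
    refine e2.trans (le_of_eq ?_)
    push_cast
    rw [hc, pow_add]
    field_simp
  have hyge : (2 : ℚ) ^ c ≤ y := by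
    have e1 : 2 ^ c ≤ 2 ^ c + 2 ^ (d - m) - 1 := by
      have : 1 ≤ 2 ^ (d - m) := Nat.one_le_two_pow
      omega
    have e2 : ((2 ^ c : ℕ) : ℚ) ≤ y := Nat.cast_le.2 e1
    push_cast at e2
    exact e2
  have hyle : y ≤ 2 ^ c * (1 + 1 / 2 ^ (w + m)) := by
    have e1 : 2 ^ c + 2 ^ (d - m) - 1 ≤ 2 ^ c + 2 ^ (d - m) := Nat.sub_le _ _
    have e2 : y ≤ ((2 ^ c + 2 ^ (d - m) : ℕ) : ℚ) := Nat.cast_le.2 e1
    refine e2.trans (le_of_eq ?_)
    push_cast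
    have e3 : (2 : ℚ) ^ c = 2 ^ (d - m) * 2 ^ (w + m) := by
      rw [← pow_add]
      congr 1
      omega
    rw [mul_add, mul_one]
    congr 1
    rw [e3]
    field_simp
  have hX1 : 2 * M ≤ x ^ s := by
    have e1 : ((2 : ℚ)) ^ (c * s + 1) ≤ x ^ s := by
      rw [hx]
      exact_mod_cast hge
    rw [pow_succ] at e1
    linarith
  have hX2 : x ^ s ≤ 2 * M * (1 + 1 / 2 ^ w) := by
    have e1 : x ^ s * 2 ^ c ≤ 2 ^ (c * s + 1) * x := by
      rw [hx]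
      exact_mod_cast hle
    have e2 : (2 : ℚ) ^ (c * s + 1) * x ≤ 2 ^ (c * s + 1) * (2 ^ c * (1 + 1 / 2 ^ w)) :=
      mul_le_mul_of_nonneg_left hxle (by positivity)
    have e3 : x ^ s * 2 ^ c ≤ (2 * M * (1 + 1 / 2 ^ w)) * 2 ^ c := by
      refine e1.trans (e2.trans (le_of_eq ?_))
      rw [pow_succ]
      ring
    exact le_of_mul_le_mul_right e3 (by positivity)
  have hY1 : M ≤ y ^ s := by
    rw [hM, pow_mul]
    exact pow_le_pow_left₀ (by positivity) hyge s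
  have hsB' : (s : ℚ) ≤ 2 * 2 ^ w := by exact_mod_cast hsB
  have hsρ : 2 * (s : ℚ) * (1 / 2 ^ (w + m)) ≤ 4 / 2 ^ m := by
    rw [pow_add]
    calc 2 * (s : ℚ) * (1 / (2 ^ w * 2 ^ m)) ≤ 2 * (2 * 2 ^ w) * (1 / (2 ^ w * 2 ^ m)) := by
          apply mul_le_mul_of_nonneg_right _ (by positivity)
          linarith
      _ = 4 / 2 ^ m := by field_simp; norm_num
  have h4m : (4 : ℚ) / 2 ^ m ≤ τ := by
    rw [hτ, div_le_div_iff₀ (by positivity) (by positivity)]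
    linarith
  have hY2 : y ^ s ≤ M * (1 + 4 / 2 ^ m) := by
    calc y ^ s ≤ (2 ^ c * (1 + 1 / 2 ^ (w + m))) ^ s :=
          pow_le_pow_left₀ (le_trans (by positivity) hyge) hyle s
      _ = M * (1 + 1 / 2 ^ (w + m)) ^ s := by rw [mul_pow, hM, pow_mul]
      _ ≤ M * (1 + 2 * s * (1 / 2 ^ (w + m))) := by
          apply mul_le_mul_of_nonneg_left _ hM0.le
          apply pow_le_aux (by positivity)
          exact hsρ.trans (h4m.trans hτ1)
      _ ≤ M * (1 + 4 / 2 ^ m) := by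
          apply mul_le_mul_of_nonneg_left _ hM0.le
          linarith
  have h2w : (2 : ℚ) * (1 / 2 ^ w) ≤ τ := by
    rw [hτ, mul_one_div, div_le_div_iff₀ (by positivity) (by positivity)]
    have e0 : (4 : ℚ) ≤ (m : ℚ) ^ 2 := by nlinarith
    have e1 : 4 * (m : ℚ) ^ 2 ≤ (m : ℚ) ^ 4 := by
      calc 4 * (m : ℚ) ^ 2 ≤ (m : ℚ) ^ 2 * (m : ℚ) ^ 2 :=
            mul_le_mul_of_nonneg_right e0 (by positivity)
        _ = (m : ℚ) ^ 4 := by ring
    linarith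
  have g1 : (1 - τ) * M ≤ x ^ s - y ^ s := by
    have e1 : M * (4 / 2 ^ m) ≤ M * τ := mul_le_mul_of_nonneg_left h4m hM0.le
    nlinarith
  have g2 : x ^ s - y ^ s ≤ (1 + τ) * M := by
    have e1 : M * (2 * (1 / 2 ^ w)) ≤ M * τ := mul_le_mul_of_nonneg_left h2w hM0.le
    nlinarith
  have g4 : y ^ s ≤ (1 + τ) * M := by
    have e1 : M * (4 / 2 ^ m) ≤ M * τ := mul_le_mul_of_nonneg_left h4m hM0.le
    nlinarith
  obtain ⟨hlow, hup⟩ := gap_close (s := s) (c := c) hd E hτ0 hτ1 g1 g2 hY1 g4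
  -- final estimate
  have ham : (a : ℚ) ≤ m := by
    have : a ≤ m := by omega
    exact_mod_cast this
  have htm : (2 * t + 1 : ℚ) ≤ m := by
    have : 2 * t + 1 ≤ m := by omega
    exact_mod_cast this
  have ha0 : (0 : ℚ) ≤ a := Nat.cast_nonneg _
  have ht0 : (0 : ℚ) ≤ t := Nat.cast_nonneg _
  have h2a : 2 * (a : ℚ) * τ ≤ 1 / (2 * t + 1) := by
    rw [hτ, mul_one_div, div_le_div_iff₀ (by positivity) (by positivity)]
    nlinarith [mul_le_mul ham htm (by positivity) hm0.le]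
  have h2a1 : 2 * (a : ℚ) * τ ≤ 1 := by
    refine h2a.trans ?_
    rw [div_le_one (by positivity)]
    linarith
  have hup2 : (1 + τ) ^ a ≤ 1 + 1 / (2 * t + 1) := by
    have := pow_le_aux hτ0 a h2a1
    linarith
  have hlow2 : 1 - 1 / (2 * (t : ℚ) + 1) ≤ (1 - τ) ^ a := by
    have e1 : (1 : ℚ) + a * (-τ) ≤ (1 + -τ) ^ a := one_add_mul_le_pow (by linarith) a
    have e2 : (1 + -τ) = 1 - τ := by ring
    rw [e2] at e1
    have e3 : (a : ℚ) * τ ≤ 2 * a * τ := by nlinarith [mul_nonneg ha0 hτ0]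
    linarith
  set P : ℚ := (2 : ℚ) ^ (c * s * a) with hP
  have hP0 : 0 < P := by positivity
  have hcnt0 : (0 : ℚ) ≤ cnt E := Nat.cast_nonneg _
  rw [abs_le]
  constructor
  · have e1 : (1 - 1 / (2 * (t : ℚ) + 1)) * (cnt E : ℚ) ≤
        (cnt (gapRel s d c m E) : ℚ) / P := by
      rw [le_div_iff₀ hP0]
      refine le_trans ?_ hlow
      calc (1 - 1 / (2 * (t : ℚ) + 1)) * (cnt E : ℚ) * P =
            (1 - 1 / (2 * (t : ℚ) + 1)) * (P * cnt E) := by ring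
        _ ≤ (1 - τ) ^ a * (P * cnt E) := by
            apply mul_le_mul_of_nonneg_right hlow2
            positivity
    have e2 : (1 - 1 / (2 * (t : ℚ) + 1)) * (cnt E : ℚ) =
        cnt E - cnt E / (2 * t + 1) := by ring
    linarith
  · have e1 : (cnt (gapRel s d c m E) : ℚ) / P ≤ (1 + 1 / (2 * (t : ℚ) + 1)) * (cnt E : ℚ) := by
      rw [div_le_iff₀ hP0]
      refine le_trans hup ?_
      calc (1 + τ) ^ a * (P * cnt E) ≤ (1 + 1 / (2 * (t : ℚ) + 1)) * (P * cnt E) := by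
            apply mul_le_mul_of_nonneg_right hup2
            positivity
        _ = (1 + 1 / (2 * (t : ℚ) + 1)) * (cnt E : ℚ) * P := by ring
    have e2 : (1 + 1 / (2 * (t : ℚ) + 1)) * (cnt E : ℚ) =
        cnt E + cnt E / (2 * t + 1) := by ring
    linarith

end Pool.Agent.Lib.Pa7c826g
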