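import Pool.Agent.Lib.Pa7c826g.GadRed
import Pool.Agent.Lib.Pa7c826y.Mul

/-!
The reduction runs in polynomial time.

PROOFS.
`lt_pow2`: `f a = bval (t a)`, and `bval l < 2 ^ g` iff no digit of `l` at a position `≥ g` is `true`
(`testBit_bval`, `Nat.testBit_lt_two_pow`, `Nat.lt_pow_two_of_testBit`):
`PolyB.exists_lt` over `i < (t a).length` (`PolyN.length`) of `decide (g ≤ i) && (t a).getD i false`,
negated.
`poly_log`: `Nat.log 2 x = #{i < x | 2 ^ (i + 1) ≤ x}` and `2 ^ (i + 1) ≤ x ↔ 1 ≤ x / 2 ^ (i + 1)`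
(`PolyN.count`, `PolyN.divPow`); `poly_two_pow`: if `2 ^ j ≤ B` then
`2 ^ j = #{i < B | i / 2 ^ j = 0}`.
`poly_scG`, `poly_jG`, `poly_PG`, `poly_dG`, `poly_cG`: `poly_a`, `poly_b`, `poly_s`, `PolyN.pow`,
`PG_le`.
`poly_sG`: `PolyN.count` over `i < 2 * PG ^ q` with `lt_pow2`; the power by `PolyBin.powN`; the base
`2 ^ c + 2 ^ d - 1 = ∑_{i < d} 2 ^ i + 2 ^ c` is `PolyBin` (`PolyBin.sum_range`, `PolyBin.pow2`,
`PolyBin.add`), it is `< 2 ^ (c + 1)`.
`poly_redG`: `poly_inCode`; `PolyN.div`, `PolyN.mod` need `0 < d`, `0 < c`, `0 < s` (`cloneN_pos`);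
compare `poly_red4` in `Pa7c826z/Red.lean`.
-/

namespace Pool.Agent.Lib.Pa7c826g

open Pool.Agent.Lib.PolyTime Pool.Agent.Lib.Pa7c826 Pool.Agent.Lib.Pa7c826y

section

variable {α : Type*} {D : α → Prop} {ctx : List (α → List Bool)}

theorem lt_pow2 {f g : α → ℕ} (hf : PolyBin D ctx f) (hg : PolyN D ctx g) :
    PolyB D ctx (fun a => decide (f a < 2 ^ g a)) := by
  obtain ⟨t, h1, h2⟩ := hf
  have hn := PolyN.length h1
  have T := up (n := fun a => (t a).length) h1
  have L := last (D := D) (ctx := ctx) (n := fun a => (t a).length)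
  have G := upN (n := fun a => (t a).length) hg
  have hφ := (PolyB.le G L).and (PolyB.getD T L)
  refine (PolyB.exists_lt (φ := fun p : α × ℕ => decide (g p.1 ≤ p.2) && (t p.1).getD p.2 false)
    hn hφ).not.congr (fun a ha => ?_)
  rw [Bool.eq_iff_iff]
  simp only [Bool.not_eq_true', decide_eq_false_iff_not, decide_eq_true_eq, Bool.and_eq_true]
  rw [← h2 a ha]
  constructor
  · intro h
    refine Nat.lt_pow_two_of_testBit _ (fun i hi => ?_)
    rw [testBit_bval]
    by_contra hcon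
    have hcon' : (t a).getD i false = true := by simpa using hcon
    refine h ⟨i, ?_, hi, hcon'⟩
    by_contra hlen
    rw [List.getD_eq_default _ _ (by omega)] at hcon'
    exact absurd hcon' (by simp)
  · rintro h ⟨i, _, hi, hb⟩
    rw [← testBit_bval] at hb
    rw [Nat.testBit_lt_two_pow (h.trans_le (Nat.pow_le_pow_right (by norm_num) hi))] at hb
    exact absurd hb (by simp)

theorem poly_log {f : α → ℕ} (hf : PolyN D ctx f) : PolyN D ctx (fun a => Nat.log 2 (f a)) := by
  have F := upN (n := f) hf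
  have L := last (D := D) (ctx := ctx) (n := f)
  have h := PolyN.count (φ := fun p : α × ℕ => decide (1 ≤ f p.1 / 2 ^ (p.2 + 1))) hf
    (PolyB.le (PolyN.const 1) (PolyN.divPow F L.succ))
  refine h.congr (fun a ha => ?_)
  have e : (Finset.range (f a)).filter (fun i => decide (1 ≤ f a / 2 ^ (i + 1)) = true) =
      Finset.range (Nat.log 2 (f a)) := by
    ext i
    simp only [Finset.mem_filter, Finset.mem_range, decide_eq_true_eq]
    rw [Nat.le_div_iff_mul_le (by positivity), one_mul]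
    constructor
    · rintro ⟨h1, h2⟩
      exact (Nat.le_log_iff_pow_le (by norm_num) (by omega)).2 h2
    · intro h1
      have h3 : f a ≠ 0 := by
        rintro h3
        rw [h3] at h1
        simp at h1
      exact ⟨h1.trans (Nat.log_lt_self 2 h3),
        (Nat.le_log_iff_pow_le (by norm_num) h3).1 h1⟩
  rw [e, Finset.card_range]

theorem poly_two_pow {j B : α → ℕ} (hj : PolyN D ctx j) (hB : PolyN D ctx B)
    (h : ∀ a, D a → 2 ^ j a ≤ B a) : PolyN D ctx (fun a => 2 ^ j a) := by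
  have J := upN (n := B) hj
  have L := last (D := D) (ctx := ctx) (n := B)
  have h1 := PolyN.count (φ := fun p : α × ℕ => decide (p.2 / 2 ^ j p.1 = 0)) hB
    (PolyB.natEq (PolyN.divPow L J) (PolyN.const 0))
  refine h1.congr (fun a ha => ?_)
  have e : (Finset.range (B a)).filter (fun i => decide (i / 2 ^ j a = 0) = true) =
      Finset.range (2 ^ j a) := by
    ext i
    simp only [Finset.mem_filter, Finset.mem_range, decide_eq_true_eq]
    rw [Nat.div_eq_zero_iff_lt (by positivity)]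
    constructor
    · rintro ⟨_, h2⟩; exact h2
    · intro h2
      exact ⟨h2.trans_le (h a ha), h2⟩
  rw [e, Finset.card_range]

theorem poly_base {c d : α → ℕ} (hc : PolyN D ctx c) (hd : PolyN D ctx d) :
    PolyBin D ctx (fun a => 2 ^ c a + 2 ^ d a - 1) := by
  have L := last (D := D) (ctx := ctx) (n := d)
  have h1 : PolyBin D ctx (fun a => ∑ i ∈ Finset.range (d a), 2 ^ i) :=
    PolyBin.sum_range (f := fun p : α × ℕ => 2 ^ p.2) hd (PolyBin.pow2 L)
  refine (PolyBin.add (PolyBin.pow2 hc) h1).congr (fun a _ => ?_)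
  have h2 := Nat.geomSum_eq (m := 2) le_rfl (d a)
  have h3 : 1 ≤ 2 ^ d a := Nat.one_le_two_pow
  have h4 : (2 ^ d a - 1) / (2 - 1) = 2 ^ d a - 1 := by norm_num
  have h5 : 1 ≤ 2 ^ c a := Nat.one_le_two_pow
  simp only [h2, h4]
  omega

theorem poly_cloneN {c d B : α → ℕ} (hc : PolyN D ctx c) (hd : PolyN D ctx d)
    (hB : PolyN D ctx B) (hdc : ∀ a, D a → d a ≤ c a) :
    PolyN D ctx (fun a => cloneN (c a) (d a) (B a)) := by
  have C := upN (n := B) hc
  have L := last (D := D) (ctx := ctx) (n := B)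
  have W := PolyBin.up (n := B) (poly_base hc hd)
  have h1 := PolyBin.powN W L C.succ (fun p hp => by
    have h2 : 2 ^ d p.1 ≤ 2 ^ c p.1 := Nat.pow_le_pow_right (by norm_num) (hdc p.1 hp.1)
    have h3 : 1 ≤ 2 ^ d p.1 := Nat.one_le_two_pow
    show 2 ^ c p.1 + 2 ^ d p.1 - 1 < 2 ^ (c p.1 + 1)
    rw [pow_succ]
    omega)
  exact PolyN.count (φ := fun p : α × ℕ =>
    decide ((2 ^ c p.1 + 2 ^ d p.1 - 1) ^ p.2 < 2 ^ (c p.1 * p.2 + 1))) hB
    (lt_pow2 h1 (C.mul L).succ)

end

theorem poly_scG (D : BGraph × ℕ → Prop) :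
    PolyN D [fun x => inCode x.1 x.2] (fun x => scG x.1 x.2) := by
  have hw : PolyC D [fun x => inCode x.1 x.2] (fun x => inCode x.1 x.2) := PolyC.var (by simp)
  have ha := poly_a hw
  have hb := poly_b hw
  have ht := poly_s hw
  exact ((ha.add hb).add ((PolyN.const 2).mul ht)).add (PolyN.const 12)

theorem poly_jG (D : BGraph × ℕ → Prop) :
    PolyN D [fun x => inCode x.1 x.2] (fun x => jG x.1 x.2) :=
  (poly_log (PolyN.pow (poly_scG D) 4)).succ

theorem poly_PG (D : BGraph × ℕ → Prop) :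
    PolyN D [fun x => inCode x.1 x.2] (fun x => PG x.1 x.2) :=
  poly_two_pow (poly_jG D) ((PolyN.const 2).mul (PolyN.pow (poly_scG D) 4))
    (fun x _ => PG_le x.1 x.2)

theorem poly_dG (p : ℕ) (D : BGraph × ℕ → Prop) :
    PolyN D [fun x => inCode x.1 x.2] (fun x => dG p x.1 x.2) :=
  PolyN.pow (poly_PG D) p

theorem poly_cG (p q : ℕ) (D : BGraph × ℕ → Prop) :
    PolyN D [fun x => inCode x.1 x.2] (fun x => cG p q x.1 x.2) :=
  (poly_dG p D).add ((PolyN.const q).mul (poly_jG D))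

theorem poly_sG (p q : ℕ) (D : BGraph × ℕ → Prop) :
    PolyN D [fun x => inCode x.1 x.2] (fun x => sG p q x.1 x.2) :=
  poly_cloneN (poly_cG p q D) (poly_dG p D) ((PolyN.const 2).mul (PolyN.pow (poly_PG D) q))
    (fun _ _ => Nat.le_add_right _ _)

theorem poly_KG (p q : ℕ) (D : BGraph × ℕ → Prop) :
    PolyN D [fun x => inCode x.1 x.2] (fun x => KG p q x.1 x.2) := by
  have hw : PolyC D [fun x => inCode x.1 x.2] (fun x => inCode x.1 x.2) := PolyC.var (by simp)
  exact ((poly_cG p q D).mul (poly_sG p q D)).mul (poly_a hw)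

theorem PG_pos2 (G : BGraph) (t : ℕ) : 0 < PG G t := by unfold PG; positivity

theorem dG_pos (p : ℕ) (G : BGraph) (t : ℕ) : 0 < dG p G t := by
  have := PG_pos2 G t
  unfold dG
  positivity

theorem cG_pos (p q : ℕ) (G : BGraph) (t : ℕ) : 0 < cG p q G t := by
  have := dG_pos p G t
  unfold cG
  omega

theorem sG_pos (p q : ℕ) (G : BGraph) (t : ℕ) : 0 < sG p q G t := by
  have := PG_pos2 G t
  have h : 1 ≤ 2 * PG G t ^ q := by
    have : 0 < PG G t ^ q := by positivity
    omega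
  exact cloneN_pos _ _ h

theorem poly_redG (p q : ℕ) (D : BGraph × ℕ → Prop) :
    PolyC D [fun x => inCode x.1 x.2] (fun x => inCode (redG p q x.1 x.2) (2 * x.2)) := by
  have hw : PolyC D [fun x => inCode x.1 x.2] (fun x => inCode x.1 x.2) := PolyC.var (by simp)
  have ha := poly_a hw
  have hb := poly_b hw
  have ht := poly_s hw
  have h2t := (PolyN.const 2).mul ht
  have hs := poly_sG p q D
  have hd := poly_dG p D
  have hc := poly_cG p q D
  have hm := poly_scG D
  have hasc := (ha.mul hs).mul hc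
  let n1 : BGraph × ℕ → ℕ := fun x => x.1.a * sG p q x.1 x.2 * dG p x.1 x.2
  let n1' : BGraph × ℕ → ℕ := fun x => x.1.a * sG p q x.1 x.2 * cG p q x.1 x.2 + x.1.b
  have hn1 : PolyN D [fun x => inCode x.1 x.2] n1 := (ha.mul hs).mul hd
  have hn1' : PolyN D [fun x => inCode x.1 x.2] n1' := hasc.add hb
  refine poly_inCode (a := n1) (b := n1') hn1 hn1' h2t ?_
  have S1 := upN (n := n1) hs
  have D1 := upN (n := n1) hd
  have C1 := upN (n := n1) hc
  have M1 := upN (n := n1) hm
  have A1 := upN (n := n1) hasc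
  have W1 := up (n := n1) hw
  have I1 := last (D := D) (ctx := [fun x => inCode x.1 x.2]) (n := n1)
  let n2 : (BGraph × ℕ) × ℕ → ℕ := fun p => n1' p.1
  have S2 := upN (n := n2) S1
  have D2 := upN (n := n2) D1
  have C2 := upN (n := n2) C1
  have M2 := upN (n := n2) M1
  have A2 := upN (n := n2) A1
  have W2 := up (n := n2) W1
  have I2 := upN (n := n2) I1
  have J2 := last (D := fun p : (BGraph × ℕ) × ℕ => D p.1 ∧ p.2 < n1 p.1)
    (ctx := PolyTime.lift [fun x : BGraph × ℕ => inCode x.1 x.2] ++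
      [fun p : (BGraph × ℕ) × ℕ => un p.2]) (n := n2)
  have q1 := PolyN.div I2 D2 (fun x _ => dG_pos p x.1.1.1 x.1.1.2)
  have q2 := PolyN.div J2 C2 (fun x _ => cG_pos p q x.1.1.1 x.1.1.2)
  have q3 := PolyN.mod I2 D2 (fun x _ => dG_pos p x.1.1.1 x.1.1.2)
  have q4 := PolyN.div q1 S2 (fun x _ => sG_pos p q x.1.1.1 x.1.1.2)
  have J2' := PolyN.sub J2 A2
  exact ((PolyB.lt J2 A2).and (PolyB.natEq q1 q2)).or
    ((PolyB.le A2 J2).and ((PolyB.lt q3 M2).and (poly_F W2 q4 J2')))

end Pool.Agent.Lib.Pa7c826g
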