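import Pool.Agent.Lib.Pa7c826g.GadNum
import Pool.Agent.Lib.Pa7c826z.Red
import Pool.Agent.Lib.Pa7c826g.Defs

/-!
The reduction at the level of graphs.

PROOFS.
`FG_iff`: `finProdFinEquiv (x, y) = y + n * x`, so the left vertex `((u, i), x)` has the number
`x + d * (i + s * u)` (`eqGL`), the right vertices have the numbers `z + c * (i + s * u)` and
`a * s * c + v` (`eqGR`); quotients and remainders as in the proof of `F4_iff`
(`Pa7c826z/Red.lean`), `F2_iff` (`Pa7c826x/Red.lean`). `G.F` is `BGraph.F` (`Pa7c826/NearHalf.lean`),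
`BGraph.F_eq`.
`numIndep_redG`: `numIndep_mkGraph`. `close_redG`: `close_num` with `E u v := G.E u v = true`,
`numIndep_bip`; `scG_pow_lt : m ^ 4 < 2 ^ jG` (`Nat.lt_pow_succ_log_self`), `w = q * jG`, `q ≥ 1`.
`rowDeg_redG`, `colDeg_redG`: `rowDeg_mkGraph`, `colDeg_mkGraph` and cardinalities
(`{y | gapRel .. x y} ⊇ Sum.inl '' {y | x.1 = y.1}` with `c` elements; for the column of
`.inl y`: exactly `d` elements; of `.inr v`: at most `a * s * m` elements, those `((u, i), x)` with
`x < m`). `s ≤ 2 * P ^ q` (`cloneN_le_B`), `a * (2 P^q) * m ≤ P ^ (q + 1) ≤ P ^ p = d` as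
`2 m^2 ≤ m^4 < P`, `q < p`.
-/

namespace Pool.Agent.Lib.Pa7c826g

open Pool.Agent.Lib.Pa7c826 Pool.Agent.Lib.Pa7c826y

/-- scale -/
def scG (G : BGraph) (t : ℕ) : ℕ := G.a + G.b + 2 * t + 12

/-- number of binary digits of the fourth power of the scale -/
def jG (G : BGraph) (t : ℕ) : ℕ := Nat.log 2 (scG G t ^ 4) + 1

/-- power of two above the fourth power of the scale -/
def PG (G : BGraph) (t : ℕ) : ℕ := 2 ^ jG G t

/-- left size of the blocks -/
def dG (p : ℕ) (G : BGraph) (t : ℕ) : ℕ := PG G t ^ p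

/-- right size of the blocks -/
def cG (p q : ℕ) (G : BGraph) (t : ℕ) : ℕ := dG p G t + q * jG G t

/-- number of clones -/
def sG (p q : ℕ) (G : BGraph) (t : ℕ) : ℕ := cloneN (cG p q G t) (dG p G t) (2 * PG G t ^ q)

/-- the adjacency function -/
def FG (a s d c k : ℕ) (F : ℕ → ℕ → Bool) (I J : ℕ) : Bool :=
  (decide (J < a * s * c) && decide (I / d = J / c)) ||
    (decide (a * s * c ≤ J) && (decide (I % d < k) && F (I / d / s) (J - a * s * c)))

/-- numbering of the left vertices -/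
def eqGL (a s d : ℕ) : (Fin a × Fin s) × Fin d ≃ Fin (a * s * d) :=
  (Equiv.prodCongr finProdFinEquiv (Equiv.refl _)).trans finProdFinEquiv

/-- numbering of the right vertices -/
def eqGR (a b s c : ℕ) : ((Fin a × Fin s) × Fin c) ⊕ Fin b ≃ Fin (a * s * c + b) :=
  (Equiv.sumCongr (eqGL a s c) (Equiv.refl _)).trans finSumFinEquiv

/-- the new graph -/
def redG (p q : ℕ) (G : BGraph) (t : ℕ) : BGraph :=
  mkGraph (G.a * sG p q G t * dG p G t) (G.a * sG p q G t * cG p q G t + G.b)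
    (FG G.a (sG p q G t) (dG p G t) (cG p q G t) (scG G t) G.F)

/-- the exponent -/
def KG (p q : ℕ) (G : BGraph) (t : ℕ) : ℕ := cG p q G t * sG p q G t * G.a

theorem eqGL_val {a s d : ℕ} (x : (Fin a × Fin s) × Fin d) :
    (eqGL a s d x : ℕ) = x.2 + d * (x.1.2 + s * x.1.1) := by
  simp [eqGL, finProdFinEquiv]

theorem eqGL_div {a s d : ℕ} (x : (Fin a × Fin s) × Fin d) :
    (eqGL a s d x : ℕ) / d = x.1.2 + s * x.1.1 := by
  have h := x.2.2
  rw [eqGL_val, Nat.add_mul_div_left _ _ (by omega), Nat.div_eq_of_lt h, Nat.zero_add]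

theorem eqGL_mod {a s d : ℕ} (x : (Fin a × Fin s) × Fin d) :
    (eqGL a s d x : ℕ) % d = x.2 := by
  have h := x.2.2
  rw [eqGL_val, Nat.add_mul_mod_self_left, Nat.mod_eq_of_lt h]

theorem eqGL_div_div {a s d : ℕ} (x : (Fin a × Fin s) × Fin d) :
    (eqGL a s d x : ℕ) / d / s = x.1.1 := by
  have h := x.1.2.2
  rw [eqGL_div, Nat.add_mul_div_left _ _ (by omega), Nat.div_eq_of_lt h, Nat.zero_add]

theorem eqGR_inl {a b s c : ℕ} (y : (Fin a × Fin s) × Fin c) :
    (eqGR a b s c (Sum.inl y) : ℕ) = eqGL a s c y := by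
  simp [eqGR]

theorem eqGR_inr {a b s c : ℕ} (v : Fin b) :
    (eqGR a b s c (Sum.inr v) : ℕ) = a * s * c + v := by
  simp [eqGR]

theorem FG_iff {a b s d c k : ℕ} (F : ℕ → ℕ → Bool)
    (x : (Fin a × Fin s) × Fin d) (y : ((Fin a × Fin s) × Fin c) ⊕ Fin b) :
    gapRel s d c k (fun (u : Fin a) (v : Fin b) => F u v = true) x y ↔
      FG a s d c k F (eqGL a s d x) (eqGR a b s c y) = true := by
  rcases y with y | v
  · have h1 := (eqGL a s c y).2
    have h2 : (x.1.2 + s * x.1.1 : ℕ) = y.1.2 + s * y.1.1 ↔ x.1 = y.1 := by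
      constructor
      · intro h
        apply (finProdFinEquiv (m := a) (n := s)).injective
        apply Fin.ext
        simpa [finProdFinEquiv] using h
      · intro h
        rw [h]
    simp only [gapRel, FG, eqGR_inl, eqGL_div, Bool.or_eq_true, Bool.and_eq_true, decide_eq_true_eq, h1, true_and,
      h2]
    constructor
    · intro h
      exact Or.inl h
    · rintro (h | h)
      · exact h
      · omega
  · simp only [gapRel, FG, eqGR_inr, eqGL_div_div, eqGL_mod, Bool.or_eq_true, Bool.and_eq_true, decide_eq_true_eq,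
      Nat.add_sub_cancel_left, Nat.le_add_right, true_and]
    constructor
    · rintro ⟨h1, h2⟩
      exact Or.inr ⟨h2, h1⟩
    · rintro (h | h)
      · omega
      · exact ⟨h.2, h.1⟩

theorem scG_pow_lt (G : BGraph) (t : ℕ) : scG G t ^ 4 < PG G t :=
  Nat.lt_pow_succ_log_self (by norm_num) _

theorem PG_le (G : BGraph) (t : ℕ) : PG G t ≤ 2 * scG G t ^ 4 := by
  unfold PG jG
  rw [pow_succ, mul_comm]
  refine Nat.mul_le_mul_left _ (Nat.pow_log_le_self 2 ?_)
  have : 0 < scG G t := by unfold scG; omega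
  positivity

theorem numIndep_redG (p q : ℕ) (G : BGraph) (t : ℕ) :
    numIndep (redG p q G t).graph =
      cnt (gapRel (sG p q G t) (dG p G t) (cG p q G t) (scG G t)
        (fun (u : Fin G.a) (v : Fin G.b) => G.E u v = true)) := by
  have h := numIndep_mkGraph (eqGL G.a (sG p q G t) (dG p G t)) (eqGR G.a G.b (sG p q G t) (cG p q G t))
    (FG_iff (a := G.a) (b := G.b) (s := sG p q G t) (d := dG p G t) (c := cG p q G t) (k := scG G t) G.F)
  have e : (fun (u : Fin G.a) (v : Fin G.b) => G.F u v = true) = fun (u : Fin G.a) (v : Fin G.b) => G.E u v = true := by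
    funext u v
    rw [G.F_eq]
  rw [e] at h
  exact h

theorem le_scG (G : BGraph) (t : ℕ) : 12 ≤ scG G t ∧ G.a ≤ scG G t := by
  unfold scG
  omega

theorem PG_pos (G : BGraph) (t : ℕ) : 0 < PG G t := by
  unfold PG
  positivity

theorem scG_lt_PG (G : BGraph) (t : ℕ) : scG G t < PG G t := by
  refine lt_of_le_of_lt ?_ (scG_pow_lt G t)
  exact Nat.le_self_pow (by norm_num) _

theorem close_redG {p q : ℕ} (hq : 1 ≤ q) (hp : q < p) (G : BGraph) (t : ℕ) :
    |(numIndep (redG p q G t).graph : ℚ) / 2 ^ KG p q G t - numIndep G.graph| ≤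
      numIndep G.graph / (2 * t + 1) := by
  have hd : scG G t ≤ dG p G t := by
    unfold dG
    calc scG G t ≤ PG G t := (scG_lt_PG G t).le
      _ ≤ PG G t ^ p := Nat.le_self_pow (by omega) _
  have hw : scG G t ^ 4 ≤ 2 ^ (q * jG G t) := by
    calc scG G t ^ 4 ≤ PG G t := (scG_pow_lt G t).le
      _ ≤ 2 ^ (q * jG G t) := Nat.pow_le_pow_right (by norm_num) (Nat.le_mul_of_pos_left _ hq)
  have h := close_num (a := G.a) (b := G.b) (d := dG p G t) (w := q * jG G t) (m := scG G t) (t := t)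
    (fun u v => G.E u v = true) (by unfold scG; omega) hd hw
  have e1 : (2 : ℕ) * 2 ^ (q * jG G t) = 2 * PG G t ^ q := by
    unfold PG
    rw [← pow_mul, mul_comm q]
  rw [e1] at h
  have e2 : numIndep G.graph = cnt (fun (u : Fin G.a) (v : Fin G.b) => G.E u v = true) := by
    unfold BGraph.graph
    rw [numIndep_bip]
  rw [numIndep_redG, e2]
  exact h

theorem rowDeg_redG {p q : ℕ} (G : BGraph) (t : ℕ) (i : Fin (redG p q G t).a) :
    cG p q G t ≤ (redG p q G t).rowDeg i := by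
  revert i
  show ∀ i : Fin (G.a * sG p q G t * dG p G t), cG p q G t ≤ (redG p q G t).rowDeg i
  intro i
  obtain ⟨x, rfl⟩ := (eqGL G.a (sG p q G t) (dG p G t)).surjective i
  have h1 : (redG p q G t).rowDeg (eqGL G.a (sG p q G t) (dG p G t) x) = _ :=
    rowDeg_mkGraph (eqGL G.a (sG p q G t) (dG p G t)) (eqGR G.a G.b (sG p q G t) (cG p q G t))
      (FG_iff (a := G.a) (b := G.b) (s := sG p q G t) (d := dG p G t) (c := cG p q G t) (k := scG G t) G.F) x
  rw [h1]
  let f : Fin (cG p q G t) → ((Fin G.a × Fin (sG p q G t)) × Fin (cG p q G t)) ⊕ Fin G.b := fun z => Sum.inl (x.1, z)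
  have hf : Function.Injective f := by
    intro z z' h
    have := Sum.inl_injective h
    exact (Prod.mk.inj this).2
  have h2 : (f '' Set.univ).ncard = cG p q G t := by
    rw [Set.ncard_image_of_injective _ hf, Set.ncard_univ, Nat.card_fin]
  have h3 : f '' Set.univ ⊆ {y | gapRel (sG p q G t) (dG p G t) (cG p q G t) (scG G t)
      (fun (u : Fin G.a) (v : Fin G.b) => G.F u v = true) x y} := by
    rintro _ ⟨z, -, rfl⟩
    rfl
  have h4 := Set.ncard_le_ncard h3 (Set.toFinite _)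
  rw [h2] at h4
  exact h4

theorem card_small {a s d k : ℕ} (hk : k ≤ d) :
    {x : (Fin a × Fin s) × Fin d | (x.2 : ℕ) < k}.ncard ≤ a * s * k := by
  let g : (Fin a × Fin s) × Fin k → (Fin a × Fin s) × Fin d := fun x => (x.1, ⟨x.2, lt_of_lt_of_le x.2.2 hk⟩)
  have h1 : {x : (Fin a × Fin s) × Fin d | (x.2 : ℕ) < k} ⊆ g '' Set.univ := by
    rintro ⟨x, z⟩ hx
    exact ⟨(x, ⟨z, hx⟩), Set.mem_univ _, rfl⟩
  calc {x : (Fin a × Fin s) × Fin d | (x.2 : ℕ) < k}.ncard ≤ (g '' Set.univ).ncard :=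
        Set.ncard_le_ncard h1 (Set.toFinite _)
    _ ≤ (Set.univ : Set ((Fin a × Fin s) × Fin k)).ncard := Set.ncard_image_le Set.finite_univ
    _ = a * s * k := by
      rw [Set.ncard_univ, Nat.card_prod, Nat.card_prod, Nat.card_fin, Nat.card_fin, Nat.card_fin]

theorem bound_d {p q : ℕ} (hp : q < p) (G : BGraph) (t : ℕ) :
    G.a * sG p q G t * scG G t ≤ dG p G t := by
  obtain ⟨h12, ha⟩ := le_scG G t
  have hs : sG p q G t ≤ 2 * PG G t ^ q := cloneN_le_B _ _ _
  have hP := PG_pos G t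
  have h4 := scG_pow_lt G t
  have h2 : 2 * scG G t ^ 2 ≤ PG G t := by
    have h5 : 2 * scG G t ^ 2 ≤ scG G t ^ 4 := by
      have h6 : 2 ≤ scG G t ^ 2 := by nlinarith
      calc 2 * scG G t ^ 2 ≤ scG G t ^ 2 * scG G t ^ 2 := Nat.mul_le_mul_right _ h6
        _ = scG G t ^ 4 := by ring
    omega
  calc G.a * sG p q G t * scG G t ≤ scG G t * (2 * PG G t ^ q) * scG G t := by gcongr
    _ = (2 * scG G t ^ 2) * PG G t ^ q := by ring
    _ ≤ PG G t * PG G t ^ q := Nat.mul_le_mul_right _ h2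
    _ = PG G t ^ (q + 1) := by ring
    _ ≤ PG G t ^ p := Nat.pow_le_pow_right hP hp
    _ = dG p G t := rfl

theorem colDeg_redG {p q : ℕ} (hq : 1 ≤ q) (hp : q < p) (G : BGraph) (t : ℕ)
    (j : Fin (redG p q G t).b) : (redG p q G t).colDeg j ≤ dG p G t := by
  revert j
  show ∀ j : Fin (G.a * sG p q G t * cG p q G t + G.b), (redG p q G t).colDeg j ≤ dG p G t
  intro j
  obtain ⟨y, rfl⟩ := (eqGR G.a G.b (sG p q G t) (cG p q G t)).surjective j
  have h1 : (redG p q G t).colDeg (eqGR G.a G.b (sG p q G t) (cG p q G t) y) = _ :=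
    colDeg_mkGraph (eqGL G.a (sG p q G t) (dG p G t)) (eqGR G.a G.b (sG p q G t) (cG p q G t))
      (FG_iff (a := G.a) (b := G.b) (s := sG p q G t) (d := dG p G t) (c := cG p q G t) (k := scG G t) G.F) y
  rw [h1]
  rcases y with y | v
  · let f : Fin (dG p G t) → (Fin G.a × Fin (sG p q G t)) × Fin (dG p G t) := fun z => (y.1, z)
    have h2 : {x | gapRel (sG p q G t) (dG p G t) (cG p q G t) (scG G t)
        (fun (u : Fin G.a) (v : Fin G.b) => G.F u v = true) x (Sum.inl y)} ⊆ f '' Set.univ := by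
      rintro ⟨x, z⟩ hx
      have hx' : x = y.1 := hx
      exact ⟨z, Set.mem_univ _, by rw [hx']⟩
    refine (Set.ncard_le_ncard h2 (Set.finite_univ.image f)).trans ?_
    have h3 : (f '' Set.univ).ncard ≤ (Set.univ : Set (Fin (dG p G t))).ncard :=
      Set.ncard_image_le Set.finite_univ
    rw [Set.ncard_univ, Nat.card_fin] at h3
    exact h3
  · have hk : scG G t ≤ dG p G t := by
      unfold dG
      calc scG G t ≤ PG G t := (scG_lt_PG G t).le
        _ ≤ PG G t ^ p := Nat.le_self_pow (by omega) _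
    have h2 : {x | gapRel (sG p q G t) (dG p G t) (cG p q G t) (scG G t)
        (fun (u : Fin G.a) (v : Fin G.b) => G.F u v = true) x (Sum.inr v)} ⊆
        {x : (Fin G.a × Fin (sG p q G t)) × Fin (dG p G t) | (x.2 : ℕ) < scG G t} := by
      intro x hx
      exact hx.2
    exact ((Set.ncard_le_ncard h2 (Set.toFinite _)).trans (card_small hk)).trans (bound_d hp G t)

end Pool.Agent.Lib.Pa7c826g
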