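import Pool.Agent.Lib.Pa7c826g.GadClass
import Pool.Agent.Lib.Pa7c826g.GadPoly

/-!
Hardness below the threshold.
-/

namespace Pool.Agent.Lib.Pa7c826g

open Pool.Agent.Lib.Pa7c826

/-- Hardness below the threshold. -/
theorem hard_gap {δ γ : ℝ} (h0 : 0 ≤ δ) (h1 : δ < 1) (h2 : γ < 1 - δ) (h3 : γ < 1 / 2) :
    HasFPRAS (DegreeGap δ γ) ↔ HasFPRAS (fun _ => True) := by
  obtain ⟨p, q, hq, hp, hδ, hγ⟩ := exists_pq h0 h1 h2 h3
  refine ⟨fun H => ?_, HasFPRAS.mono fun _ _ => trivial⟩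
  exact HasFPRAS.transfer2 (redG p q) (KG p q) (poly_redG p q _) (poly_KG p q _)
    (fun G t _ _ => class_redG hq hp h0 hδ hγ G t)
    (fun G t _ _ => close_redG hq hp G t) H

end Pool.Agent.Lib.Pa7c826g
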