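import Pool.Agent.Lib.Pa7c826g.Branch

/-!
The leaves: a set without heavy vertices and with a large greedy matching has few independent sets.

PROOFS.
`edges_lower`: with `e = ∑_{u ∈ S, p u} dg adj S u`: every left `u ∈ S` has `dg adj (range n) u =
dg adj S u + (neighbours among the right vertices outside S)`; sum over `u`, the edges to the right
vertices outside `S` number at most `D * (β - |S_R|)`, `β = ((range n).filter (¬p)).card` (double
counting; compare the proof of `superSat_of_degrees` in `Pa7c826/Approx.lean`, which contains all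
these steps): `M |S_L| + D |S_R| ≤ e + D β`.
`edges_half`: `∑_{v ∈ S} dg adj S v = 2 e` (double counting between `S_L` and `S_R`).
`light_card`: let `W = cov n adj S`, `|W| = 2 m` (`rest_spec`). Lightness (`light_le`): `20 e ≤ M |S_L|`.
`sum_dg_le` (with `cov_union_rest`, `cov_disjoint_rest`) gives `2 e ≤ 2 ∑_{w ∈ W} dg adj S w`, so
`20 e ≤ 2 m M`, `10 e ≤ m M`. Claim `10 |S| ≤ 10 β + m`. From `edges_lower`:
`D (|S| - β) ≤ e - (M - D) |S_L|`, and `M |S_L| ≥ 20 e` gives, multiplying by `M`: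
`M D (|S| - β) ≤ M e - 20 (M - D) e = e (20 D - 19 M) ≤ D e` (as `D ≤ M`), so `M (|S| - β) ≤ e` and
`10 M (|S| - β) ≤ m M`. Work in `ℤ` (`nlinarith` or explicit products), `1 ≤ D ≤ M`.
`leaf_err`: as the second half of `leaf_error` in `Pa7c826/Leaf.lean` (from `h8 : q ^ 5 ≤ 2 ^ m` on):
`ind S ≤ 3^m 2^|rest|`, `|rest| + 2 m = |S|`, `5 |S| ≤ 5 β + m`.
-/

namespace Pool.Agent.Lib.Pa7c826g

open Finset Pool.Agent.Lib.Pa7c826

variable {n M D : ℕ} {adj : ℕ → ℕ → Bool} {p : ℕ → Prop} [DecidablePred p]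

theorem LeafErr_dc (hs : ∀ u v, adj u v = adj v u) (P Q : Finset ℕ) :
    ∑ u ∈ P, dg adj Q u = ∑ v ∈ Q, dg adj P v := by
  have := sum_card_bipartiteAbove_eq_sum_card_bipartiteBelow (s := P) (t := Q)
    (fun v w => adj v w = true)
  unfold bipartiteAbove bipartiteBelow at this
  unfold dg
  rw [this]
  refine sum_congr rfl fun w _ => ?_
  congr 1
  ext u
  simp only [mem_filter]
  rw [hs]

theorem LeafErr_mono {P Q : Finset ℕ} (u : ℕ) (h : P ⊆ Q) : dg adj P u ≤ dg adj Q u :=
  card_le_card (filter_subset_filter _ h)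

theorem edges_lower (hs : ∀ u v, adj u v = adj v u)
    (hbip : ∀ u v, adj u v = true → v < n ∧ (p u ↔ ¬ p v))
    (hM : ∀ u < n, p u → M ≤ dg adj (range n) u)
    (hD : ∀ v < n, ¬ p v → dg adj (range n) v ≤ D) {S : Finset ℕ} (hS : S ⊆ range n) :
    M * (S.filter p).card + D * (S.filter (fun v => ¬ p v)).card ≤
      ∑ u ∈ S.filter p, dg adj S u + D * ((range n).filter (fun v => ¬ p v)).card := by
  set X := S.filter p with hX
  set Y := S.filter (fun v => ¬ p v) with hY
  set β := ((range n).filter (fun v => ¬ p v)).card with hβ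
  set Bc := (range n).filter (fun v => ¬ p v ∧ v ∉ S) with hBc
  have hXdeg : ∀ u ∈ X, dg adj (range n) u = dg adj S u + dg adj Bc u := by
    intro u hu
    have hua : p u := (mem_filter.1 hu).2
    unfold dg
    rw [← card_union_of_disjoint]
    · congr 1
      ext v
      simp only [mem_filter, mem_union, hBc, mem_range]
      constructor
      · rintro ⟨h1, h2⟩
        have h3 : ¬ p v := (hbip u v h2).2.1 hua
        by_cases h4 : v ∈ S
        · exact Or.inl ⟨h4, h2⟩
        · exact Or.inr ⟨⟨h1, h3, h4⟩, h2⟩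
      · rintro (⟨h1, h2⟩ | ⟨⟨h1, _, _⟩, h2⟩)
        · exact ⟨mem_range.1 (hS h1), h2⟩
        · exact ⟨h1, h2⟩
    · rw [disjoint_left]
      intro v hv hv'
      simp only [mem_filter, hBc] at hv hv'
      exact hv'.1.2.2 hv.1
  have hBdeg : ∑ u ∈ X, dg adj Bc u ≤ D * Bc.card := by
    rw [LeafErr_dc hs X Bc, mul_comm, ← smul_eq_mul, ← sum_const]
    refine sum_le_sum fun v hv => ?_
    simp only [hBc, mem_filter, mem_range] at hv
    refine (LeafErr_mono v ?_).trans (hD v hv.1 hv.2.1)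
    exact (filter_subset _ _).trans hS
  have hBcard : Bc.card + Y.card ≤ β := by
    rw [← card_union_of_disjoint]
    · have : Bc ∪ Y ⊆ (range n).filter (fun v => ¬ p v) := by
        intro v hv
        rw [mem_union] at hv
        rw [mem_filter]
        rcases hv with hv | hv
        · simp only [hBc, mem_filter] at hv
          exact ⟨hv.1, hv.2.1⟩
        · rw [hY, mem_filter] at hv
          exact ⟨hS hv.1, hv.2⟩
      exact card_le_card this
    · rw [disjoint_left]
      intro v hv hv'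
      simp only [hBc, hY, mem_filter] at hv hv'
      exact hv.2.2 hv'.1
  have hXtot : M * X.card ≤ ∑ u ∈ X, dg adj S u + D * Bc.card := by
    calc M * X.card = ∑ u ∈ X, M := by rw [sum_const, smul_eq_mul, mul_comm]
      _ ≤ ∑ u ∈ X, dg adj (range n) u := by
          refine sum_le_sum fun u hu => hM u ?_ (mem_filter.1 hu).2
          exact mem_range.1 (hS (mem_filter.1 hu).1)
      _ = ∑ u ∈ X, dg adj S u + ∑ u ∈ X, dg adj Bc u := by
          rw [← sum_add_distrib]
          exact sum_congr rfl hXdeg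
      _ ≤ _ := Nat.add_le_add_left hBdeg _
  have h1 := Nat.mul_le_mul_left D hBcard
  rw [Nat.mul_add] at h1
  omega

theorem edges_half (hs : ∀ u v, adj u v = adj v u)
    (hbip : ∀ u v, adj u v = true → v < n ∧ (p u ↔ ¬ p v)) (S : Finset ℕ) :
    ∑ v ∈ S, dg adj S v = 2 * ∑ u ∈ S.filter p, dg adj S u := by
  rw [← sum_filter_add_sum_filter_not S p, two_mul]
  congr 1
  have h1 : ∀ v ∈ S.filter (fun v => ¬ p v), dg adj S v = dg adj (S.filter p) v := by
    intro v hv
    unfold dg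
    congr 1
    ext u
    simp only [mem_filter] at hv ⊢
    constructor
    · rintro ⟨h1, h2⟩
      rw [hs] at h2
      refine ⟨⟨h1, (hbip u v h2).2.2 hv.2⟩, by rw [hs]; exact h2⟩
    · rintro ⟨⟨h1, _⟩, h2⟩
      exact ⟨h1, h2⟩
  have h2 : ∀ u ∈ S.filter p, dg adj S u = dg adj (S.filter (fun v => ¬ p v)) u := by
    intro u hu
    unfold dg
    congr 1
    ext v
    simp only [mem_filter] at hu ⊢
    constructor
    · rintro ⟨h1, h2⟩
      exact ⟨⟨h1, (hbip u v h2).2.1 hu.2⟩, h2⟩
    · rintro ⟨⟨h1, _⟩, h2⟩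
      exact ⟨h1, h2⟩
  rw [sum_congr rfl h1, sum_congr rfl h2, LeafErr_dc hs]

theorem light_card (hs : ∀ u v, adj u v = adj v u) (hl : ∀ u, adj u u = false)
    (hbip : ∀ u v, adj u v = true → v < n ∧ (p u ↔ ¬ p v)) (hD1 : 1 ≤ D) (hDM : D ≤ M)
    (hM : ∀ u < n, p u → M ≤ dg adj (range n) u)
    (hD : ∀ v < n, ¬ p v → dg adj (range n) v ≤ D) {S : Finset ℕ} (hS : S ⊆ range n)
    (hlight : ∀ u, heavyG M adj S u = false) :
    20 * S.card ≤ 20 * ((range n).filter (fun v => ¬ p v)).card + (cov n adj S).card := by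
  obtain ⟨hR, m, h1, h2, h3⟩ := rest_spec hs hl hS
  have h4 := sum_dg_le hs (cov_union_rest (n := n) (adj := adj) S)
    (cov_disjoint_rest S) hR
  have hcovS : cov n adj S ⊆ S := filter_subset _ _
  have h5 := edges_half hs hbip S
  have h6 := edges_lower hs hbip hM hD hS
  have h7 : (S.filter p).card + (S.filter (fun v => ¬ p v)).card = S.card :=
    card_filter_add_card_filter_not _
  set e := ∑ u ∈ S.filter p, dg adj S u with he
  set β := ((range n).filter (fun v => ¬ p v)).card with hβ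
  -- `20 e ≤ M |X|`
  have h8 : 20 * e ≤ M * (S.filter p).card := by
    rw [he, mul_sum, mul_comm M, ← smul_eq_mul (a := (S.filter p).card), ← sum_const]
    exact sum_le_sum fun w hw => light_le hlight (mem_filter.1 hw).1
  have h9 : 20 * ∑ w ∈ cov n adj S, dg adj S w ≤ 2 * m * M := by
    rw [mul_sum, ← h1, ← smul_eq_mul (a := (cov n adj S).card), ← sum_const]
    exact sum_le_sum fun w hw => light_le hlight (hcovS hw)
  have h10 : 10 * e ≤ m * M := by
    have : 20 * (2 * e) ≤ 2 * (2 * m * M) := by omega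
    nlinarith
  set x := (S.filter p).card with hx
  set y := (S.filter (fun v => ¬ p v)).card with hy
  rcases le_or_gt S.card β with hle | hgt
  · omega
  · obtain ⟨t, ht⟩ : ∃ t, S.card = β + t := ⟨S.card - β, by omega⟩
    obtain ⟨c, hc⟩ : ∃ c, M = D + c := ⟨M - D, by omega⟩
    have h11 : D * t + c * x ≤ e := by
      have e1 : M * x = D * x + c * x := by rw [hc, Nat.add_mul]
      have e2 : D * x + D * y = D * β + D * t := by
        rw [← Nat.mul_add, ← Nat.mul_add, h7, ht]
      omega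
    have h12 : M * (D * t) + c * (20 * e) ≤ M * e := by
      have e1 : M * (D * t + c * x) ≤ M * e := Nat.mul_le_mul_left _ h11
      have e2 : c * (20 * e) ≤ c * (M * x) := Nat.mul_le_mul_left _ h8
      have e3 : M * (D * t + c * x) = M * (D * t) + c * (M * x) := by ring
      omega
    have h13 : M * (D * t) ≤ D * e := by
      have e1 : M * e = D * e + c * e := by rw [hc, Nat.add_mul]
      have e2 : c * e ≤ c * (20 * e) := Nat.mul_le_mul_left _ (by omega)
      omega
    have h14 : M * t ≤ e := by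
      have e1 : D * (M * t) ≤ D * e := by
        calc D * (M * t) = M * (D * t) := by ring
          _ ≤ _ := h13
      exact Nat.le_of_mul_le_mul_left e1 hD1
    have h15 : M * (10 * t) ≤ M * m := by nlinarith
    have h16 : 10 * t ≤ m := Nat.le_of_mul_le_mul_left h15 (by omega)
    omega

/-- **The error at a leaf.** -/
theorem leaf_err (hs : ∀ u v, adj u v = adj v u) (hl : ∀ u, adj u u = false)
    (hbip : ∀ u v, adj u v = true → v < n ∧ (p u ↔ ¬ p v)) (hD1 : 1 ≤ D) (hDM : D ≤ M)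
    (hM : ∀ u < n, p u → M ≤ dg adj (range n) u)
    (hD : ∀ v < n, ¬ p v → dg adj (range n) v ≤ D) {S : Finset ℕ} (hS : S ⊆ range n)
    (hlight : ∀ u, heavyG M adj S u = false) {q : ℕ} (hK : (q ^ 5) ^ 2 < 2 ^ (cov n adj S).card) :
    ind adj S * q ≤ 2 ^ ((range n).filter (fun v => ¬ p v)).card := by
  have h0 := light_card hs hl hbip hD1 hDM hM hD hS hlight
  obtain ⟨hR, m, h1, h2, h3⟩ := rest_spec hs hl hS
  set A := ((range n).filter (fun v => ¬ p v)).card with hA
  have h7' : 5 * S.card ≤ 5 * A + m := by omega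
  -- q ^ 5 ≤ 2 ^ m
  have h8 : q ^ 5 ≤ 2 ^ m := by
    rw [h1, pow_mul'] at hK
    exact (lt_of_pow_lt_pow_left₀ 2 (by positivity) hK).le
  -- fifth powers
  have h9 : (ind adj S * q) ^ 5 ≤ (2 ^ A) ^ 5 := by
    have h10 : ind adj S * 4 ^ m ≤ 3 ^ m * 2 ^ S.card := by
      calc ind adj S * 4 ^ m ≤ (3 ^ m * 2 ^ (rest n adj S).card) * 4 ^ m :=
            Nat.mul_le_mul_right _ h3
        _ = 3 ^ m * 2 ^ S.card := by
            rw [← h2, pow_add, pow_mul]; norm_num; ring
    have h11 : (ind adj S * 4 ^ m) ^ 5 ≤ (3 ^ m * 2 ^ S.card) ^ 5 :=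
      Nat.pow_le_pow_left h10 5
    have h12 : (ind adj S) ^ 5 * 1024 ^ m ≤ 243 ^ m * 2 ^ (5 * S.card) := by
      calc (ind adj S) ^ 5 * 1024 ^ m = (ind adj S * 4 ^ m) ^ 5 := by
            rw [mul_pow, ← pow_mul, mul_comm m 5, pow_mul]; norm_num
        _ ≤ (3 ^ m * 2 ^ S.card) ^ 5 := h11
        _ = 243 ^ m * 2 ^ (5 * S.card) := by
            rw [mul_pow, ← pow_mul, ← pow_mul, mul_comm m 5, pow_mul, mul_comm S.card 5]; norm_num
    have h13 : (ind adj S) ^ 5 * 1024 ^ m ≤ 512 ^ m * 2 ^ (5 * A) := by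
      calc (ind adj S) ^ 5 * 1024 ^ m ≤ 243 ^ m * 2 ^ (5 * S.card) := h12
        _ ≤ 243 ^ m * 2 ^ (5 * A + m) :=
            Nat.mul_le_mul_left _ (Nat.pow_le_pow_right (by norm_num) h7')
        _ = 486 ^ m * 2 ^ (5 * A) := by
            rw [pow_add, show (486 : ℕ) = 243 * 2 by norm_num, mul_pow]; ring
        _ ≤ 512 ^ m * 2 ^ (5 * A) :=
            Nat.mul_le_mul_right _ (Nat.pow_le_pow_left (by norm_num) m)
    have h14 : (ind adj S) ^ 5 * 2 ^ m ≤ 2 ^ (5 * A) := by
      have h15 : 512 ^ m * ((ind adj S) ^ 5 * 2 ^ m) ≤ 512 ^ m * 2 ^ (5 * A) := by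
        calc 512 ^ m * ((ind adj S) ^ 5 * 2 ^ m) = (ind adj S) ^ 5 * 1024 ^ m := by
              rw [show (1024 : ℕ) = 512 * 2 by norm_num, mul_pow]; ring
          _ ≤ _ := h13
      exact Nat.le_of_mul_le_mul_left h15 (by positivity)
    calc (ind adj S * q) ^ 5 = (ind adj S) ^ 5 * q ^ 5 := mul_pow _ _ _
      _ ≤ (ind adj S) ^ 5 * 2 ^ m := Nat.mul_le_mul_left _ h8
      _ ≤ 2 ^ (5 * A) := h14
      _ = (2 ^ A) ^ 5 := by rw [← pow_mul, mul_comm]
  exact le_of_pow_le_pow_left₀ (by norm_num) (Nat.zero_le _) h9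

end Pool.Agent.Lib.Pa7c826g
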