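import Pool.Agent.Lib.Pa7c826.AlgoPoly
import Pool.Agent.Lib.Pa7c826g.Branch

/-!
The leaf function runs in polynomial time, for any polynomial time adjacency function
(`Pa7c826/AlgoPoly.lean` for a general adjacency function `A`).
-/

namespace Pool.Agent.Lib.Pa7c826g

open Pool.Agent.Lib.PolyTime Pool.Agent.Lib.Pa7c826

/-- adjacency functions computable in polynomial time in every context -/
def PolyAdj (A : List Bool → ℕ → ℕ → Bool) : Prop :=
  ∀ {β : Type} {D' : β → Prop} {ctx' : List (β → List Bool)} {w' : β → List Bool} {u' v' : β → ℕ},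
    PolyC D' ctx' w' → PolyN D' ctx' u' → PolyN D' ctx' v' →
      PolyB D' ctx' (fun b => A (w' b) (u' b) (v' b))

section

variable {α : Type} {D : α → Prop} {ctx : List (α → List Bool)} {w : α → List Bool}
  {S R : α → Finset ℕ} {u v : α → ℕ} {A : List Bool → ℕ → ℕ → Bool}

theorem poly_dgA (hA : PolyAdj A) (hw : PolyC D ctx w) (hS : PolyS D ctx (fun a => nOf (w a)) S)
    (hv : PolyN D ctx v) : PolyN D ctx (fun a => dg (A (w a)) (S a) (v a)) := by
  have W := up (n := fun a => nOf (w a)) hw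
  have V := upN (n := fun a => nOf (w a)) hv
  have L := last (D := D) (ctx := ctx) (n := fun a => nOf (w a))
  exact PolyS.card (poly_nOf hw) (PolyS.filter (φ := fun p : α × ℕ => A (w p.1) (v p.1) p.2)
    (poly_nOf hw) hS (hA W V L))

theorem poly_hasNbA (hA : PolyAdj A) (hw : PolyC D ctx w) (hR : PolyS D ctx (fun a => nOf (w a)) R)
    (hu : PolyN D ctx u) :
    PolyB D ctx (fun a => hasNb (nOf (w a)) (A (w a)) (R a) (u a)) := by
  have W := up (n := fun a => nOf (w a)) hw
  have U := upN (n := fun a => nOf (w a)) hu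
  have RR := hR.up (m := fun a => nOf (w a))
  have L := last (D := D) (ctx := ctx) (n := fun a => nOf (w a))
  have M := RR.mem L
  exact (hR.mem hu).and (PolyB.exists_lt
    (φ := fun p : α × ℕ => (decide (p.2 ∈ R p.1) && A (w p.1) (u p.1) p.2)) (poly_nOf hw)
    (M.and (hA W U L)))

theorem poly_fstBA (hA : PolyAdj A) (hw : PolyC D ctx w) (hR : PolyS D ctx (fun a => nOf (w a)) R)
    (hu : PolyN D ctx u) :
    PolyB D ctx (fun a => fstB (nOf (w a)) (A (w a)) (R a) (u a)) := by
  have W := up (n := u) hw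
  have RR := hR.up (m := u)
  have L := last (D := D) (ctx := ctx) (n := u)
  exact (poly_hasNbA hA hw hR hu).and (PolyB.exists_lt
    (φ := fun p : α × ℕ => hasNb (nOf (w p.1)) (A (w p.1)) (R p.1) p.2) hu
    (poly_hasNbA hA W RR L)).not

theorem poly_nbFA (hA : PolyAdj A) (hw : PolyC D ctx w) (hR : PolyS D ctx (fun a => nOf (w a)) R)
    (hv : PolyN D ctx v) : PolyB D ctx (fun a => nbF (nOf (w a)) (A (w a)) (R a) (v a)) := by
  have W := up (n := fun a => nOf (w a)) hw
  have V := upN (n := fun a => nOf (w a)) hv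
  have RR := hR.up (m := fun a => nOf (w a))
  have L := last (D := D) (ctx := ctx) (n := fun a => nOf (w a))
  exact (hR.mem hv).and (PolyB.exists_lt
    (φ := fun p : α × ℕ => (fstB (nOf (w p.1)) (A (w p.1)) (R p.1) p.2 &&
      A (w p.1) p.2 (v p.1))) (poly_nOf hw)
    ((poly_fstBA hA W RR L).and (hA W L V)))

theorem poly_sndBA (hA : PolyAdj A) (hw : PolyC D ctx w) (hR : PolyS D ctx (fun a => nOf (w a)) R)
    (hv : PolyN D ctx v) :
    PolyB D ctx (fun a => sndB (nOf (w a)) (A (w a)) (R a) (v a)) := by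
  have W := up (n := v) hw
  have RR := hR.up (m := v)
  have L := last (D := D) (ctx := ctx) (n := v)
  exact (poly_nbFA hA hw hR hv).and (PolyB.exists_lt
    (φ := fun p : α × ℕ => nbF (nOf (w p.1)) (A (w p.1)) (R p.1) p.2) hv
    (poly_nbFA hA W RR L)).not

theorem poly_mStepA (hA : PolyAdj A) (hw : PolyC D ctx w) (hR : PolyS D ctx (fun a => nOf (w a)) R) :
    PolyS D ctx (fun a => nOf (w a)) (fun a => mStep (nOf (w a)) (A (w a)) (R a)) := by
  have W := up (n := fun a => nOf (w a)) hw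
  have RR := hR.up (m := fun a => nOf (w a))
  have L := last (D := D) (ctx := ctx) (n := fun a => nOf (w a))
  have F1 := poly_fstBA hA W RR L
  have F2 := poly_sndBA hA W RR L
  exact PolyS.filter (φ := fun p : α × ℕ => (!fstB (nOf (w p.1)) (A (w p.1)) (R p.1) p.2 &&
    !sndB (nOf (w p.1)) (A (w p.1)) (R p.1) p.2)) (poly_nOf hw) hR (F1.not.and F2.not)

theorem poly_restA (hA : PolyAdj A) (hw : PolyC D ctx w) (hS : PolyS D ctx (fun a => nOf (w a)) S) :
    PolyS D ctx (fun a => nOf (w a)) (fun a => rest (nOf (w a)) (A (w a)) (S a)) := by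
  refine poly_iterate (step := fun x => mStep (nOf x) (A x)) hw (poly_nOf hw) hS
    (fun x T => mStep_subset T) ?_
  have W := up2 (n := fun a => nOf (w a)) (u := fun p : α × ℕ =>
    msk (nOf (w p.1)) ((mStep (nOf (w p.1)) (A (w p.1)))^[p.2] (S p.1))) hw
  have V := state_var (D := D) (ctx := ctx) (w := w) (k := fun a => nOf (w a))
    (T := fun a j => (mStep (nOf (w a)) (A (w a)))^[j] (S a))
    (fun a ha j _ => (iterate_mStep_subset _ _).trans (hS.2 a ha))
  exact poly_mStepA hA W V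

theorem poly_covA (hA : PolyAdj A) (hw : PolyC D ctx w) (hS : PolyS D ctx (fun a => nOf (w a)) S) :
    PolyS D ctx (fun a => nOf (w a)) (fun a => cov (nOf (w a)) (A (w a)) (S a)) := by
  have W := up (n := fun a => nOf (w a)) hw
  have SS := hS.up (m := fun a => nOf (w a))
  have L := last (D := D) (ctx := ctx) (n := fun a => nOf (w a))
  have M := (poly_restA hA W SS).mem L
  exact PolyS.filter (φ := fun p : α × ℕ =>
    !decide (p.2 ∈ rest (nOf (w p.1)) (A (w p.1)) (S p.1))) (poly_nOf hw) hS M.not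

theorem poly_indBA (hA : PolyAdj A) (hw : PolyC D ctx w) (hS : PolyS D ctx (fun a => nOf (w a)) S) :
    PolyB D ctx (fun a => indB (nOf (w a)) (A (w a)) (S a)) := by
  have W := up (n := fun a => nOf (w a)) hw
  have SS := hS.up (m := fun a => nOf (w a))
  have L := last (D := D) (ctx := ctx) (n := fun a => nOf (w a))
  have W2 := up (n := fun p : α × ℕ => nOf (w p.1)) W
  have SS2 := SS.up (m := fun p : α × ℕ => nOf (w p.1))
  have L1 := upN (n := fun p : α × ℕ => nOf (w p.1)) L
  have L2 := last (D := fun p : α × ℕ => D p.1 ∧ p.2 < nOf (w p.1))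
    (ctx := PolyTime.lift ctx ++ [fun p : α × ℕ => un p.2])
    (n := fun p : α × ℕ => nOf (w p.1))
  have M1 := SS2.mem L1
  have M2 := SS2.mem L2
  have HA := hA W2 L1 L2
  refine (PolyB.exists_lt (φ := fun p : α × ℕ => decide (∃ v < nOf (w p.1),
    ((decide (p.2 ∈ S p.1) && decide (v ∈ S p.1)) && A (w p.1) p.2 v) = true))
    (poly_nOf hw) ?_).not
  exact PolyB.exists_lt (φ := fun q : (α × ℕ) × ℕ =>
    ((decide (q.1.2 ∈ S q.1.1) && decide (q.2 ∈ S q.1.1)) && A (w q.1.1) q.1.2 q.2))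
    (poly_nOf W) ((M1.and M2).and HA)

theorem poly_freeSA (hA : PolyAdj A) (hw : PolyC D ctx w) (hR : PolyS D ctx (fun a => nOf (w a)) R)
    (hS : PolyS D ctx (fun a => nOf (w a)) S) :
    PolyS D ctx (fun a => nOf (w a)) (fun a => freeS (nOf (w a)) (A (w a)) (R a) (S a)) := by
  have W := up (n := fun a => nOf (w a)) hw
  have SS := hS.up (m := fun a => nOf (w a))
  have L := last (D := D) (ctx := ctx) (n := fun a => nOf (w a))
  have W2 := up (n := fun p : α × ℕ => nOf (w p.1)) W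
  have SS2 := SS.up (m := fun p : α × ℕ => nOf (w p.1))
  have L1 := upN (n := fun p : α × ℕ => nOf (w p.1)) L
  have L2 := last (D := fun p : α × ℕ => D p.1 ∧ p.2 < nOf (w p.1))
    (ctx := PolyTime.lift ctx ++ [fun p : α × ℕ => un p.2])
    (n := fun p : α × ℕ => nOf (w p.1))
  have M2 := SS2.mem L2
  have HA := hA W2 L2 L1
  refine PolyS.filter (φ := fun p : α × ℕ => !decide (∃ u < nOf (w p.1),
    (decide (u ∈ S p.1) && A (w p.1) u p.2) = true)) (poly_nOf hw) hR (PolyB.not ?_)
  exact PolyB.exists_lt (φ := fun q : (α × ℕ) × ℕ =>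
    (decide (q.2 ∈ S q.1.1) && A (w q.1.1) q.2 q.1.2)) (poly_nOf W) (M2.and HA)

theorem poly_leafA (hA : PolyAdj A) {K : List Bool → ℕ} (hK : UPoly K)
    (hw : PolyC D ctx w) (hS : PolyS D ctx (fun a => nOf (w a)) S) :
    PolyBin D ctx (fun a => leaf (nOf (w a)) (A (w a)) (K (w a)) (S a)) := by
  unfold leaf
  refine PolyBin.sum_range (f := fun p : α × ℕ =>
    if (decide (p.2 / 2 ^ (cov (nOf (w p.1)) (A (w p.1)) (S p.1)).card = 0) &&
      (decide (1 ≤ K (w p.1) / 2 ^ (cov (nOf (w p.1)) (A (w p.1)) (S p.1)).card) &&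
        indB (nOf (w p.1)) (A (w p.1)) (sel (cov (nOf (w p.1)) (A (w p.1)) (S p.1)) p.2)))
    then 2 ^ (freeS (nOf (w p.1)) (A (w p.1)) (rest (nOf (w p.1)) (A (w p.1)) (S p.1))
      (sel (cov (nOf (w p.1)) (A (w p.1)) (S p.1)) p.2)).card else 0) (hK hw) ?_
  have W := up (n := fun a => K (w a)) hw
  have SS := hS.up (m := fun a => K (w a))
  have C := poly_covA hA W SS
  have T := last (D := D) (ctx := ctx) (n := fun a => K (w a))
  have CC := PolyS.card (poly_nOf W) C
  have SE := poly_sel W C T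
  have B : PolyB (fun p : α × ℕ => D p.1 ∧ p.2 < K (w p.1))
      (PolyTime.lift ctx ++ [fun p => un p.2]) (fun p : α × ℕ =>
      (decide (p.2 / 2 ^ (cov (nOf (w p.1)) (A (w p.1)) (S p.1)).card = 0) &&
      (decide (1 ≤ K (w p.1) / 2 ^ (cov (nOf (w p.1)) (A (w p.1)) (S p.1)).card) &&
        indB (nOf (w p.1)) (A (w p.1))
          (sel (cov (nOf (w p.1)) (A (w p.1)) (S p.1)) p.2)))) :=
    (PolyB.natEq (PolyN.divPow T CC) (PolyN.const 0)).and
      ((PolyB.le (PolyN.const 1) (PolyN.divPow (hK W) CC)).and (poly_indBA hA W SE))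
  have P : PolyBin (fun p : α × ℕ => D p.1 ∧ p.2 < K (w p.1))
      (PolyTime.lift ctx ++ [fun p => un p.2]) (fun p : α × ℕ =>
      2 ^ (freeS (nOf (w p.1)) (A (w p.1)) (rest (nOf (w p.1)) (A (w p.1)) (S p.1))
      (sel (cov (nOf (w p.1)) (A (w p.1)) (S p.1)) p.2)).card) :=
    PolyBin.pow2 (PolyS.card (poly_nOf W) (poly_freeSA hA W (poly_restA hA W SS) SE))
  exact PolyBin.ite B (P.mono fun _ h => h.1) PolyBin.zero


end

end Pool.Agent.Lib.Pa7c826g
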