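import Pool.Agent.Lib.Pa7c826g.ZRec

/-!
The total weight of the nodes with exactly `j` inclusions.

Setting: left vertices (`p`) come before right ones (`hord`), all left degrees are at least `M`, all
right degrees at most `D ≤ M`. Write `nu S` for the number of right vertices of `range n` that are
not in `S`, `L S = S.filter p`.

PROOFS.
`cutG_light`: no heavy vertex in `S` (equivalently `anyG` is false); `outG^[i] S = S`
(`outG_eq_self`, induction), all summands vanish.
`cutG_step`: `v` the chosen vertex: `outG S = S.erase v`, `inG S = ...` (`outG_eq`, `inG_eq`), so the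
`i = 0` term is `cutG j (inG S)` and the terms `i + 1 < n` are the terms `i` for `outG S`; the
missing term `i = n - 1` for `outG S` concerns `outG^[n] S`, which has no heavy vertex
(`iterate_lightG`), so it vanishes. (`Finset.sum_range_succ'`, `Finset.sum_range_succ`;
`n ≥ 1` since `v < n`. `Function.iterate_succ_apply`.)
`cutG_le_ind`: induction on `j` with `ind_pathG`.
`cutG_right`: if no LEFT vertex of `S` is heavy and `20 * |L S| ≤ j * M`, `1 ≤ j`, then
`cutG j S = 0`. Strong induction on `S.card`, all `j`: no heavy vertex: `cutG_light`. Otherwise the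
chosen `v` is right, `cutG_step`. First summand: induction (same `j`, same left part). Second summand
`S' = (S.erase v).filter (adj v · = false)`: it has `|L S'| = |L S| - dg adj S v` left vertices
(all neighbours of `v` are left) and `20 * dg adj S v > M`; so if `j ≥ 2` then
`20 |L S'| ≤ (j-1) M` and induction applies (no left vertex of `S'` is heavy since `dg` is monotone in
the set). If `j = 1`: `20 |L S| ≤ M < 20 dg adj S v ≤ 20 |L S|`, contradiction.
`left_light`: if no left vertex of `S` is heavy then `19 * |L S| ≤ 20 * nu S`: every `u ∈ L S` has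
`dg adj (range n) u ≥ M` and `20 dg adj S u ≤ M`, so at least `19/20 M` neighbours among the right
vertices outside `S`; double counting (`Finset.sum_card_bipartiteAbove_eq_sum_card_bipartiteBelow`,
as in `superSat_of_degrees`, `Pa7c826/Approx.lean`): `19 M |L S| ≤ 20 D nu S ≤ 20 M nu S`.
`cut_bound`: strong induction on `S.card` for all `j`. If no left vertex of `S` is heavy: if `j = 0`
use `cutG 0 S = ind adj S ≤ zf` and `20 nu ≤ 42 nu`. If `j ≥ 1` and `cutG j S ≠ 0` then
`j M < 20 |L S|` by `cutG_right`, so `19 j M < 400 nu` and `j M + 20 nu ≤ 42 nu`; again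
`cutG j S ≤ ind adj S ≤ zf`. Otherwise the chosen vertex `v` is left (the first heavy vertex; `hord`).
If `j = 0` as before. If `j = i + 1`: `cutG_step`, `zf_left` with `s = r ^ 42`, the induction
hypothesis for `(S.erase v, j)` (`nu` unchanged) and for `(S', j - 1)`, `nu S' = nu S + dg adj S v`:
`(j - 1) M + 20 (nu + dg) ≥ j M + 20 nu` as `20 dg > M`.
-/

namespace Pool.Agent.Lib.Pa7c826g

open Finset Pool.Agent.Lib.Pa7c826

/-- number of right vertices outside `S` -/
def nu (n : ℕ) (p : ℕ → Prop) [DecidablePred p] (S : Finset ℕ) : ℕ :=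
  ((range n).filter (fun v => ¬ p v ∧ v ∉ S)).card

variable {n M D : ℕ} {adj : ℕ → ℕ → Bool} {p : ℕ → Prop} [DecidablePred p] {r : ℝ}

private lemma iterate_selfG {S : Finset ℕ} (h : ∀ u, heavyG M adj S u = false) (i : ℕ) :
    (outG M adj)^[i] S = S := by
  induction i with
  | zero => rfl
  | succ i ih => rw [Function.iterate_succ_apply', ih, outG_eq_self h]

private lemma anyG_light {S : Finset ℕ} (h : ∀ u, heavyG M adj S u = false) :
    ¬ anyG n M adj S = true := by
  unfold anyG
  rw [decide_eq_true_eq]
  rintro ⟨u, _, hu⟩
  rw [h u] at hu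
  exact absurd hu (by simp)

theorem cutG_light {S : Finset ℕ} (h : ∀ u, heavyG M adj S u = false) (j : ℕ) :
    cutG n M adj (j + 1) S = 0 := by
  show (∑ i ∈ range n, if anyG n M adj ((outG M adj)^[i] S) then
      cutG n M adj j (inG n M adj ((outG M adj)^[i] S)) else 0) = 0
  apply sum_eq_zero
  intro i _
  rw [iterate_selfG h i, if_neg (anyG_light h)]

theorem cutG_step {S : Finset ℕ} (hS : S ⊆ range n) {v : ℕ} (h : chosenG M adj S v = true)
    (j : ℕ) : cutG n M adj (j + 1) S = cutG n M adj (j + 1) (S.erase v) +
      cutG n M adj j ((S.erase v).filter (fun u => adj v u = false)) := by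
  have hvS : v ∈ S := heavyG_mem (chosenG_heavy h)
  have hvn : v < n := mem_range.1 (hS hvS)
  obtain ⟨m, rfl⟩ : ∃ m, n = m + 1 := ⟨n - 1, by omega⟩
  show (∑ i ∈ range (m + 1), if anyG (m + 1) M adj ((outG M adj)^[i] S) then
      cutG (m + 1) M adj j (inG (m + 1) M adj ((outG M adj)^[i] S)) else 0) =
    (∑ i ∈ range (m + 1), if anyG (m + 1) M adj ((outG M adj)^[i] (S.erase v)) then
      cutG (m + 1) M adj j (inG (m + 1) M adj ((outG M adj)^[i] (S.erase v))) else 0) +
      cutG (m + 1) M adj j ((S.erase v).filter (fun u => adj v u = false))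
  have hit : ∀ i, (outG M adj)^[i + 1] S = (outG M adj)^[i] (S.erase v) := by
    intro i
    rw [Function.iterate_succ_apply, outG_eq h]
  rw [sum_range_succ', sum_range_succ _ m]
  have hlast : (if anyG (m + 1) M adj ((outG M adj)^[m] (S.erase v)) then
      cutG (m + 1) M adj j (inG (m + 1) M adj ((outG M adj)^[m] (S.erase v))) else 0) = 0 := by
    rw [if_neg]
    apply anyG_light
    intro u
    rw [← hit m]
    exact iterate_lightG hS u
  rw [hlast, add_zero]
  have hfirst : (if anyG (m + 1) M adj ((outG M adj)^[0] S) then
      cutG (m + 1) M adj j (inG (m + 1) M adj ((outG M adj)^[0] S)) else 0) =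
      cutG (m + 1) M adj j ((S.erase v).filter (fun u => adj v u = false)) := by
    rw [Function.iterate_zero_apply, if_pos, inG_eq hvn h]
    rw [anyG_iff hS]
    exact ⟨v, chosenG_heavy h⟩
  rw [hfirst]
  congr 1
  apply sum_congr rfl
  intro i _
  rw [hit i]

theorem cutG_le_ind (hs : ∀ u v, adj u v = adj v u) (hl : ∀ u, adj u u = false) (j : ℕ) :
    ∀ S, S ⊆ range n → cutG n M adj j S ≤ ind adj S := by
  induction j with
  | zero => intro S _; exact le_refl _
  | succ j ih =>
    intro S hS
    show (∑ i ∈ range n, if anyG n M adj ((outG M adj)^[i] S) then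
      cutG n M adj j (inG n M adj ((outG M adj)^[i] S)) else 0) ≤ ind adj S
    rw [ind_pathG (n := n) (M := M) hs hl hS n]
    refine le_trans ?_ (Nat.le_add_right _ _)
    apply sum_le_sum
    intro i _
    split_ifs with hc
    · apply ih
      exact ((inG_subset _).trans (iterate_outG_subset S i)).trans hS
    · exact le_refl _

private lemma dg_monoG {P Q : Finset ℕ} (u : ℕ) (h : P ⊆ Q) : dg adj P u ≤ dg adj Q u :=
  card_le_card (filter_subset_filter _ h)

private lemma heavyG_false_of_subset {S T : Finset ℕ} (hTS : T ⊆ S) {u : ℕ}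
    (h : heavyG M adj S u = false) (hu : u ∈ S) : heavyG M adj T u = false := by
  unfold heavyG at h ⊢
  rw [Bool.and_eq_false_iff, decide_eq_false_iff_not, decide_eq_false_iff_not] at h ⊢
  rcases h with h | h
  · exact absurd hu h
  · right
    have := dg_monoG (adj := adj) u hTS
    omega

theorem cutG_right (hs : ∀ u v, adj u v = adj v u)
    (hbip : ∀ u v, adj u v = true → v < n ∧ (p u ↔ ¬ p v)) :
    ∀ (j : ℕ) (S : Finset ℕ), S ⊆ range n → (∀ u ∈ S, p u → heavyG M adj S u = false) →
      1 ≤ j → 20 * (S.filter p).card ≤ j * M → cutG n M adj j S = 0 := by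
  have key : ∀ (c : ℕ) (S : Finset ℕ), S.card = c → ∀ j : ℕ, S ⊆ range n →
      (∀ u ∈ S, p u → heavyG M adj S u = false) →
      1 ≤ j → 20 * (S.filter p).card ≤ j * M → cutG n M adj j S = 0 := by
    intro c
    induction c using Nat.strong_induction_on with
    | _ c ih =>
      intro S hc j hS hL hj hM
      obtain ⟨i, rfl⟩ : ∃ i, j = i + 1 := ⟨j - 1, by omega⟩
      by_cases hh : ∃ u, heavyG M adj S u = true
      · obtain ⟨v, hv⟩ := exists_chosenG hh
        have hvh := chosenG_heavy hv
        have hvS : v ∈ S := heavyG_mem hvh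
        have hvp : ¬ p v := by
          intro hp
          rw [hL v hvS hp] at hvh
          exact absurd hvh (by simp)
        have hdeg := heavyG_lt hvh
        have hcv : (S.erase v).card < c := by
          rw [← hc]
          exact card_erase_lt_of_mem hvS
        rw [cutG_step hS hv i]
        have h1 : cutG n M adj (i + 1) (S.erase v) = 0 := by
          apply ih _ hcv (S.erase v) rfl (i + 1) ((erase_subset _ _).trans hS)
          · intro u hu hp
            exact heavyG_false_of_subset (erase_subset v S) (hL u (mem_of_mem_erase hu) hp)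
              (mem_of_mem_erase hu)
          · omega
          · refine le_trans ?_ hM
            exact Nat.mul_le_mul_left _ (card_le_card (filter_subset_filter _ (erase_subset _ _)))
        rw [h1, zero_add]
        set S' := (S.erase v).filter (fun u => adj v u = false) with hS'
        have hS'S : S' ⊆ S := (filter_subset _ _).trans (erase_subset _ _)
        have hcard : (S'.filter p).card + dg adj S v ≤ (S.filter p).card := by
          unfold dg
          rw [← card_union_of_disjoint]
          · apply card_le_card
            intro u hu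
            rw [mem_union] at hu
            rcases hu with hu | hu
            · rw [mem_filter] at hu ⊢
              exact ⟨hS'S hu.1, hu.2⟩
            · rw [mem_filter] at hu ⊢
              refine ⟨hu.1, ?_⟩
              have := (hbip v u hu.2).2
              by_contra hpu
              exact hvp (this.2 hpu)
          · rw [disjoint_left]
            intro u hu hu'
            rw [mem_filter, hS', mem_filter] at hu
            rw [mem_filter] at hu'
            rw [hu.1.2] at hu'
            exact absurd hu'.2 (by simp)
        rcases Nat.eq_zero_or_pos i with hi | hi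
        · subst hi
          exfalso
          have : 20 * dg adj S v ≤ 20 * (S.filter p).card := Nat.mul_le_mul_left _ (by omega)
          simp only [zero_add, one_mul] at hM
          omega
        · apply ih _ _ S' rfl i (hS'S.trans hS) _ hi
          · have h3 : (i + 1) * M = i * M + M := by ring
            rw [h3] at hM
            omega
          · rw [← hc]
            exact card_lt_card ⟨hS'S, fun hss => by
              have := hss hvS
              rw [hS', mem_filter, mem_erase] at this
              exact this.1.1 rfl⟩
          · intro u hu hp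
            exact heavyG_false_of_subset hS'S (hL u (hS'S hu) hp) (hS'S hu)
      · apply cutG_light
        intro u
        by_contra hu
        rw [Bool.not_eq_false] at hu
        exact hh ⟨u, hu⟩
  intro j S
  exact key S.card S rfl j

theorem left_light (hs : ∀ u v, adj u v = adj v u)
    (hbip : ∀ u v, adj u v = true → v < n ∧ (p u ↔ ¬ p v)) (hM0 : 1 ≤ M) (hDM : D ≤ M)
    (hM : ∀ u < n, p u → M ≤ dg adj (range n) u)
    (hD : ∀ v < n, ¬ p v → dg adj (range n) v ≤ D) {S : Finset ℕ} (hS : S ⊆ range n)
    (h : ∀ u ∈ S, p u → heavyG M adj S u = false) :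
    19 * (S.filter p).card ≤ 20 * nu n p S := by
  set X := S.filter p with hX
  unfold nu
  set Bc := (range n).filter (fun v => ¬ p v ∧ v ∉ S) with hBc
  have hXdeg : ∀ u ∈ X, dg adj (range n) u = dg adj S u + dg adj Bc u := by
    intro u hu
    have hua : p u := (mem_filter.1 hu).2
    unfold dg
    rw [← card_union_of_disjoint]
    · congr 1
      ext v
      simp only [mem_filter, mem_union, hBc, mem_range]
      constructor
      · rintro ⟨h1, h2⟩
        have h3 : ¬ p v := (hbip u v h2).2.1 hua
        by_cases h4 : v ∈ S
        · exact Or.inl ⟨h4, h2⟩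
        · exact Or.inr ⟨⟨h1, h3, h4⟩, h2⟩
      · rintro (⟨h1, h2⟩ | ⟨⟨h1, _, _⟩, h2⟩)
        · exact ⟨mem_range.1 (hS h1), h2⟩
        · exact ⟨h1, h2⟩
    · rw [disjoint_left]
      intro v hv hv'
      simp only [mem_filter, hBc] at hv hv'
      exact hv'.1.2.2 hv.1
  have hdc : ∀ P Q : Finset ℕ, ∑ u ∈ P, dg adj Q u = ∑ v ∈ Q, dg adj P v := by
    intro P Q
    have := sum_card_bipartiteAbove_eq_sum_card_bipartiteBelow (s := P) (t := Q)
      (fun v w => adj v w = true)
    unfold bipartiteAbove bipartiteBelow at this
    unfold dg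
    rw [this]
    refine sum_congr rfl fun w _ => ?_
    congr 1
    ext u
    simp only [mem_filter]
    rw [hs]
  have h1 : ∀ u ∈ X, 19 * M ≤ 20 * dg adj Bc u := by
    intro u hu
    have huS : u ∈ S := (mem_filter.1 hu).1
    have hpu : p u := (mem_filter.1 hu).2
    have h2 := h u huS hpu
    unfold heavyG at h2
    rw [Bool.and_eq_false_iff, decide_eq_false_iff_not, decide_eq_false_iff_not] at h2
    have h3 : ¬ M < 20 * dg adj S u := by
      rcases h2 with h2 | h2
      · exact absurd huS h2
      · exact h2
    have h4 := hM u (mem_range.1 (hS huS)) hpu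
    rw [hXdeg u hu] at h4
    omega
  have h2 : ∑ v ∈ Bc, dg adj X v ≤ Bc.card * M := by
    rw [← smul_eq_mul, ← sum_const]
    refine sum_le_sum fun v hv => ?_
    simp only [hBc, mem_filter, mem_range] at hv
    refine (dg_monoG v ?_).trans ((hD v hv.1 hv.2.1).trans hDM)
    exact (filter_subset _ _).trans hS
  have h3 : X.card * (19 * M) ≤ ∑ u ∈ X, 20 * dg adj Bc u := by
    rw [← smul_eq_mul, ← sum_const]
    exact sum_le_sum h1
  rw [← mul_sum, hdc X Bc] at h3
  have h4 : X.card * (19 * M) ≤ 20 * (Bc.card * M) := h3.trans (Nat.mul_le_mul_left _ h2)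
  have h5 : M * (19 * X.card) ≤ M * (20 * Bc.card) := by
    calc M * (19 * X.card) = X.card * (19 * M) := by ring
      _ ≤ 20 * (Bc.card * M) := h4
      _ = M * (20 * Bc.card) := by ring
  exact Nat.le_of_mul_le_mul_left h5 (by omega)

private lemma zf_nonneg {s : ℝ} (hs0 : 0 ≤ s) (S : Finset ℕ) : 0 ≤ zf adj p s S := by
  unfold zf
  exact sum_nonneg fun I _ => pow_nonneg hs0 _

/-- **The weight of the nodes with `j` inclusions.** -/
theorem cut_bound (hs : ∀ u v, adj u v = adj v u) (hl : ∀ u, adj u u = false)
    (hord : ∀ u v, p u → ¬ p v → u < v)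
    (hbip : ∀ u v, adj u v = true → v < n ∧ (p u ↔ ¬ p v)) (hM0 : 1 ≤ M) (hDM : D ≤ M)
    (hM : ∀ u < n, p u → M ≤ dg adj (range n) u)
    (hD : ∀ v < n, ¬ p v → dg adj (range n) v ≤ D) (hr : 1 ≤ r) :
    ∀ (j : ℕ) (S : Finset ℕ), S ⊆ range n →
      r ^ (j * M + 20 * nu n p S) * (cutG n M adj j S : ℝ) ≤
        r ^ (42 * nu n p S) * zf adj p (r ^ 42) S := by
  have hr0 : (0 : ℝ) ≤ r := by linarith
  have hr42 : (1 : ℝ) ≤ r ^ 42 := one_le_pow₀ hr
  have hr420 : (0 : ℝ) ≤ r ^ 42 := by linarith
  -- the base case with a small exponent
  have hbase : ∀ (j : ℕ) (S : Finset ℕ), S ⊆ range n → j * M + 20 * nu n p S ≤ 42 * nu n p S →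
      r ^ (j * M + 20 * nu n p S) * (cutG n M adj j S : ℝ) ≤
        r ^ (42 * nu n p S) * zf adj p (r ^ 42) S := by
    intro j S hS hle
    have h1 : (cutG n M adj j S : ℝ) ≤ zf adj p (r ^ 42) S := by
      refine le_trans ?_ (ind_le_zf hr42 S)
      exact_mod_cast cutG_le_ind hs hl j S hS
    apply mul_le_mul (pow_le_pow_right₀ hr hle) h1 (by positivity) (pow_nonneg hr0 _)
  have key : ∀ (c : ℕ) (S : Finset ℕ), S.card = c → ∀ j : ℕ, S ⊆ range n →
      r ^ (j * M + 20 * nu n p S) * (cutG n M adj j S : ℝ) ≤
        r ^ (42 * nu n p S) * zf adj p (r ^ 42) S := by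
    intro c
    induction c using Nat.strong_induction_on with
    | _ c ih =>
      intro S hc j hS
      rcases Nat.eq_zero_or_pos j with hj | hj
      · subst hj
        apply hbase 0 S hS
        omega
      by_cases hL : ∀ u ∈ S, p u → heavyG M adj S u = false
      · by_cases hz : 20 * (S.filter p).card ≤ j * M
        · rw [cutG_right hs hbip j S hS hL hj hz]
          simp only [Nat.cast_zero, mul_zero]
          exact mul_nonneg (pow_nonneg hr0 _) (zf_nonneg hr420 S)
        · apply hbase j S hS
          have h1 := left_light hs hbip hM0 hDM hM hD hS hL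
          omega
      · push Not at hL
        obtain ⟨u, huS, hpu, hu⟩ := hL
        rw [ne_eq, Bool.not_eq_false] at hu
        obtain ⟨v, hv⟩ := exists_chosenG ⟨u, hu⟩
        have hvh := chosenG_heavy hv
        have hvS : v ∈ S := heavyG_mem hvh
        have hvn : v < n := mem_range.1 (hS hvS)
        have hpv : p v := by
          by_contra hpv
          have huv := hord u v hpu hpv
          unfold chosenG at hv
          simp only [Bool.and_eq_true, Bool.not_eq_true', decide_eq_false_iff_not] at hv
          exact hv.2 ⟨u, huv, hu⟩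
        have hdeg := heavyG_lt hvh
        obtain ⟨i, rfl⟩ : ∃ i, j = i + 1 := ⟨j - 1, by omega⟩
        rw [cutG_step hS hv i]
        set S' := (S.erase v).filter (fun u => adj v u = false) with hS'
        have hS'S : S' ⊆ S := (filter_subset _ _).trans (erase_subset _ _)
        have hcv : (S.erase v).card < c := by
          rw [← hc]
          exact card_erase_lt_of_mem hvS
        have hcv' : S'.card < c := lt_of_le_of_lt (card_filter_le _ _) hcv
        have hnu1 : nu n p (S.erase v) = nu n p S := by
          unfold nu
          congr 1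
          ext w
          simp only [mem_filter, mem_erase, mem_range]
          constructor
          · rintro ⟨h1, h2, h3⟩
            refine ⟨h1, h2, fun h4 => h3 ⟨?_, h4⟩⟩
            intro e
            exact h2 (e ▸ hpv)
          · rintro ⟨h1, h2, h3⟩
            exact ⟨h1, h2, fun h4 => h3 h4.2⟩
        have hnu2 : nu n p S' = nu n p S + dg adj S v := by
          unfold nu dg
          rw [← card_union_of_disjoint]
          · congr 1
            ext w
            simp only [hS', mem_filter, mem_erase, mem_range, mem_union]
            constructor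
            · rintro ⟨h1, h2, h3⟩
              by_cases h4 : w ∈ S
              · right
                refine ⟨h4, ?_⟩
                by_contra h5
                rw [Bool.not_eq_true] at h5
                exact h3 ⟨⟨fun e => h2 (e ▸ hpv), h4⟩, h5⟩
              · exact Or.inl ⟨h1, h2, h4⟩
            · rintro (⟨h1, h2, h3⟩ | ⟨h1, h2⟩)
              · exact ⟨h1, h2, fun h4 => h3 h4.1.2⟩
              · refine ⟨mem_range.1 (hS h1), (hbip v w h2).2.1 hpv, fun h4 => ?_⟩
                rw [h2] at h4
                exact absurd h4.2 (by simp)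
          · rw [disjoint_left]
            intro w hw hw'
            simp only [mem_filter] at hw hw'
            exact hw.2.2 hw'.1
        have e1 := ih _ hcv (S.erase v) rfl (i + 1) ((erase_subset _ _).trans hS)
        have e2 := ih _ hcv' S' rfl i (hS'S.trans hS)
        rw [hnu1] at e1
        rw [hnu2] at e2
        have e3 := zf_left (s := r ^ 42) hs hl (fun u v huv => (hbip u v huv).2) hr42 hvS hpv
        rw [← hS'] at e3
        have e4 : r ^ ((i + 1) * M + 20 * nu n p S) * (cutG n M adj i S' : ℝ) ≤
            r ^ (42 * nu n p S) * ((r ^ 42) ^ dg adj S v * zf adj p (r ^ 42) S') := by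
          calc r ^ ((i + 1) * M + 20 * nu n p S) * (cutG n M adj i S' : ℝ)
              ≤ r ^ (i * M + 20 * (nu n p S + dg adj S v)) * (cutG n M adj i S' : ℝ) := by
                apply mul_le_mul_of_nonneg_right _ (by positivity)
                apply pow_le_pow_right₀ hr
                have h3 : (i + 1) * M = i * M + M := by ring
                rw [h3]
                omega
            _ ≤ r ^ (42 * (nu n p S + dg adj S v)) * zf adj p (r ^ 42) S' := e2
            _ = r ^ (42 * nu n p S) * ((r ^ 42) ^ dg adj S v * zf adj p (r ^ 42) S') := by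
                rw [mul_add, pow_add, ← pow_mul]
                ring
        calc r ^ ((i + 1) * M + 20 * nu n p S) *
              ((cutG n M adj (i + 1) (S.erase v) + cutG n M adj i S' : ℕ) : ℝ)
            = r ^ ((i + 1) * M + 20 * nu n p S) * (cutG n M adj (i + 1) (S.erase v) : ℝ) +
              r ^ ((i + 1) * M + 20 * nu n p S) * (cutG n M adj i S' : ℝ) := by
              push_cast
              ring
          _ ≤ r ^ (42 * nu n p S) * zf adj p (r ^ 42) (S.erase v) +
              r ^ (42 * nu n p S) * ((r ^ 42) ^ dg adj S v * zf adj p (r ^ 42) S') :=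
              add_le_add e1 e4
          _ = r ^ (42 * nu n p S) * (zf adj p (r ^ 42) (S.erase v) +
              (r ^ 42) ^ dg adj S v * zf adj p (r ^ 42) S') := by ring
          _ ≤ r ^ (42 * nu n p S) * zf adj p (r ^ 42) S :=
              mul_le_mul_of_nonneg_left e3 (pow_nonneg hr0 _)
  intro j S hS
  exact key S.card S rfl j hS

end Pool.Agent.Lib.Pa7c826g
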