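import Pool.Agent.Lib.Pa7c826g.ZDef
import Pool.Agent.Lib.Pa7c826g.FinnerSum

/-!
The weighted count of the whole graph.

PROOFS. `zf_eq`: an independent `I ⊆ S` is `A ∪ C` with `A = I.filter p ⊆ S.filter p` and
`C = I.filter (¬ p) ⊆ (S.filter (¬ p)) \ N(A)` arbitrary (as in `cnt`-type formulas; compare
`ind_cover` in `Pa7c826/Leaf.lean`): `Finset.sum_fiberwise_of_maps_to` with `I ↦ I.filter p`, in the
fibre of `A` all weights are `s ^ wt adj p S A` (`wt` depends only on the left part) and there are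
`2 ^ (|S_R| - wt adj p S A)` sets. `s ^ w * 2 ^ (r - w) = 2 ^ r * (s / 2) ^ w` for `w ≤ r`.
`zf_bound`: `zf_eq`, `finner_exp` with `y = s / 2`, `e u v := adj u v = true`; degrees: for
`u ∈ S.filter p`, `((S.filter ¬p).filter (adj u ·)).card = dg adj S u` by `hbip`; for `v` right,
`((S.filter p).filter (adj · v)).card = dg adj S v` by `hs`, `hbip`.
-/

namespace Pool.Agent.Lib.Pa7c826g

open Finset Pool.Agent.Lib.Pa7c826

variable {adj : ℕ → ℕ → Bool} {p : ℕ → Prop} [DecidablePred p] {s : ℝ}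

namespace ZBoundAux

/-- The fibre of a left part `A`. -/
theorem fib_card (hs : ∀ u v, adj u v = adj v u)
    (hbip : ∀ u v, adj u v = true → (p u ↔ ¬ p v)) {S A : Finset ℕ} (hA : A ⊆ S.filter p) :
    ((S.powerset.filter (fun I => ∀ u ∈ I, ∀ v ∈ I, adj u v = false)).filter
      (fun I => I.filter p = A)).card =
      2 ^ ((S.filter (fun v => ¬ p v)).filter (fun v => ¬ ∃ u ∈ A, adj u v = true)).card := by
  rw [← card_powerset]
  have hAp : ∀ x ∈ A, x ∈ S ∧ p x := fun x hx => mem_filter.1 (hA hx)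
  refine card_bij' (fun I _ => I.filter (fun v => ¬ p v)) (fun J _ => A ∪ J) ?_ ?_ ?_ ?_
  · intro I hI
    simp only [mem_filter, mem_powerset] at hI ⊢
    obtain ⟨⟨h1, h2⟩, h3⟩ := hI
    intro x hx
    rw [mem_filter] at hx
    rw [mem_filter, mem_filter]
    refine ⟨⟨h1 hx.1, hx.2⟩, ?_⟩
    rintro ⟨u, hu, hux⟩
    rw [← h3] at hu
    rw [h2 u (mem_filter.1 hu).1 x hx.1] at hux
    exact absurd hux (by simp)
  · intro J hJ
    simp only [mem_filter, mem_powerset] at hJ ⊢
    have hJR : ∀ x ∈ J, x ∈ S ∧ ¬ p x ∧ ∀ u ∈ A, adj u x = false := by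
      intro x hx
      have := hJ hx
      rw [mem_filter, mem_filter] at this
      refine ⟨this.1.1, this.1.2, fun u hu => ?_⟩
      by_contra hc
      exact this.2 ⟨u, hu, by simpa using hc⟩
    refine ⟨⟨union_subset (fun x hx => (hAp x hx).1) fun x hx => (hJR x hx).1, ?_⟩, ?_⟩
    · intro x hx y hy
      rcases mem_union.1 hx with hx | hx <;> rcases mem_union.1 hy with hy | hy
      · by_contra hc
        have := hbip x y (by simpa using hc)
        exact (this.1 (hAp x hx).2) (hAp y hy).2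
      · exact (hJR y hy).2.2 x hx
      · rw [hs]
        exact (hJR x hx).2.2 y hy
      · by_contra hc
        have := hbip x y (by simpa using hc)
        exact (hJR x hx).2.1 (this.2 (hJR y hy).2.1)
    · ext x
      simp only [mem_filter, mem_union]
      constructor
      · rintro ⟨h1 | h1, h2⟩
        · exact h1
        · exact absurd h2 (hJR x h1).2.1
      · intro h1
        exact ⟨Or.inl h1, (hAp x h1).2⟩
  · intro I hI
    simp only [mem_filter, mem_powerset] at hI
    obtain ⟨⟨h1, h2⟩, h3⟩ := hI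
    ext x
    simp only [mem_union, mem_filter, ← h3]
    tauto
  · intro J hJ
    simp only [mem_powerset] at hJ
    ext x
    simp only [mem_union, mem_filter]
    constructor
    · rintro ⟨h1 | h1, h2⟩
      · exact absurd (hAp x h1).2 h2
      · exact h1
    · intro h1
      have := hJ h1
      rw [mem_filter, mem_filter] at this
      exact ⟨Or.inr h1, this.1.2⟩

theorem wt_eq {S A I : Finset ℕ} (h : I.filter p = A) :
    wt adj p S I = ((S.filter (fun v => ¬ p v)).filter (fun v => ∃ u ∈ A, adj u v = true)).card := by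
  unfold wt
  congr 1
  ext x
  simp only [mem_filter, ← h]
  constructor
  · rintro ⟨h1, h2, u, hu, hpu, hux⟩
    exact ⟨⟨h1, h2⟩, u, ⟨hu, hpu⟩, hux⟩
  · rintro ⟨⟨h1, h2⟩, u, ⟨hu, hpu⟩, hux⟩
    exact ⟨h1, h2, u, hu, hpu, hux⟩

end ZBoundAux

open ZBoundAux

theorem zf_eq (hs : ∀ u v, adj u v = adj v u)
    (hbip : ∀ u v, adj u v = true → (p u ↔ ¬ p v)) (S : Finset ℕ) :
    zf adj p s S = 2 ^ (S.filter (fun v => ¬ p v)).card * ∑ A ∈ (S.filter p).powerset,
      (s / 2) ^ ((S.filter (fun v => ¬ p v)).filter (fun v => ∃ u ∈ A, adj u v = true)).card := by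
  unfold zf
  rw [← sum_fiberwise_of_maps_to (g := fun I : Finset ℕ => I.filter p) (t := (S.filter p).powerset)
    (fun I hI => by
      rw [mem_powerset]
      exact filter_subset_filter p (mem_powerset.1 (mem_filter.1 hI).1)), mul_sum]
  refine sum_congr rfl fun A hA => ?_
  rw [mem_powerset] at hA
  rw [sum_congr rfl (fun I hI => by rw [wt_eq (mem_filter.1 hI).2]), sum_const, fib_card hs hbip hA,
    nsmul_eq_mul]
  have hcard := card_filter_add_card_filter_not (s := S.filter (fun v => ¬ p v))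
    (fun v => ∃ u ∈ A, adj u v = true)
  rw [← hcard]
  push_cast
  rw [pow_add, div_pow]
  field_simp

theorem zf_bound (hs : ∀ u v, adj u v = adj v u)
    (hbip : ∀ u v, adj u v = true → (p u ↔ ¬ p v)) {S : Finset ℕ} {D M : ℕ} (hD1 : 1 ≤ D)
    (hM : ∀ u ∈ S, p u → M ≤ dg adj S u) (hD : ∀ v ∈ S, ¬ p v → dg adj S v ≤ D)
    (hs0 : 0 ≤ s) (hs2 : s ≤ 2) (h : ((S.filter p).card : ℝ) * (2 ^ D * (s / 2) ^ M) ≤ D) :
    zf adj p s S ≤ 3 * 2 ^ (S.filter (fun v => ¬ p v)).card := by
  rw [zf_eq hs hbip]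
  have h1 := finner_exp (S.filter p) (S.filter (fun v => ¬ p v)) (fun u v => adj u v = true) hD1
    (fun v hv => by
      rw [mem_filter] at hv
      refine le_trans (card_le_card fun u hu => ?_) (hD v hv.1 hv.2)
      rw [mem_filter, mem_filter] at hu
      rw [mem_filter, hs]
      exact ⟨hu.1.1, hu.2⟩)
    (fun u hu => by
      rw [mem_filter] at hu
      refine le_trans (hM u hu.1 hu.2) (card_le_card fun v hv => ?_)
      rw [mem_filter] at hv
      rw [mem_filter, mem_filter]
      exact ⟨⟨hv.1, (hbip u v hv.2).1 hu.2⟩, hv.2⟩)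
    (y := s / 2) (by linarith) (by linarith) h
  rw [mul_comm]
  exact mul_le_mul_of_nonneg_right h1 (by positivity)

end Pool.Agent.Lib.Pa7c826g
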