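import Pool.Agent.Lib.Pa7c826g.Codes
import Pool.Agent.Lib.Pa7c826g.CntBound
import Pool.Agent.Lib.Pa7c826g.LeafErr
import Pool.Agent.Lib.Pa7c826g.Tree
import Pool.Agent.Lib.Pa7c826g.ZBound
import Pool.Agent.Lib.Pa7c826.Approx

/-!
The approximation guarantee.

PROOFS. Write `β = ((range n).filter (¬p)).card`, `T = numCodes k n t`, `Q = Nat.log (n + 2) T`, so
`(n + 2)^Q ≤ T < (n + 2)^(Q + 1)` (`Nat.pow_log_le_self`, `Nat.lt_pow_succ_log_self`), hence
`(6 t)^(84 k) < (n + 2)^Q`.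
`two_pow_le`: `two_pow_le_ind` (`Pa7c826/Approx.lean`): `2^β ≤ ind adj (range n)`.
`cut_small`: `2 t * cutG Q (range n) ≤ 2^β` for `n ≥ 2`: let `r = (n : ℝ) ^ (1 / (42 k M) : ℝ)`,
`s = r ^ 42`; `r ≥ 1`, `s ^ (k M) = n`, `s ≤ 2` as `s ^ (k M) = n ≤ 2 ^ (k M)` (`hN2`). The hypothesis
of `zf_bound` (for `S = range n`) after raising to the power `k`:
`|L|^k 2^(kD) n / 2^(kM) ≤ n^(k+1) 2^(kD) / 2^(kM) ≤ D^k` (`hN1`). So `cut_bound` (`nu (range n) = 0`)
gives `r^(Q M) * cutG Q ≤ 3 * 2^β`. And `(r^(Q M))^(84 k) = n^(2 Q) ≥ (n + 2)^Q > (6 t)^(84 k)`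
(`n ≥ 2`: `n^2 ≥ n + 2`), so `r^(Q M) ≥ 6 t`.
`approx_gap`: `f = leaf n adj K2`, `K2 = ((2 t T)^5)^2`. Upper bound: `sum_codes_le` with `J = T`
(`T ≤ (n+2)^T`: `Nat.lt_pow_self`), `cntG_le`, `leaf_le`. Lower bound: `sum_codes_ge`
(`Q ≤ (n + 2)^Q ≤ T`) and `cntG_ge` for the leaf function `fun S => f ((outG^[n])^[T - Q] S)` with
`δ = 2^β / (2 t T)`: a light `S` is fixed by `outG` (`outG_eq_self`), and
`ind S ≤ leaf S + δ` by `leaf_small` or `leaf_err` (`q = 2 t T`; as in `approx_main`,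
`Pa7c826/Approx.lean`). Sum: `ind ≤ c + (n+1)^Q δ + cutG Q`, `2 t (n+1)^Q δ ≤ 2 t T δ ≤ 2^β`,
`2 t cutG Q ≤ 2^β`, `2^β ≤ ind`: `2 t ind ≤ 2 t c + 2 ind`.
`approx_trivial` (no edges): every `S` is light, so `cutG (Q' + 1) = 0` (`cutG_light`, `Q ≥ 1` since
`n + 2 ≤ T`), `cov n adj S = ∅` (`rest_spec`-free: `mStep` removes nothing; or: `cov` has even
cardinality `2 m` and ... simplest: `ind S = 2^|S|` and `leaf S = ind S` by `leaf_small`, where
`cov n adj S = ∅` because `fstB`, `sndB` are false), so `cntG_ge` with `δ = 0`.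
-/

namespace Pool.Agent.Lib.Pa7c826g

open Finset Pool.Agent.Lib.Pa7c826

/-- number of codes -/
def numCodes (k n t : ℕ) : ℕ := (n + 2) * (6 * t) ^ (84 * k)

/-- threshold for the leaves -/
def thrG (k n t : ℕ) : ℕ := ((2 * t * numCodes k n t) ^ 5) ^ 2

/-- the output of the algorithm with degree threshold `M` -/
def outVal0 (k n t M : ℕ) (adj : ℕ → ℕ → Bool) : ℕ :=
  ∑ τ ∈ range (numCodes k n t), valG n M adj (leaf n adj (thrG k n t)) (numCodes k n t) (range n) τ

variable {n M D : ℕ} {adj : ℕ → ℕ → Bool} {p : ℕ → Prop} [DecidablePred p]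

theorem numCodes_log {k n t : ℕ} (hn : 2 ≤ n) (ht : 1 ≤ t) :
    (n + 2) ^ Nat.log (n + 2) (numCodes k n t) ≤ numCodes k n t ∧
      (6 * t) ^ (84 * k) < (n + 2) ^ Nat.log (n + 2) (numCodes k n t) := by
  have hT : numCodes k n t ≠ 0 := by
    unfold numCodes
    positivity
  refine ⟨Nat.pow_log_le_self _ hT, ?_⟩
  have h1 := Nat.lt_pow_succ_log_self (b := n + 2) (by omega) (numCodes k n t)
  rw [pow_succ, mul_comm] at h1
  have h2 : (n + 2) * (6 * t) ^ (84 * k) < (n + 2) * (n + 2) ^ Nat.log (n + 2) (numCodes k n t) := by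
    refine lt_of_eq_of_lt ?_ h1
    rfl
  exact Nat.lt_of_mul_lt_mul_left h2

theorem cut_small (hs : ∀ u v, adj u v = adj v u) (hl : ∀ u, adj u u = false)
    (hord : ∀ u v, p u → ¬ p v → u < v)
    (hbip : ∀ u v, adj u v = true → v < n ∧ (p u ↔ ¬ p v)) (hD1 : 1 ≤ D) (hDM : D ≤ M)
    (hM : ∀ u < n, p u → M ≤ dg adj (range n) u)
    (hD : ∀ v < n, ¬ p v → dg adj (range n) v ≤ D) (hn : 2 ≤ n) {k t : ℕ} (hk : 1 ≤ k)
    (ht : 1 ≤ t) (hN1 : n ^ (k + 1) * 2 ^ (k * D) ≤ D ^ k * 2 ^ (k * M)) (hN2 : n ≤ 2 ^ (k * M)) :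
    2 * t * cutG n M adj (Nat.log (n + 2) (numCodes k n t)) (range n) ≤
      2 ^ ((range n).filter (fun v => ¬ p v)).card := by
  obtain ⟨-, hQ⟩ := numCodes_log (k := k) hn ht
  set Q := Nat.log (n + 2) (numCodes k n t) with hQd
  have hM1 : 1 ≤ M := hD1.trans hDM
  have hkM : 0 < k * M := Nat.mul_pos (by omega) (by omega)
  have hn0 : (0 : ℝ) < n := by exact_mod_cast (by omega : 0 < n)
  have hn1 : (1 : ℝ) ≤ n := by exact_mod_cast (by omega : 1 ≤ n)
  obtain ⟨r, hrd⟩ : ∃ r : ℝ, r = (n : ℝ) ^ (1 / ((42 * (k * M) : ℕ) : ℝ)) := ⟨_, rfl⟩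
  have hr1 : 1 ≤ r := by
    rw [hrd]
    exact Real.one_le_rpow hn1 (by positivity)
  have hr0 : 0 < r := by linarith
  have hrn : r ^ (42 * (k * M)) = n := by
    rw [hrd, ← Real.rpow_natCast, ← Real.rpow_mul hn0.le, one_div, inv_mul_cancel₀,
      Real.rpow_one]
    have : 0 < 42 * (k * M) := by omega
    exact_mod_cast this.ne'
  obtain ⟨s, hsd⟩ : ∃ s : ℝ, s = r ^ 42 := ⟨_, rfl⟩
  have hs0 : 0 < s := by rw [hsd]; positivity
  have hsn : s ^ (k * M) = n := by
    rw [hsd, ← pow_mul, hrn]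
  have hs2 : s ≤ 2 := by
    have h1 : s ^ (k * M) ≤ 2 ^ (k * M) := by
      rw [hsn]
      exact_mod_cast hN2
    exact le_of_pow_le_pow_left₀ hkM.ne' (by norm_num) h1
  have hcard : (((range n).filter p).card : ℝ) ≤ n := by
    have : ((range n).filter p).card ≤ n := (card_filter_le _ _).trans (by rw [card_range])
    exact_mod_cast this
  have hcond : (((range n).filter p).card : ℝ) * (2 ^ D * (s / 2) ^ M) ≤ D := by
    have h1 : ((((range n).filter p).card : ℝ) * (2 ^ D * (s / 2) ^ M)) ^ k ≤ (D : ℝ) ^ k := by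
      have h2 : ((((range n).filter p).card : ℝ) * (2 ^ D * (s / 2) ^ M)) ^ k =
          (((range n).filter p).card : ℝ) ^ k * (2 ^ (k * D) * (n / 2 ^ (k * M))) := by
        rw [mul_pow, mul_pow, ← pow_mul, ← pow_mul, div_pow, mul_comm M k, hsn, mul_comm D k]
      rw [h2]
      have h3 : (((range n).filter p).card : ℝ) ^ k ≤ (n : ℝ) ^ k :=
        pow_le_pow_left₀ (by positivity) hcard k
      have h4 : (0 : ℝ) < 2 ^ (k * M) := by positivity
      calc (((range n).filter p).card : ℝ) ^ k * (2 ^ (k * D) * (n / 2 ^ (k * M))) ≤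
            (n : ℝ) ^ k * (2 ^ (k * D) * (n / 2 ^ (k * M))) :=
              mul_le_mul_of_nonneg_right h3 (by positivity)
        _ = (n : ℝ) ^ (k + 1) * 2 ^ (k * D) / 2 ^ (k * M) := by
            rw [pow_succ]
            field_simp
        _ ≤ (D : ℝ) ^ k := by
            rw [div_le_iff₀ h4]
            exact_mod_cast hN1
    exact le_of_pow_le_pow_left₀ (by omega : k ≠ 0) (Nat.cast_nonneg D) h1
  have hz := zf_bound (S := range n) hs (fun u v h => (hbip u v h).2) hD1
    (fun u hu hpu => hM u (mem_range.1 hu) hpu) (fun v hv hpv => hD v (mem_range.1 hv) hpv)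
    hs0.le hs2 hcond
  have hc := cut_bound hs hl hord hbip hM1 hDM hM hD hr1 Q (range n) subset_rfl
  have hnu : nu n p (range n) = 0 := by
    unfold nu
    rw [card_eq_zero, filter_eq_empty_iff]
    rintro x hx ⟨_, h2⟩
    exact h2 hx
  rw [hnu, mul_zero, mul_zero, add_zero, pow_zero, one_mul, ← hsd] at hc
  -- `r ^ (Q M) ≥ 6 t`
  have hbig : (6 * t : ℝ) ≤ r ^ (Q * M) := by
    have h1 : (6 * t : ℝ) ^ (84 * k) ≤ (r ^ (Q * M)) ^ (84 * k) := by
      have h2 : (r ^ (Q * M)) ^ (84 * k) = (n : ℝ) ^ (2 * Q) := by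
        rw [← hrn, ← pow_mul, ← pow_mul]
        congr 1
        ring
      rw [h2]
      have h3 : n + 2 ≤ n ^ 2 := by nlinarith
      have h4 : (n + 2) ^ Q ≤ n ^ (2 * Q) := by
        rw [pow_mul]
        exact Nat.pow_le_pow_left h3 Q
      have h5 : (6 * t) ^ (84 * k) ≤ n ^ (2 * Q) := hQ.le.trans h4
      exact_mod_cast h5
    exact le_of_pow_le_pow_left₀ (by omega : 84 * k ≠ 0) (by positivity) h1
  have hcut0 : (0 : ℝ) ≤ (cutG n M adj Q (range n) : ℝ) := Nat.cast_nonneg _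
  have h6 : (6 * t : ℝ) * (cutG n M adj Q (range n) : ℝ) ≤
      3 * 2 ^ ((range n).filter (fun v => ¬ p v)).card :=
    (mul_le_mul_of_nonneg_right hbig hcut0).trans (hc.trans hz)
  have h7 : (2 * t : ℝ) * (cutG n M adj Q (range n) : ℝ) ≤
      2 ^ ((range n).filter (fun v => ¬ p v)).card := by linarith
  exact_mod_cast h7

theorem iterate_fixed {α : Type*} (g : α → α) {x : α} (h : g x = x) (m : ℕ) : g^[m] x = x :=
  Function.iterate_fixed h m

/-- **The approximation guarantee.** -/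
theorem approx_gap (hs : ∀ u v, adj u v = adj v u) (hl : ∀ u, adj u u = false)
    (hord : ∀ u v, p u → ¬ p v → u < v)
    (hbip : ∀ u v, adj u v = true → v < n ∧ (p u ↔ ¬ p v)) (hD1 : 1 ≤ D) (hDM : D ≤ M)
    (hM : ∀ u < n, p u → M ≤ dg adj (range n) u)
    (hD : ∀ v < n, ¬ p v → dg adj (range n) v ≤ D) (hn : 2 ≤ n) {k t : ℕ} (hk : 1 ≤ k)
    (ht : 1 ≤ t) (hN1 : n ^ (k + 1) * 2 ^ (k * D) ≤ D ^ k * 2 ^ (k * M)) (hN2 : n ≤ 2 ^ (k * M)) :
    outVal0 k n t M adj ≤ ind adj (range n) ∧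
      t * ind adj (range n) ≤ t * outVal0 k n t M adj + ind adj (range n) := by
  obtain ⟨hQ1, hQ2⟩ := numCodes_log (k := k) hn ht
  have hcs := cut_small hs hl hord hbip hD1 hDM hM hD hn hk ht hN1 hN2
  set T := numCodes k n t with hT
  set Q := Nat.log (n + 2) T with hQd
  set β := ((range n).filter (fun v => ¬ p v)).card with hβ
  have hTpos : 0 < T := by
    rw [hT]
    unfold numCodes
    positivity
  have hTn : T ≤ (n + 2) ^ T := (Nat.lt_pow_self (by omega)).le
  have hQT : Q ≤ T := ((Nat.lt_pow_self (by omega)).le).trans hQ1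
  have h2β := two_pow_le_ind (n := n) (adj := adj) p hbip
  rw [← hβ] at h2β
  obtain ⟨q, hq⟩ : ∃ q, q = 2 * t * T := ⟨_, rfl⟩
  have hq0 : 0 < q := by
    rw [hq]
    positivity
  have hthr : thrG k n t = (q ^ 5) ^ 2 := by
    unfold thrG
    rw [hq, hT]
  set f := leaf n adj (thrG k n t) with hf
  have hup : outVal0 k n t M adj ≤ ind adj (range n) := by
    unfold outVal0
    exact (sum_codes_le f hTn subset_rfl).trans
      (cntG_le hs hl (fun S hS => leaf_le hs hl hS _) T (range n) subset_rfl)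
  refine ⟨hup, ?_⟩
  have hlow := sum_codes_ge (M := M) (adj := adj) f hQT hQ1 (S := range n) subset_rfl
  have hkey := cntG_ge (n := n) (M := M) hs hl
    (f := fun S => f (((outG M adj)^[n])^[T - Q] S)) (δ := 2 ^ β / q) (by
      intro S hS hlight
      have e1 : ((outG M adj)^[n])^[T - Q] S = S :=
        iterate_fixed _ (iterate_fixed _ (outG_eq_self hlight) n) _
      rw [e1]
      rcases le_or_gt (2 ^ (cov n adj S).card) (thrG k n t) with h | h
      · rw [hf, leaf_small hs hl hS h]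
        exact Nat.le_add_right _ _
      · rw [hthr] at h
        have h1 := leaf_err hs hl hbip hD1 hDM hM hD hS hlight h
        have h2 : ind adj S ≤ 2 ^ β / q := by
          rw [Nat.le_div_iff_mul_le hq0]
          exact h1
        exact h2.trans (Nat.le_add_left _ _)) Q (range n) subset_rfl
  have hout : cntG n M adj (fun S => f (((outG M adj)^[n])^[T - Q] S)) Q (range n) ≤
      outVal0 k n t M adj := hlow
  set c := cntG n M adj (fun S => f (((outG M adj)^[n])^[T - Q] S)) Q (range n) with hc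
  set I := ind adj (range n) with hI
  set O := outVal0 k n t M adj with hO
  set W := cutG n M adj Q (range n) with hW
  have e1 : 2 * t * ((n + 1) ^ Q * (2 ^ β / q)) ≤ 2 ^ β := by
    have h3 : (n + 1) ^ Q ≤ T := (Nat.pow_le_pow_left (by omega) Q).trans hQ1
    calc 2 * t * ((n + 1) ^ Q * (2 ^ β / q)) ≤ 2 * t * (T * (2 ^ β / q)) :=
          Nat.mul_le_mul_left _ (Nat.mul_le_mul_right _ h3)
      _ = q * (2 ^ β / q) := by rw [hq]; ring
      _ ≤ 2 ^ β := Nat.mul_div_le _ _
  have e2 : 2 * t * I ≤ 2 * t * c + 2 * t * ((n + 1) ^ Q * (2 ^ β / q)) + 2 * t * W := by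
    rw [← Nat.mul_add, ← Nat.mul_add]
    exact Nat.mul_le_mul_left _ hkey
  have e3 : 2 * t * c ≤ 2 * t * O := Nat.mul_le_mul_left _ hout
  have e4 : 2 * (t * I) ≤ 2 * (t * O) + 2 * I := by
    have a1 : 2 * t * I = 2 * (t * I) := by ring
    have a2 : 2 * t * O = 2 * (t * O) := by ring
    rw [a1] at e2
    rw [a2] at e3
    omega
  omega

/-- Graphs without edges. -/
theorem approx_trivial (h0 : ∀ u v, adj u v = false) {k t : ℕ} (ht : 1 ≤ t) :
    outVal0 k n t M adj ≤ ind adj (range n) ∧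
      t * ind adj (range n) ≤ t * outVal0 k n t M adj + ind adj (range n) := by
  have hs : ∀ u v, adj u v = adj v u := fun u v => by rw [h0, h0]
  have hl : ∀ u, adj u u = false := fun u => h0 u u
  set T := numCodes k n t with hT
  set Q := Nat.log (n + 2) T with hQd
  have hTn2 : n + 2 ≤ T := by
    rw [hT]
    unfold numCodes
    exact Nat.le_mul_of_pos_right _ (by positivity)
  have hQ1 : (n + 2) ^ Q ≤ T := Nat.pow_log_le_self _ (by omega)
  have hQpos : 1 ≤ Q := by
    rw [hQd]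
    exact Nat.log_pos (by omega) hTn2
  have hTn : T ≤ (n + 2) ^ T := (Nat.lt_pow_self (by omega)).le
  have hQT : Q ≤ T := ((Nat.lt_pow_self (by omega)).le).trans hQ1
  set f := leaf n adj (thrG k n t) with hf
  have hup : outVal0 k n t M adj ≤ ind adj (range n) := by
    unfold outVal0
    exact (sum_codes_le f hTn subset_rfl).trans
      (cntG_le hs hl (fun S hS => leaf_le hs hl hS _) T (range n) subset_rfl)
  refine ⟨hup, ?_⟩
  have hdg : ∀ (S : Finset ℕ) (u : ℕ), dg adj S u = 0 := by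
    intro S u
    unfold dg
    rw [card_eq_zero, filter_eq_empty_iff]
    intro x _ h
    rw [h0] at h
    exact absurd h (by simp)
  have hlight : ∀ (S : Finset ℕ) (u : ℕ), heavyG M adj S u = false := by
    intro S u
    unfold heavyG
    rw [hdg, Bool.and_eq_false_iff, decide_eq_false_iff_not, decide_eq_false_iff_not]
    right
    omega
  have hlow := sum_codes_ge (M := M) (adj := adj) f hQT hQ1 (S := range n) subset_rfl
  have hkey := cntG_ge (n := n) (M := M) hs hl
    (f := fun S => f (((outG M adj)^[n])^[T - Q] S)) (δ := 0) (by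
      intro S hS _
      have e1 : ((outG M adj)^[n])^[T - Q] S = S :=
        iterate_fixed _ (iterate_fixed _ (outG_eq_self (hlight S)) n) _
      rw [e1]
      have hrest : rest n adj S = S := by
        unfold rest
        apply iterate_fixed
        rcases mStep_spec hl hS with ⟨_, h⟩ | ⟨u, _, v, _, _, h, _⟩
        · exact h
        · rw [h0] at h
          exact absurd h (by simp)
      have hcov : cov n adj S = ∅ := by
        unfold cov
        rw [hrest, filter_eq_empty_iff]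
        intro x hx h
        simp [hx] at h
      have h1 : 2 ^ (cov n adj S).card ≤ thrG k n t := by
        rw [hcov, card_empty, pow_zero]
        unfold thrG numCodes
        exact Nat.one_le_iff_ne_zero.2 (by positivity)
      rw [hf, leaf_small hs hl hS h1]
      exact Nat.le_add_right _ _) Q (range n) subset_rfl
  obtain ⟨Q', hQ'⟩ : ∃ Q', Q = Q' + 1 := ⟨Q - 1, by omega⟩
  have hcut : cutG n M adj Q (range n) = 0 := by
    rw [hQ']
    exact cutG_light (hlight _) Q'
  rw [hcut, mul_zero, add_zero, add_zero] at hkey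
  have hout : ind adj (range n) ≤ outVal0 k n t M adj := hkey.trans hlow
  have := Nat.mul_le_mul_left t hout
  omega

end Pool.Agent.Lib.Pa7c826g
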