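import Pool.Agent.Lib.Pa7c826g.BranchPoly
import Pool.Agent.Lib.Pa7c826g.Main

/-!
The coded paths and the whole algorithm run in polynomial time.

PROOFS.
`poly_quot`: `PolyC.natRec (fun a k => un (f a / g a ^ k))`, step `f / g^(k+1) = (f / g^k) / g`
(`Nat.div_div_eq_div_mul`, `PolyN.div`); lengths are at most `f a`. As `PolyN.divPow` in
`Pa7c826/Comb2.lean`.
`poly_stepG`: `if d = 0 then .. else ..` on masks: `PolyC.ite` on the masks
(`PolyB.natEq hd (PolyN.const 0)`), `poly_iterOutG`, `poly_inG`, `PolyN.sub`; subset of the range by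
`inG_subset`, `iterate_outG_subset`.
`poly_okG`: `PolyB.or`, `poly_anyG`.
`poly_pathG`: `PolyC.natRec` with `F a j = msk (nOf (w a)) (pathG .. (S a) (τ a) j)` (length
`nOf (w a)`); the step is `poly_stepG` in the enlarged context, where the state is a variable
(compare `PolyS.iterate` in `Pa7c826/Bin.lean` and `state_var`, `poly_iterOut` in
`Pa7c826/AlgoPoly.lean`) and the digit is `poly_quot`, `PolyN.mod`; `pathG_subset`.
`poly_valG`: `PolyBin.ite` with `(PolyB.exists_lt ..).not`, `poly_okG`, `poly_pathG`, `poly_leafA`.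
`poly_outVal0`: `PolyBin.sum_range` and `poly_valG` (all parameters lifted by `up`, `upN`, the code
`τ` is `last`); the number of codes: `numCodes_poly`.
-/

namespace Pool.Agent.Lib.Pa7c826g

open Pool.Agent.Lib.PolyTime Pool.Agent.Lib.Pa7c826

variable {α : Type} {D : α → Prop} {ctx : List (α → List Bool)} {w : α → List Bool}
  {S : α → Finset ℕ} {u v M d τ j : α → ℕ} {A : List Bool → ℕ → ℕ → Bool}

theorem poly_quot {f g k : α → ℕ} (hf : PolyN D ctx f) (hg : PolyN D ctx g)
    (hk : PolyN D ctx k) (hpos : ∀ a, D a → 0 < g a) : PolyN D ctx (fun a => f a / g a ^ k a) := by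
  obtain ⟨pf, hpf⟩ := PolyC.length_le hf
  refine PolyC.natRec (fun a k => un (f a / g a ^ k)) hk
    (PolyC.congr hf (fun a _ => by simp)) ?_ ⟨pf, fun a ha j hj => ?_⟩
  · have h1 : PolyN (fun p : α × ℕ => D p.1 ∧ p.2 < k p.1)
        (PolyTime.lift ctx ++ [fun p => un p.2, fun p => un (f p.1 / g p.1 ^ p.2)])
        (fun p => f p.1 / g p.1 ^ p.2) := PolyC.var (by simp)
    have h2 : PolyN (fun p : α × ℕ => D p.1 ∧ p.2 < k p.1)
        (PolyTime.lift ctx ++ [fun p => un p.2, fun p => un (f p.1 / g p.1 ^ p.2)])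
        (fun p => g p.1) := up2 (n := k) (u := fun p : α × ℕ => un (f p.1 / g p.1 ^ p.2)) hg
    refine (PolyN.div h1 h2 (fun p hp => hpos p.1 hp.1)).congr ?_
    rintro ⟨a, k⟩ _
    simp only
    rw [pow_succ, Nat.div_div_eq_div_mul]
  · have h1 := hpf a ha
    rw [un_length] at h1 ⊢
    exact (Nat.div_le_self _ _).trans h1

/-- choosing between two finsets -/
theorem poly_iteS {n : α → ℕ} {φ : α → Bool} {T U : α → Finset ℕ} (hφ : PolyB D ctx φ)
    (hT : PolyS D ctx n T) (hU : PolyS D ctx n U) :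
    PolyS D ctx n (fun a => if φ a then T a else U a) := by
  refine ⟨?_, fun a ha => ?_⟩
  · refine (PolyC.ite hφ (PolyC.mono hT.1 fun _ h => h.1)
      (PolyC.mono hU.1 fun _ h => h.1)).congr (fun a _ => ?_)
    beta_reduce
    split_ifs <;> rfl
  · beta_reduce
    split_ifs
    · exact hT.2 a ha
    · exact hU.2 a ha

theorem poly_stepG (hA : PolyAdj A) (hw : PolyC D ctx w) (hM : PolyN D ctx M)
    (hS : PolyS D ctx (fun a => nOf (w a)) S) (hd : PolyN D ctx d) :
    PolyS D ctx (fun a => nOf (w a)) (fun a => stepG (nOf (w a)) (M a) (A (w a)) (S a) (d a)) := by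
  refine (poly_iteS (PolyB.natEq hd (PolyN.const 0)) (poly_iterOutG hA hw hM (poly_nOf hw) hS)
    (poly_inG hA hw hM (poly_iterOutG hA hw hM (PolyN.sub hd (PolyN.const 1)) hS))).congr
    (fun a _ => ?_)
  unfold stepG
  by_cases h : d a = 0
  · simp [h]
  · simp [h]

theorem poly_okG (hA : PolyAdj A) (hw : PolyC D ctx w) (hM : PolyN D ctx M)
    (hS : PolyS D ctx (fun a => nOf (w a)) S) (hd : PolyN D ctx d) :
    PolyB D ctx (fun a => okG (nOf (w a)) (M a) (A (w a)) (S a) (d a)) :=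
  (PolyB.natEq hd (PolyN.const 0)).or
    (poly_anyG hA hw hM (poly_iterOutG hA hw hM (PolyN.sub hd (PolyN.const 1)) hS))

theorem poly_digitG (hw : PolyC D ctx w) (hτ : PolyN D ctx τ) (hj : PolyN D ctx j) :
    PolyN D ctx (fun a => τ a / (nOf (w a) + 2) ^ j a % (nOf (w a) + 2)) :=
  PolyN.mod (poly_quot hτ (poly_nOf hw).succ.succ hj (fun _ _ => by omega))
    (poly_nOf hw).succ.succ (fun _ _ => by omega)

theorem poly_pathG (hA : PolyAdj A) (hw : PolyC D ctx w) (hM : PolyN D ctx M)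
    (hS : PolyS D ctx (fun a => nOf (w a)) S) (hτ : PolyN D ctx τ) (hj : PolyN D ctx j) :
    PolyS D ctx (fun a => nOf (w a))
      (fun a => pathG (nOf (w a)) (M a) (A (w a)) (S a) (τ a) (j a)) := by
  obtain ⟨pn, hpn⟩ := PolyC.length_le (poly_nOf hw)
  refine ⟨?_, fun a ha => pathG_subset (hS.2 a ha) _ _⟩
  refine PolyC.natRec (fun a j => msk (nOf (w a)) (pathG (nOf (w a)) (M a) (A (w a)) (S a) (τ a) j))
    hj (PolyC.congr hS.1 (fun a _ => rfl)) ?_ ⟨pn, fun a ha i hi => ?_⟩
  · have W := up2 (n := j) (u := fun p : α × ℕ =>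
      msk (nOf (w p.1)) (pathG (nOf (w p.1)) (M p.1) (A (w p.1)) (S p.1) (τ p.1) p.2)) hw
    have MM : PolyN _ _ _ := up2 (n := j) (u := fun p : α × ℕ =>
      msk (nOf (w p.1)) (pathG (nOf (w p.1)) (M p.1) (A (w p.1)) (S p.1) (τ p.1) p.2)) hM
    have TT : PolyN _ _ _ := up2 (n := j) (u := fun p : α × ℕ =>
      msk (nOf (w p.1)) (pathG (nOf (w p.1)) (M p.1) (A (w p.1)) (S p.1) (τ p.1) p.2)) hτ
    have V := state_var (D := D) (ctx := ctx) (w := w) (k := j)
      (T := fun a j => pathG (nOf (w a)) (M a) (A (w a)) (S a) (τ a) j)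
      (fun a ha j _ => pathG_subset (hS.2 a ha) _ _)
    have J : PolyN (fun p : α × ℕ => D p.1 ∧ p.2 < j p.1)
        (PolyTime.lift ctx ++ [fun p => un p.2, fun p : α × ℕ =>
          msk (nOf (w p.1)) (pathG (nOf (w p.1)) (M p.1) (A (w p.1)) (S p.1) (τ p.1) p.2)])
        (fun p => p.2) := PolyC.var (by simp)
    exact (poly_stepG hA W MM V (poly_digitG W TT J)).1
  · have h1 := hpn a ha
    rw [un_length] at h1
    rw [msk_length]
    exact h1

theorem poly_valG (hA : PolyAdj A) {K : List Bool → ℕ} (hK : UPoly K) (hw : PolyC D ctx w)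
    (hM : PolyN D ctx M) (hS : PolyS D ctx (fun a => nOf (w a)) S) (hτ : PolyN D ctx τ)
    (hj : PolyN D ctx j) :
    PolyBin D ctx (fun a => valG (nOf (w a)) (M a) (A (w a))
      (leaf (nOf (w a)) (A (w a)) (K (w a))) (j a) (S a) (τ a)) := by
  have W := up (n := j) hw
  have MM := upN (n := j) hM
  have TT := upN (n := j) hτ
  have SS := hS.up (m := j)
  have L := last (D := D) (ctx := ctx) (n := j)
  have P := poly_pathG hA W MM SS TT L
  have O := poly_okG hA W MM P (poly_digitG W TT L)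
  have E := (PolyB.exists_lt (φ := fun p : α × ℕ => (!okG (nOf (w p.1)) (M p.1) (A (w p.1))
    (pathG (nOf (w p.1)) (M p.1) (A (w p.1)) (S p.1) (τ p.1) p.2)
      (τ p.1 / (nOf (w p.1) + 2) ^ p.2 % (nOf (w p.1) + 2)))) hj O.not).not
  exact PolyBin.ite E ((poly_leafA hA hK hw (poly_pathG hA hw hM hS hτ hj)).mono fun _ h => h.1)
    PolyBin.zero

theorem numCodes_poly (k : ℕ) : UPoly (fun w => numCodes k (nOf w) (tOf w)) := by
  intro β D' ctx' w' hw
  have hn := poly_nOf hw
  have ht := poly_tOf hw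
  exact PolyN.mul hn.succ.succ (PolyN.pow ((PolyN.const 6).mul ht) (84 * k))

theorem thrG_poly (k : ℕ) : UPoly (fun w => thrG k (nOf w) (tOf w)) := by
  intro β D' ctx' w' hw
  have ht := poly_tOf hw
  exact PolyN.pow (PolyN.pow (((PolyN.const 2).mul ht).mul (numCodes_poly k hw)) 5) 2

theorem poly_outVal0 (k : ℕ) (hA : PolyAdj A) (hw : PolyC D ctx w) (hM : PolyN D ctx M) :
    PolyBin D ctx (fun a => outVal0 k (nOf (w a)) (tOf (w a)) (M a) (A (w a))) := by
  have key : ∀ {N K : List Bool → ℕ}, UPoly N → UPoly K →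
      PolyBin D ctx (fun a => ∑ τ ∈ Finset.range (N (w a)), valG (nOf (w a)) (M a) (A (w a))
        (leaf (nOf (w a)) (A (w a)) (K (w a))) (N (w a)) (Finset.range (nOf (w a))) τ) := by
    intro N K hN hK
    have W := up (n := fun a => N (w a)) hw
    have MM := upN (n := fun a => N (w a)) hM
    have SS := (PolyS.range (poly_nOf hw)).up (m := fun a => N (w a))
    have L := last (D := D) (ctx := ctx) (n := fun a => N (w a))
    exact PolyBin.sum_range (f := fun p : α × ℕ => valG (nOf (w p.1)) (M p.1) (A (w p.1))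
      (leaf (nOf (w p.1)) (A (w p.1)) (K (w p.1))) (N (w p.1))
      (Finset.range (nOf (w p.1))) p.2) (hN hw) (poly_valG hA hK W MM SS L (hN W))
  unfold outVal0
  exact key (N := fun w => numCodes k (nOf w) (tOf w)) (K := fun w => thrG k (nOf w) (tOf w))
    (numCodes_poly k) (thrG_poly k)

end Pool.Agent.Lib.Pa7c826g
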