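import Pool.Agent.Lib.Pa7c826g.Branch

/-!
Weighted count of the independent sets: weight `s ^ (number of right vertices adjacent to the left
part)`. The left side is given by the predicate `p`.
-/

namespace Pool.Agent.Lib.Pa7c826g

open Finset Pool.Agent.Lib.Pa7c826

/-- number of right vertices in `S` adjacent to a left vertex of `I` -/
def wt (adj : ℕ → ℕ → Bool) (p : ℕ → Prop) [DecidablePred p] (S I : Finset ℕ) : ℕ :=
  (S.filter (fun v => ¬ p v ∧ ∃ u ∈ I, p u ∧ adj u v = true)).card

/-- the weighted count -/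
noncomputable def zf (adj : ℕ → ℕ → Bool) (p : ℕ → Prop) [DecidablePred p] (s : ℝ)
    (S : Finset ℕ) : ℝ :=
  ∑ I ∈ S.powerset.filter (fun I => ∀ u ∈ I, ∀ v ∈ I, adj u v = false), s ^ wt adj p S I

end Pool.Agent.Lib.Pa7c826g
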