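import Pool.Agent.Lib.Pa7c826g.ZDef

/-!
Recursion for the weighted count.
-/

namespace Pool.Agent.Lib.Pa7c826g

open Finset Pool.Agent.Lib.Pa7c826

variable {adj : ℕ → ℕ → Bool} {p : ℕ → Prop} [DecidablePred p] {s : ℝ}

theorem ind_le_zf (hs1 : 1 ≤ s) (S : Finset ℕ) : (ind adj S : ℝ) ≤ zf adj p s S := by
  unfold ind zf
  rw [card_eq_sum_ones, Nat.cast_sum]
  apply sum_le_sum
  intro I _
  rw [Nat.cast_one]
  exact one_le_pow₀ hs1

namespace ZRecAux

/-- splitting the weighted count at a vertex -/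
theorem zf_split (hs : ∀ u v, adj u v = adj v u) (hl : ∀ u, adj u u = false)
    {S : Finset ℕ} {v : ℕ} (hv : v ∈ S) :
    zf adj p s S =
      (∑ I ∈ (S.erase v).powerset.filter (fun I => ∀ u ∈ I, ∀ v ∈ I, adj u v = false),
        s ^ wt adj p S I) +
      ∑ J ∈ ((S.erase v).filter (fun u => adj v u = false)).powerset.filter
        (fun I => ∀ u ∈ I, ∀ v ∈ I, adj u v = false), s ^ wt adj p S (insert v J) := by
  unfold zf
  rw [← sum_filter_add_sum_filter_not (s := S.powerset.filter
    (fun I => ∀ u ∈ I, ∀ v ∈ I, adj u v = false)) (fun I => v ∉ I)]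
  congr 1
  · congr 1
    ext I
    simp only [mem_filter, mem_powerset]
    constructor
    · rintro ⟨⟨h1, h2⟩, h3⟩
      exact ⟨fun x hx => mem_erase.2 ⟨fun e => h3 (e ▸ hx), h1 hx⟩, h2⟩
    · rintro ⟨h1, h2⟩
      exact ⟨⟨fun x hx => mem_of_mem_erase (h1 hx), h2⟩, fun h => by simpa using h1 h⟩
  · refine sum_bij' (fun I _ => I.erase v) (fun J _ => insert v J) ?_ ?_ ?_ ?_ ?_
    · intro I hI
      simp only [mem_filter, mem_powerset, not_not] at hI ⊢
      obtain ⟨⟨h1, h2⟩, h3⟩ := hI
      refine ⟨fun x hx => ?_, fun x hx y hy => h2 x (mem_of_mem_erase hx) y (mem_of_mem_erase hy)⟩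
      rw [mem_filter, mem_erase]
      exact ⟨⟨(mem_erase.1 hx).1, h1 (mem_of_mem_erase hx)⟩, h2 v h3 x (mem_of_mem_erase hx)⟩
    · intro J hJ
      simp only [mem_filter, mem_powerset, not_not] at hJ ⊢
      obtain ⟨h1, h2⟩ := hJ
      have h3 : ∀ x ∈ J, adj v x = false := fun x hx => (mem_filter.1 (h1 hx)).2
      refine ⟨⟨?_, ?_⟩, mem_insert_self _ _⟩
      · intro x hx
        rcases mem_insert.1 hx with rfl | hx
        · exact hv
        · exact mem_of_mem_erase (mem_filter.1 (h1 hx)).1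
      · intro x hx y hy
        rcases mem_insert.1 hx with hxv | hx' <;> rcases mem_insert.1 hy with hyv | hy'
        · rw [hxv, hyv]; exact hl _
        · rw [hxv]; exact h3 y hy'
        · rw [hyv, hs]; exact h3 x hx'
        · exact h2 x hx' y hy'
    · intro I hI
      simp only [mem_filter, mem_powerset, not_not] at hI
      exact insert_erase hI.2
    · intro J hJ
      simp only [mem_filter, mem_powerset] at hJ
      refine erase_insert fun h => ?_
      have := (mem_filter.1 (hJ.1 h)).1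
      simp at this
    · intro I hI
      simp only [mem_filter, mem_powerset, not_not] at hI
      rw [insert_erase hI.2]

theorem wt_mono {S T I J : Finset ℕ} (hST : S ⊆ T) (hIJ : I ⊆ J) :
    wt adj p S I ≤ wt adj p T J := by
  unfold wt
  apply card_le_card
  intro x
  simp only [mem_filter]
  rintro ⟨h1, h2, u, h3, h4⟩
  exact ⟨hST h1, h2, u, hIJ h3, h4⟩

theorem wt_erase_left {S I : Finset ℕ} {v : ℕ} (hpv : p v) :
    wt adj p (S.erase v) I = wt adj p S I := by
  unfold wt
  congr 1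
  ext x
  simp only [mem_filter, mem_erase]
  constructor
  · rintro ⟨⟨_, h1⟩, h2⟩
    exact ⟨h1, h2⟩
  · rintro ⟨h1, h2⟩
    exact ⟨⟨fun e => h2.1 (e ▸ hpv), h1⟩, h2⟩

theorem wt_insert_left (hbip : ∀ u v, adj u v = true → (p u ↔ ¬ p v))
    {S J : Finset ℕ} {v : ℕ} (hpv : p v) :
    wt adj p S (insert v J) =
      dg adj S v + wt adj p ((S.erase v).filter (fun u => adj v u = false)) J := by
  unfold wt dg
  rw [← card_union_of_disjoint]
  · congr 1
    ext x
    simp only [mem_filter, mem_union, mem_erase, mem_insert]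
    constructor
    · rintro ⟨h1, h2, u, h3, h4, h5⟩
      by_cases hx : adj v x = true
      · exact Or.inl ⟨h1, hx⟩
      · right
        rw [Bool.not_eq_true] at hx
        refine ⟨⟨⟨fun e => h2 (e ▸ hpv), h1⟩, hx⟩, h2, u, ?_, h4, h5⟩
        rcases h3 with rfl | h3
        · rw [hx] at h5
          exact absurd h5 (by simp)
        · exact h3
    · rintro (⟨h1, h2⟩ | ⟨⟨⟨h1, h2⟩, h3⟩, h4, u, h5, h6, h7⟩)
      · exact ⟨h1, (hbip v x h2).1 hpv, v, Or.inl rfl, hpv, h2⟩
      · exact ⟨h2, h4, u, Or.inr h5, h6, h7⟩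
  · rw [disjoint_left]
    intro x
    simp only [mem_filter, mem_erase]
    rintro ⟨_, h2⟩ ⟨⟨_, h3⟩, _⟩
    rw [h2] at h3
    exact absurd h3 (by simp)

end ZRecAux

open ZRecAux

theorem zf_left (hs : ∀ u v, adj u v = adj v u) (hl : ∀ u, adj u u = false)
    (hbip : ∀ u v, adj u v = true → (p u ↔ ¬ p v)) (hs1 : 1 ≤ s) {S : Finset ℕ} {v : ℕ}
    (hv : v ∈ S) (hpv : p v) :
    zf adj p s (S.erase v) +
      s ^ dg adj S v * zf adj p s ((S.erase v).filter (fun u => adj v u = false)) ≤
      zf adj p s S := by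
  apply le_of_eq
  rw [zf_split hs hl hv]
  congr 1
  · unfold zf
    apply sum_congr rfl
    intro I _
    rw [wt_erase_left hpv]
  · unfold zf
    rw [mul_sum]
    apply sum_congr rfl
    intro J _
    rw [wt_insert_left hbip hpv, pow_add]

theorem zf_right (hs : ∀ u v, adj u v = adj v u) (hl : ∀ u, adj u u = false)
    (hs1 : 1 ≤ s) {S : Finset ℕ} {v : ℕ} (hv : v ∈ S) :
    zf adj p s (S.erase v) + zf adj p s ((S.erase v).filter (fun u => adj v u = false)) ≤
      zf adj p s S := by
  rw [zf_split hs hl hv]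
  apply add_le_add
  · unfold zf
    apply sum_le_sum
    intro I _
    exact pow_le_pow_right₀ hs1 (wt_mono (erase_subset _ _) subset_rfl)
  · unfold zf
    apply sum_le_sum
    intro J _
    exact pow_le_pow_right₀ hs1
      (wt_mono ((filter_subset _ _).trans (erase_subset _ _)) (subset_insert _ _))

end Pool.Agent.Lib.Pa7c826g
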